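import Pool.Agent.FG.Equiv

/-!
# Codes of surgered 4-manifolds

A code `(L, k, s)` over `g` describes the closed smooth 4-manifold `M (L, k, s)` obtained from
`N = 4 RP⁴ # g (S¹ × S³)` by surgery on disjoint embedded loops representing the words of the list
`L` (the framings being the ones over which a standard Pin^+ structure extends) and by connected
sum with `k` copies of the `K3` surface and `s` copies of `S² × S²`. The generators of the
fundamental group of `N` are `a 0, ..., a 3` (the generators of the fundamental groups of the
copies of `RP⁴`) and `x 0, ..., x (g - 1)`.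
-/

namespace Pool.Agent.RG

open Pool.Agent.D4 Pool.Agent.FG

/-- Words in the letters `a 0, ..., a 3` (`Sum.inl`) and `x 0, ..., x (g - 1)` (`Sum.inr`) and
their inverses (`false`). -/
abbrev Word (g : ℕ) : Type := List ((Fin 4 ⊕ Fin g) × Bool)

/-- Codes: a list of words (the loops of the surgeries), the number of summands `K3`, the number
of summands `S² × S²`. -/
abbrev Code (g : ℕ) : Type := List (Word g) × ℕ × ℕ

/-- The sign of a generator: `-1` at each `a i`, `1` at each `x j`. -/
def sgn (g : ℕ) : Fin 4 ⊕ Fin g → ℤˣ := Sum.elim (fun _ => -1) fun _ => 1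

/-- The orientation character of `N`. -/
def sign (g : ℕ) : FreeGroup (Fin 4 ⊕ Fin g) →* ℤˣ := FreeGroup.lift (sgn g)

section

variable {g : ℕ}

/-- The relators: the squares of the `a i` and the words of the list. -/
def rels (L : List (Word g)) : Set (FreeGroup (Fin 4 ⊕ Fin g)) :=
  (Set.range fun i : Fin 4 => FreeGroup.of (Sum.inl i) * FreeGroup.of (Sum.inl i)) ∪
    {x | ∃ w ∈ L, FreeGroup.mk w = x}

/-- The fundamental group of the manifold with the loops `L`. -/
abbrev Pi1 (L : List (Word g)) : Type := PresentedGroup (rels L)

/-- The element of the fundamental group given by a word. -/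
def el (L : List (Word g)) (w : Word g) : Pi1 L := PresentedGroup.mk (rels L) (FreeGroup.mk w)

/-- Each loop preserves the orientation (the number of its letters `a i` is even). -/
def EvenLoops (L : List (Word g)) : Prop := ∀ w ∈ L, sign g (FreeGroup.mk w) = 1

theorem sign_rels {L : List (Word g)} (h : EvenLoops L) : ∀ x ∈ rels L, FreeGroup.lift (sgn g) x = 1 := by
  rintro x (⟨i, rfl⟩ | ⟨w, hw, rfl⟩)
  · simp [sgn]
  · exact h w hw

/-- The orientation character of the manifold with the loops `L`. -/
def ori (L : List (Word g)) (h : EvenLoops L) : Pi1 L →* ℤˣ := PresentedGroup.toGroup (sign_rels h)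

/-- The loops preserve the orientation, and the fundamental group of the manifold with its
orientation character is isomorphic to the group with relators `rel` with the character `χ`. -/
def HasType {N : ℕ} (rel : Set (FreeGroup (Fin N))) (χ : PresentedGroup rel →* ℤˣ)
    (L : List (Word g)) : Prop :=
  ∃ (h : EvenLoops L) (e : Pi1 L ≃* PresentedGroup rel), χ.comp e.toMonoidHom = ori L h

theorem of_mul_of (L : List (Word g)) (i : Fin 4) :
    (PresentedGroup.of (Sum.inl i) : Pi1 L) * PresentedGroup.of (Sum.inl i) = 1 := by
  have h := PresentedGroup.one_of_mem (rels := rels L)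
    (x := FreeGroup.of (Sum.inl i) * FreeGroup.of (Sum.inl i)) (Or.inl ⟨i, rfl⟩)
  rwa [map_mul] at h

/-- The homomorphism `{1, -1} → π₁` given by the `i`-th copy of `RP⁴`. -/
def rp (L : List (Word g)) (i : Fin 4) : ℤˣ →* Pi1 L :=
  D4.signHom (PresentedGroup.of (Sum.inl i)) (of_mul_of L i)

theorem rp_neg_one (L : List (Word g)) (i : Fin 4) :
    rp L i (-1) = PresentedGroup.of (Sum.inl i) := by simp [rp, D4.signHom]

theorem ori_rp (L : List (Word g)) (h : EvenLoops L) (i : Fin 4) :
    (ori L h).comp (rp L i) = MonoidHom.id ℤˣ := by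
  apply hom_ext'
  rw [MonoidHom.comp_apply, rp_neg_one, ori, PresentedGroup.toGroup.of]
  rfl

/-- The class of the manifold with the loops `L` and `k` summands `K3`: the sum of the classes of
the four copies of `RP⁴` and of `k` times the class of `K3`. -/
def bordismClass (Ω : PinTheory) (L : List (Word g)) (h : EvenLoops L) (k : ℕ) : Ω.obj (ori L h) :=
  ∑ i, Ω.cls (rp L i) (ori_rp L h i) + k • Ω.k (ori L h)

/-- `a` and `b` agree up to an isomorphism of the groups with character, a twist and a sign. -/
def SameClass (Ω : PinTheory) {G G' : Type} [Group G] [Group G'] {χ : G →* ℤˣ} {χ' : G' →* ℤˣ}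
    (a : Ω.obj χ) (b : Ω.obj χ') : Prop :=
  ∃ (α : G ≃* G') (h : χ'.comp α.toMonoidHom = χ) (ε : G →* ℤˣ) (s : ℤˣ),
    b = (s : ℤ) • Ω.map α.toMonoidHom h (Ω.twist χ ε a)

/-- The loops preserve the orientation, and the classes of the two manifolds agree up to an
isomorphism of the fundamental groups with orientation characters, a twist and a sign. -/
def PinEquivalent (Ω : PinTheory) (c c' : Code g) : Prop :=
  ∃ (h : EvenLoops c.1) (h' : EvenLoops c'.1),
    SameClass Ω (bordismClass Ω c.1 h c.2.1) (bordismClass Ω c'.1 h' c'.2.1)

/-- The word `a (i + 1) * v * a 0 * v⁻¹`, where `v` is a word in the letters `x j`. -/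
def dword (i : Fin 3) (v : List (Fin g × Bool)) : Word g :=
  (Sum.inl i.succ, true) :: (v.map (fun p => (Sum.inr p.1, p.2)) ++ (Sum.inl 0, true) ::
    (v.map fun p => (Sum.inr p.1, !p.2)).reverse)

/-- The words `a (i + 1) * v i * a 0 * (v i)⁻¹` for `i = 0, 1, 2`. -/
def dd (v : Fin 3 → List (Fin g × Bool)) : List (Word g) :=
  [dword 0 (v 0), dword 1 (v 1), dword 2 (v 2)]

/-- Two moves. `loop`: a loop may be replaced by one which is homotopic to it in the manifold with
the other loops. `trade`: if `a 1 * v 0 * a 0 * (v 0)⁻¹`, `a 2 * v 1 * a 0 * (v 1)⁻¹`,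
`a 3 * v 2 * a 0 * (v 2)⁻¹` are the last three loops, where `v 0`, `v 1`, `v 2` are words in the
`x j`, then `K3 # r (S² × S²)` may be replaced by `(r + 11) (S² × S²)`. -/
inductive Move (r : ℕ) : Code g → Code g → Prop
  | loop (L₁ L₂ : List (Word g)) (w w' : Word g) (k s : ℕ)
      (h : el (L₁ ++ L₂) w = el (L₁ ++ L₂) w') :
      Move r (L₁ ++ w :: L₂, k, s) (L₁ ++ w' :: L₂, k, s)
  | trade (L : List (Word g)) (v : Fin 3 → List (Fin g × Bool)) :
      Move r (L ++ dd v, 1, r) (L ++ dd v, 0, r + 11)

/-- The codes differ by the replacement of one summand `K3` by `11 (S² × S²)`. -/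
def Exchange (c c' : Code g) : Prop := c'.1 = c.1 ∧ c.2.1 = c'.2.1 + 1 ∧ c'.2.2 = c.2.2 + 11

/-- `T` is computable; for codes whose loops preserve the orientation, `D (T c) (T c')` holds if
`c` and `c'` are related by moves, and implies that the classes are equivalent, and
`H (T c) (T c')` holds if `c` and `c'` differ by an exchange. In the main example `Ω` is Pin^+
bordism, `r` is the number of summands `S² × S²` for which the trade is a diffeomorphism, `T c` is
a triangulation of `M c`, `D` is the relation of being diffeomorphic and `H` the relation of being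
homeomorphic. -/
structure Realizes (Ω : PinTheory) (r : ℕ) {α : Type} [Primcodable α] (T : Code g → α)
    (D H : α → α → Prop) : Prop where
  computable : Computable T
  moves : ∀ c c' : Code g, EvenLoops c.1 → Relation.EqvGen (Move r) c c' → D (T c) (T c')
  bordism : ∀ c c' : Code g, EvenLoops c.1 → EvenLoops c'.1 → D (T c) (T c') →
    PinEquivalent Ω c c'
  exchange : ∀ c c' : Code g, EvenLoops c.1 → Exchange c c' → H (T c) (T c')

/-- `f` is an algorithm which decides `D` on the pairs `T c`, `T c'` in `H` for which the
fundamental groups with orientation characters of the manifolds given by `c` and `c'` are the group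
with relators `rel` with the character `χ`. -/
def Decides {N : ℕ} (rel : Set (FreeGroup (Fin N))) (χ : PresentedGroup rel →* ℤˣ) {α : Type}
    [Primcodable α] (T : Code g → α) (D H : α → α → Prop) (f : α × α →. Bool) : Prop :=
  Partrec f ∧ ∀ c c' : Code g, HasType rel χ c.1 → HasType rel χ c'.1 → H (T c) (T c') →
    ∃ b ∈ f (T c, T c'), (b = true ↔ D (T c) (T c'))

/-- A recursively enumerable predicate which is many-one complete, and so not computable. -/
structure CompleteRE (p : ℕ → Prop) : Prop where
  re : REPred p
  complete : ∀ q : ℕ → Prop, REPred q → q ≤₀ p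
  not_computable : ¬ ComputablePred p

end

end Pool.Agent.RG
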