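import Pool.Agent.RG.Detect

/-!
# When adding `kappa` gives an equivalent class
-/

namespace Pool.Agent.RG

open Pool.Agent.D4 Pool.Agent.FG

section main

variable {X Y K : Type} [Group K] {φ : K →* Equiv.Perm X} {φ' : K →* Equiv.Perm Y} {y₀ : Y}
  (Ω : PinTheory) {G : Type} [Group G] {fB : D φ × D φ' →* G} {gE : E φ φ' × ℤˣ →* G}

/-- Orbits of the stabilizer of `y₀` on `X`. -/
def Orb (φ : K →* Equiv.Perm X) (φ' : K →* Equiv.Perm Y) (y₀ : Y) (x y : X) : Prop :=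
  ∃ b ∈ St φ' y₀, φ b x = y

omit [Group G] in
theorem Orb_symm {x y : X} (h : Orb φ φ' y₀ x y) : Orb φ φ' y₀ y x := by
  obtain ⟨b, hb, rfl⟩ := h
  refine ⟨b⁻¹, inv_mem hb, ?_⟩
  rw [map_inv, Equiv.Perm.inv_eq_iff_eq]

omit [Group G] in
theorem Orb_trans {x y z : X} (h : Orb φ φ' y₀ x y) (h' : Orb φ φ' y₀ y z) :
    Orb φ φ' y₀ x z := by
  obtain ⟨b, hb, rfl⟩ := h
  obtain ⟨c, hc, rfl⟩ := h'
  exact ⟨c * b, mul_mem hc hb, by rw [map_mul, Equiv.Perm.mul_apply]⟩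

omit [Group G] in
theorem Orb_invariant (x : X) : ∀ b ∈ St φ' y₀, ∀ k, Orb φ φ' y₀ x (φ b k) ↔ Orb φ φ' y₀ x k := by
  intro b hb k
  exact ⟨fun h => Orb_trans h (Orb_symm ⟨b, hb, rfl⟩), fun h => Orb_trans h ⟨b, hb, rfl⟩⟩

theorem TT_neg_one (k : X) :
    TT φ φ' y₀ gE k (-1) = gE (gF φ φ' y₀ (inX _ (gx k (-1)), -1), -1) := rfl

theorem TT_conj {x y : X} (h : Orb φ φ' y₀ x y) :
    ∃ g, g * TT φ φ' y₀ gE x (-1) * g⁻¹ = TT φ φ' y₀ gE y (-1) := by
  obtain ⟨b, hb, rfl⟩ := h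
  refine ⟨gE (gF φ φ' y₀ (inP _ ⟨b, hb⟩, 1), 1), ?_⟩
  rw [TT_neg_one, TT_neg_one, ← map_inv, ← map_mul, ← map_mul]
  congr 1
  simp only [Prod.mk_mul_mk, Prod.inv_mk, inv_one, mul_one, one_mul, Prod.mk.injEq, and_true]
  rw [← map_inv, ← map_mul, ← map_mul]
  congr 1
  simp only [Prod.mk_mul_mk, Prod.inv_mk, inv_one, mul_one, one_mul, Prod.mk.injEq, and_true]
  rw [inP_mul_inX, mv_gx]
  rfl

theorem trichotomy (ht : ∀ y, ∃ k, φ' k y₀ = y) (htf : ∀ k ∈ St φ' y₀, k * k = 1 → k = 1)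
    (hX : ∀ x : Fx X, x * x = 1 → x = 1 ∨ ∃ (y : Fx X) (k : X), x = y * gx k (-1) * y⁻¹)
    (hp : Pushout (iE φ φ') (MonoidHom.inl (E φ φ') ℤˣ) fB gE) (χ : G →* ℤˣ)
    (hB : χ.comp fB = (chiD φ).comp (MonoidHom.fst (D φ) (D φ'))) (hE : χ.comp gE = psiE φ φ')
    (hT : ∀ k, χ.comp (TT φ φ' y₀ gE k) = MonoidHom.id ℤˣ) (v : ℤˣ →* G)
    (hv : χ.comp v = MonoidHom.id ℤˣ) :
    (∃ b, Ω.cls v hv = Ω.map fB hB b) ∨
    (∃ b, Ω.cls v hv =
      Ω.map gE hE (Ω.map ((bE φ φ').prodMap (MonoidHom.id ℤˣ)) (psiE_bE φ φ') b)) ∨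
    (∃ k, Ω.cls v hv = Ω.cls (TT φ φ' y₀ gE k) (hT k)) := by
  have hfi := f_injective _ _ _ _ hp (iE_injective φ φ') (inl_injective' _ ℤˣ)
  have hgi := g_injective _ _ _ _ hp (iE_injective φ φ') (inl_injective' _ ℤˣ)
  have hv1 : χ (v (-1)) = -1 := DFunLike.congr_fun hv (-1)
  have hvv : v (-1) * v (-1) = 1 := by rw [← map_mul]; simp
  obtain ⟨y, hy⟩ := classify φ φ' y₀ ht htf hX hp (v (-1)) hvv
  have hsq : ∀ z, y * v (-1) * y⁻¹ = z → z * z = 1 := by
    rintro z rfl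
    calc y * v (-1) * y⁻¹ * (y * v (-1) * y⁻¹) = y * (v (-1) * v (-1)) * y⁻¹ := by group
      _ = 1 := by rw [hvv]; group
  have hχ : ∀ z, y * v (-1) * y⁻¹ = z → χ z = -1 := by
    rintro z rfl
    rw [map_mul, map_mul, map_inv, hv1, mul_comm (χ y), mul_assoc, mul_inv_cancel, mul_one]
  rcases hy with ⟨b, hb⟩ | ⟨u, hu⟩ | ⟨k, hk⟩ | hf
  · left
    have h1 : b * b = 1 := by
      apply hfi
      rw [map_mul, hsq _ hb, map_one]
    have hs : D4.signHom b h1 (-1) = b := by simp [D4.signHom]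
    have h2 : ((chiD φ).comp (MonoidHom.fst (D φ) (D φ'))).comp (D4.signHom b h1) =
        MonoidHom.id ℤˣ := by
      apply hom_ext'
      rw [← hB, MonoidHom.comp_apply, hs]
      exact hχ _ hb
    refine ⟨Ω.cls (D4.signHom b h1) h2, ?_⟩
    have h3 : χ.comp (fB.comp (D4.signHom b h1)) = MonoidHom.id ℤˣ := by
      rw [← MonoidHom.comp_assoc, hB, h2]
    rw [map_cls Ω _ h2 fB hB h3]
    apply cls_conj Ω _ _ _ _ y
    rw [MonoidHom.comp_apply, hs]
    exact hb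
  · right
    left
    have h1 : ((u, -1) : D φ × ℤˣ) * (u, -1) = 1 := by
      have h2 := hsq _ hu
      rw [← map_mul, ← map_one gE] at h2
      have h3 := hgi h2
      have h4 : bE φ φ' u * bE φ φ' u = 1 := congrArg Prod.fst h3
      rw [← map_mul, ← map_one (bE φ φ')] at h4
      have h5 := inP_injective (act' φ φ') h4
      simp [h5]
    have hs : D4.signHom (u, -1) h1 (-1) = (u, -1) := by simp [D4.signHom]
    have h2 : (psiU φ).comp (D4.signHom (u, -1) h1) = MonoidHom.id ℤˣ := by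
      apply hom_ext'
      rw [← psiE_bE φ φ', ← hE, MonoidHom.comp_apply, hs]
      exact hχ _ hu
    have h4 : (psiE φ φ').comp (((bE φ φ').prodMap (MonoidHom.id ℤˣ)).comp
        (D4.signHom (u, -1) h1)) = MonoidHom.id ℤˣ := by rw [← MonoidHom.comp_assoc, psiE_bE, h2]
    have h3 : χ.comp (gE.comp (((bE φ φ').prodMap (MonoidHom.id ℤˣ)).comp
        (D4.signHom (u, -1) h1))) = MonoidHom.id ℤˣ := by
      rw [← MonoidHom.comp_assoc, hE, h4]
    refine ⟨Ω.cls (D4.signHom (u, -1) h1) h2, ?_⟩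
    rw [map_cls Ω _ h2 _ (psiE_bE φ φ') h4, map_cls Ω _ h4 gE hE h3]
    apply cls_conj Ω _ _ _ _ y
    rw [MonoidHom.comp_apply, MonoidHom.comp_apply, hs]
    exact hu
  · right
    right
    exact ⟨k, cls_conj Ω _ _ _ _ y hk⟩
  · exfalso
    have h1 := hχ _ hf
    have h2 : χ (gE (gF φ φ' y₀ (1, -1), -1)) = chiD φ (rE φ φ' (gF φ φ' y₀ (1, -1))) :=
      DFunLike.congr_fun hE (gF φ φ' y₀ (1, -1), -1)
    rw [h2, rE_gF, map_one, map_one] at h1
    exact absurd h1 (by decide)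

theorem not_equivalent (ht : ∀ y, ∃ k, φ' k y₀ = y) (htf : ∀ k ∈ St φ' y₀, k * k = 1 → k = 1)
    (hX : ∀ x : Fx X, x * x = 1 → x = 1 ∨ ∃ (y : Fx X) (k : X), x = y * gx k (-1) * y⁻¹)
    (hp : Pushout (iE φ φ') (MonoidHom.inl (E φ φ') ℤˣ) fB gE) (χ : G →* ℤˣ)
    (hB : χ.comp fB = (chiD φ).comp (MonoidHom.fst (D φ) (D φ'))) (hE : χ.comp gE = psiE φ φ')
    (hT : ∀ k, χ.comp (TT φ φ' y₀ gE k) = MonoidHom.id ℤˣ) (x : Fin 4 → X)
    (hx : ∀ i j, Orb φ φ' y₀ (x i) (x j) → i = j) :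
    ¬ Ω.Equivalent (∑ i, Ω.cls (TT φ φ' y₀ gE (x i)) (hT (x i)))
      (∑ i, Ω.cls (TT φ φ' y₀ gE (x i)) (hT (x i)) + Ω.k χ) := by
  classical
  rintro ⟨α, hα, ε, s, h⟩
  have hv : ∀ i, χ.comp (α.toMonoidHom.comp (TT φ φ' y₀ gE (x i))) = MonoidHom.id ℤˣ := fun i => by
    rw [← MonoidHom.comp_assoc, hα, hT]
  obtain ⟨δ, hδ⟩ : ∃ δ : Fin 4 → ℤˣ, ∀ i,
      (s : ℤ) • Ω.twist χ ε (Ω.map α.toMonoidHom hα (Ω.cls (TT φ φ' y₀ gE (x i)) (hT (x i)))) =
        (δ i : ℤ) • Ω.cls _ (hv i) := by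
    refine ⟨fun i => s * ε ((α.toMonoidHom.comp (TT φ φ' y₀ gE (x i))) (-1)), fun i => ?_⟩
    rw [map_cls Ω _ _ _ hα (hv i), twist_cls, smul_smul, Units.val_mul]
  have h1 : ∑ i, Ω.cls (TT φ φ' y₀ gE (x i)) (hT (x i)) + Ω.k χ =
      ∑ i, (δ i : ℤ) • Ω.cls _ (hv i) := by
    rw [h, map_sum, map_sum, Finset.smul_sum]
    exact Finset.sum_congr rfl fun i _ => hδ i
  have h2 : ∀ i, ∃ (o : Option X) (b₁ : Ω.obj ((chiD φ).comp (MonoidHom.fst (D φ) (D φ'))))
      (b : Ω.obj (psiU φ)), Ω.cls _ (hv i) = Ω.map fB hB b₁ +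
        Ω.map gE hE (Ω.map ((bE φ φ').prodMap (MonoidHom.id ℤˣ)) (psiE_bE φ φ') b) +
        (o.elim 0 fun k => Ω.cls (TT φ φ' y₀ gE k) (hT k)) ∧
        (∀ k, o = some k → Ω.cls _ (hv i) = Ω.cls (TT φ φ' y₀ gE k) (hT k)) ∧
        (∀ k, o = some k → ∀ j, Orb φ φ' y₀ (x j) k → k = x j) := by
    intro i
    rcases trichotomy Ω ht htf hX hp χ hB hE hT _ (hv i) with ⟨b, hb⟩ | ⟨b, hb⟩ | ⟨k, hk⟩
    · exact ⟨none, b, 0, by rw [hb]; simp, by simp, by simp⟩
    · exact ⟨none, 0, b, by rw [hb]; simp, by simp, by simp⟩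
    · by_cases hj : ∃ j, Orb φ φ' y₀ (x j) k
      · obtain ⟨j, hj⟩ := hj
        obtain ⟨z, hz⟩ := TT_conj (gE := gE) hj
        have hk' : Ω.cls _ (hv i) = Ω.cls (TT φ φ' y₀ gE (x j)) (hT (x j)) := by
          rw [hk]
          exact (cls_conj Ω _ _ _ _ z hz).symm
        refine ⟨some (x j), 0, 0, by rw [hk']; simp, ?_, ?_⟩
        · intro k' hk''
          rw [Option.some.injEq] at hk''
          subst hk''
          exact hk'
        · intro k' hk'' j' hj'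
          rw [Option.some.injEq] at hk''
          subst hk''
          rw [hx _ _ hj']
      · refine ⟨some k, 0, 0, by rw [hk]; simp, ?_, ?_⟩
        · intro k' hk'
          rw [Option.some.injEq] at hk'
          subst hk'
          exact hk
        · intro k' hk' j hj'
          rw [Option.some.injEq] at hk'
          subst hk'
          exact absurd ⟨j, hj'⟩ hj
  choose o b₁ b hob hok hoo using h2
  let H : (X →₀ ℤ) →+ Ω.obj χ := Finsupp.liftAddHom fun k =>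
    (zmultiplesHom (Ω.obj χ)) (Ω.cls (TT φ φ' y₀ gE k) (hT k))
  have hH1 : ∀ k n, H (Finsupp.single k n) = n • Ω.cls (TT φ φ' y₀ gE k) (hT k) := by
    intro k n
    simp [H]
  have hH2 : ∀ N, H N = N.sum fun k n => n • Ω.cls (TT φ φ' y₀ gE k) (hT k) := by
    intro N
    simp only [H, Finsupp.liftAddHom_apply]
    rfl
  let N : X →₀ ℤ := ∑ i, (o i).elim 0 (fun k => Finsupp.single k (δ i : ℤ)) -
    ∑ i, Finsupp.single (x i) 1
  have hHN : H N = ∑ i, (δ i : ℤ) • ((o i).elim 0 fun k => Ω.cls (TT φ φ' y₀ gE k) (hT k)) -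
      ∑ i, Ω.cls (TT φ φ' y₀ gE (x i)) (hT (x i)) := by
    rw [map_sub, map_sum, map_sum]
    congr 1
    · refine Finset.sum_congr rfl fun i _ => ?_
      cases o i with
      | none => simp
      | some k => simp [hH1]
    · refine Finset.sum_congr rfl fun i _ => ?_
      rw [hH1, one_smul]
  have hNsum : ∀ (j : Fin 4) (inst : DecidablePred (Orb φ φ' y₀ (x j))),
      ∑ i, (if o i = some (x j) then (δ i : ℤ) else 0) - 1 =
        N.sum (fun k m => if Orb φ φ' y₀ (x j) k then m else 0) := by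
    intro j inst
    let T : (X →₀ ℤ) →+ ℤ := Finsupp.liftAddHom fun k =>
      if Orb φ φ' y₀ (x j) k then AddMonoidHom.id ℤ else 0
    have hT1 : ∀ k n, T (Finsupp.single k n) = if Orb φ φ' y₀ (x j) k then n else 0 := by
      intro k n
      simp only [T, Finsupp.liftAddHom_apply, Finsupp.sum_single_index, map_zero]
      by_cases hk : Orb φ φ' y₀ (x j) k
      · simp [hk]
      · simp [hk]
    have hT2 : T N = N.sum (fun k m => if Orb φ φ' y₀ (x j) k then m else 0) := by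
      simp only [T, Finsupp.liftAddHom_apply]
      refine Finsupp.sum_congr fun k _ => ?_
      by_cases hk : Orb φ φ' y₀ (x j) k
      · simp [hk]
      · simp [hk]
    rw [← hT2, map_sub, map_sum, map_sum]
    congr 1
    · refine Finset.sum_congr rfl fun i _ => ?_
      cases ho : o i with
      | none => simp
      | some k =>
        simp only [Option.elim_some, hT1, Option.some.injEq]
        by_cases hk : Orb φ φ' y₀ (x j) k
        · rw [if_pos hk, if_pos (hoo i k ho j hk)]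
        · rw [if_neg hk, if_neg]
          rintro rfl
          exact hk ⟨1, one_mem _, by rw [map_one]; rfl⟩
    · simp only [hT1]
      rw [Finset.sum_eq_single j]
      · rw [if_pos]
        exact ⟨1, one_mem _, by rw [map_one]; rfl⟩
      · intro i _ hi
        rw [if_neg]
        intro h4
        exact hi (hx _ _ h4).symm
      · simp
  have hzero : Ω.map fB hB (∑ i, (δ i : ℤ) • b₁ i - Ω.k _) +
      Ω.map gE hE (Ω.map ((bE φ φ').prodMap (MonoidHom.id ℤˣ)) (psiE_bE φ φ')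
        (∑ i, (δ i : ℤ) • b i)) +
      N.sum (fun k n => n • Ω.cls (TT φ φ' y₀ gE k) (hT k)) = 0 := by
    rw [← hH2, hHN]
    rw [map_sub, map_k' Ω fB hB]
    simp only [map_sum, map_zsmul]
    have h4 : ∑ i, (δ i : ℤ) • Ω.cls _ (hv i) = ∑ i, (δ i : ℤ) • Ω.map fB hB (b₁ i) +
        ∑ i, (δ i : ℤ) • Ω.map gE hE (Ω.map ((bE φ φ').prodMap (MonoidHom.id ℤˣ))
          (psiE_bE φ φ') (b i)) +
        ∑ i, (δ i : ℤ) • ((o i).elim 0 fun k => Ω.cls (TT φ φ' y₀ gE k) (hT k)) := by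
      rw [← Finset.sum_add_distrib, ← Finset.sum_add_distrib]
      refine Finset.sum_congr rfl fun i _ => ?_
      rw [hob i]
      simp only [smul_add]
    rw [← h1] at h4
    have h5 : ∑ i, (δ i : ℤ) • ((o i).elim 0 fun k => Ω.cls (TT φ φ' y₀ gE k) (hT k)) =
        ∑ i, Ω.cls (TT φ φ' y₀ gE (x i)) (hT (x i)) + Ω.k χ -
        (∑ i, (δ i : ℤ) • Ω.map fB hB (b₁ i) +
        ∑ i, (δ i : ℤ) • Ω.map gE hE (Ω.map ((bE φ φ').prodMap (MonoidHom.id ℤˣ))
          (psiE_bE φ φ') (b i))) := by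
      rw [h4]
      abel
    rw [h5]
    abel
  have hN' : ∀ j, (4 : ℤ) ∣ ∑ i, (if o i = some (x j) then (δ i : ℤ) else 0) - 1 := fun j =>
    detect (Orb_invariant (x j)) Ω ht hp χ hB hE hT N _ _ hzero _ (hNsum j)
  have hxi : Function.Injective x := by
    intro i j hij
    exact hx i j ⟨1, one_mem _, by rw [map_one]; exact hij⟩
  have hex : ∀ j, ∃ i, o i = some (x j) := by
    intro j
    by_contra hc
    push Not at hc
    have h4 := hN' j
    rw [Finset.sum_eq_zero (fun i _ => if_neg (hc i))] at h4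
    omega
  choose f hf using hex
  have hfi : Function.Injective f := by
    intro j j' hjj
    have h4 := hf j
    rw [hjj, hf j', Option.some.injEq] at h4
    exact (hxi h4).symm
  have hfs : Function.Surjective f := Finite.surjective_of_injective hfi
  have hδ1 : ∀ j, δ (f j) = 1 := by
    intro j
    have h4 := hN' j
    have h5 : ∑ i, (if o i = some (x j) then (δ i : ℤ) else 0) = (δ (f j) : ℤ) := by
      rw [Finset.sum_eq_single (f j)]
      · rw [if_pos (hf j)]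
      · intro i _ hi
        apply if_neg
        intro h6
        obtain ⟨j', rfl⟩ := hfs i
        rw [hf j', Option.some.injEq] at h6
        exact hi (by rw [hxi h6])
      · simp
    rw [h5] at h4
    rcases Int.units_eq_one_or (δ (f j)) with h6 | h6
    · exact h6
    · rw [h6] at h4
      exact absurd h4 (by decide)
  have hsum : ∑ i, (δ i : ℤ) • Ω.cls _ (hv i) =
      ∑ i, Ω.cls (TT φ φ' y₀ gE (x i)) (hT (x i)) := by
    rw [← (Equiv.ofBijective f ⟨hfi, hfs⟩).sum_comp]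
    refine Finset.sum_congr rfl fun j _ => ?_
    change (δ (f j) : ℤ) • Ω.cls _ (hv (f j)) = _
    rw [hδ1, hok (f j) (x j) (hf j)]
    simp
  rw [hsum] at h1
  exact k_ne_zero Ω χ (add_eq_left.1 h1)

end main

end Pool.Agent.RG
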