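import Pool.Agent.RG.ResFin
import Pool.Agent.RG.Equiv
import Pool.Agent.FG.Pres

/-!
# The actions of `F × F` on the free group `F₀`

`F` is free on `T ⊕ J`, `F₀` is free on `T`, `pr r : F → F₀` is the identity on the letters of `T`
and maps the letter `j` to `r j`, and `F × F` acts on `F₀` through `pr r` by left and right
multiplication.
-/

namespace Pool.Agent.RG

open Pool.Agent.D4 Pool.Agent.FG

variable {T J : Type}

/-- The projection. -/
def pr (r : J → FreeGroup T) : FreeGroup (T ⊕ J) →* FreeGroup T :=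
  FreeGroup.lift (Sum.elim FreeGroup.of r)

/-- The section. -/
def sg (J : Type) : FreeGroup T →* FreeGroup (T ⊕ J) := FreeGroup.map Sum.inl

theorem pr_sg (r : J → FreeGroup T) (y : FreeGroup T) : pr r (sg J y) = y := by
  have h : (pr r).comp (sg J) = MonoidHom.id _ := by
    ext t
    simp [pr, sg]
  exact DFunLike.congr_fun h y

theorem pr_inl (r : J → FreeGroup T) (t : T) : pr r (FreeGroup.of (Sum.inl t)) = FreeGroup.of t := by
  simp [pr]

theorem pr_inr (r : J → FreeGroup T) (j : J) : pr r (FreeGroup.of (Sum.inr j)) = r j := by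
  simp [pr]

/-- The group `F × F`. -/
abbrev KK (T J : Type) : Type := FreeGroup (T ⊕ J) × FreeGroup (T ⊕ J)

/-- The action of `F × F` on `F₀`. -/
def ph (r : J → FreeGroup T) : KK T J →* Equiv.Perm (FreeGroup T) :=
  (tw (FreeGroup T)).comp ((pr r).prodMap (pr r))

theorem ph_apply (r : J → FreeGroup T) (u v : FreeGroup (T ⊕ J)) (y : FreeGroup T) :
    ph r (u, v) y = pr r u * y * (pr r v)⁻¹ := rfl

theorem ph_trans (r : J → FreeGroup T) (y : FreeGroup T) : ∃ k, ph r k 1 = y := by
  refine ⟨(sg J y, 1), ?_⟩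
  rw [ph_apply, pr_sg, map_one, inv_one, mul_one, mul_one]

theorem ph_sg (r : J → FreeGroup T) (y : FreeGroup T) : ph r (sg J y, 1) 1 = y := by
  rw [ph_apply, pr_sg, map_one, inv_one, mul_one, mul_one]

theorem KK_torsionFree (k : KK T J) (h : k * k = 1) : k = 1 := by
  have h1 : ∀ x : FreeGroup (T ⊕ J), x * x = 1 → x = 1 := by
    intro x hx
    have h2 : x ^ 2 = 1 := by rw [pow_two, hx]
    exact (pow_eq_one_iff_left two_ne_zero).1 h2
  exact Prod.ext (h1 _ (congrArg Prod.fst h)) (h1 _ (congrArg Prod.snd h))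

theorem ph_RF (r : J → FreeGroup T) : RFAct (ph r) := (RFAct_tw (FreeGroup T)).comp _

theorem resFinite_ph (r₁ r₂ : J → FreeGroup T) : Group.ResiduallyFinite (GG (ph r₁) (ph r₂)) :=
  resFinite_GG _ _ (ph_RF r₁) (ph_RF r₂)

/-- The stabilizer of `1` commutes with `t` if its generators do. -/
theorem stab_commute (r : J → FreeGroup T) {H : Type} [Group H] (κ : KK T J →* H) (t : H)
    (h1 : ∀ x, Commute t (κ (FreeGroup.of x, FreeGroup.of x)))
    (h2 : ∀ j, Commute t (κ (FreeGroup.of (Sum.inr j) * (sg J (r j))⁻¹, 1)))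
    (p : KK T J) (hp : ph r p 1 = 1) : Commute t (κ p) := by
  obtain ⟨u, v⟩ := p
  rw [ph_apply, mul_one, mul_inv_eq_one] at hp
  have hd : ∀ f, Commute t (κ (f, f)) := by
    intro f
    have e : (MulAut.conj t).toMonoidHom.comp (κ.comp ((MonoidHom.id _).prod (MonoidHom.id _))) =
        κ.comp ((MonoidHom.id (FreeGroup (T ⊕ J))).prod (MonoidHom.id _)) := by
      ext x
      exact conj_eq_of_commute (h1 x)
    exact commute_of_comp e f
  have hmul : ∀ a b, Commute t (κ (a, 1)) → Commute t (κ (b, 1)) →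
      Commute t (κ (a * b, 1)) := by
    intro a b ha hb
    have e : ((a * b, 1) : KK T J) = (a, 1) * (b, 1) := by simp
    rw [e, map_mul]
    exact ha.mul_right hb
  have hinv : ∀ a, Commute t (κ (a, 1)) → Commute t (κ (a⁻¹, 1)) := by
    intro a ha
    have e : ((a⁻¹, 1) : KK T J) = (a, 1)⁻¹ := by simp
    rw [e, map_inv]
    exact ha.inv_right
  have hconj : ∀ f a, Commute t (κ (a, 1)) → Commute t (κ (f * a * f⁻¹, 1)) := by
    intro f a ha
    have e : ((f * a * f⁻¹, 1) : KK T J) = (f, f) * (a, 1) * (f, f)⁻¹ := by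
      simp
    rw [e, map_mul, map_mul, map_inv]
    exact ((hd f).mul_right ha).mul_right (hd f).inv_right
  have hs : ∀ f, Commute t (κ (f * (sg J (pr r f))⁻¹, 1)) := by
    intro f
    induction f using FreeGroup.induction_on with
    | C1 =>
      have e : ((1 * (sg J (pr r (1 : FreeGroup (T ⊕ J))))⁻¹, 1) : KK T J) = 1 := by
        rw [map_one, map_one, inv_one, mul_one]
        rfl
      rw [e, map_one]
      exact Commute.one_right t
    | of x =>
      rcases x with x | j
      · have e : ((FreeGroup.of (Sum.inl x) * (sg J (pr r (FreeGroup.of (Sum.inl x))))⁻¹, 1) :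
          KK T J) = 1 := by
          rw [pr_inl]
          simp [sg]
        rw [e, map_one]
        exact Commute.one_right t
      · rw [pr_inr]
        exact h2 j
    | inv_of x ih =>
      have e : (FreeGroup.of x)⁻¹ * (sg J (pr r (FreeGroup.of x)⁻¹))⁻¹ =
          (FreeGroup.of x)⁻¹ * (FreeGroup.of x * (sg J (pr r (FreeGroup.of x)))⁻¹)⁻¹ *
            ((FreeGroup.of x)⁻¹)⁻¹ := by
        rw [map_inv, map_inv]
        group
      rw [e]
      exact hconj _ _ (hinv _ ih)
    | mul x y ihx ihy =>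
      have e : x * y * (sg J (pr r (x * y)))⁻¹ =
          x * (y * (sg J (pr r y))⁻¹) * x⁻¹ * (x * (sg J (pr r x))⁻¹) := by
        rw [map_mul, map_mul]
        group
      rw [e]
      exact hmul _ _ (hconj _ _ ihy) ihx
  have h3 : pr r (u * v⁻¹) = 1 := by rw [map_mul, map_inv, hp, mul_inv_cancel]
  have h4 := hs (u * v⁻¹)
  rw [h3, map_one, inv_one, mul_one] at h4
  have e : ((u, v) : KK T J) = (u * v⁻¹, 1) * (v, v) := by simp
  rw [e, map_mul]
  exact h4.mul_right (hd v)

/-- Homomorphisms from `F × F` are determined on the letters. -/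
theorem KK_ext {H : Type} [Group H] {f g : KK T J →* H}
    (h1 : ∀ x, f (FreeGroup.of x, 1) = g (FreeGroup.of x, 1))
    (h2 : ∀ x, f (1, FreeGroup.of x) = g (1, FreeGroup.of x)) : f = g := by
  have e1 : f.comp (MonoidHom.inl _ _) = g.comp (MonoidHom.inl _ _) := by
    ext x
    exact h1 x
  have e2 : f.comp (MonoidHom.inr _ _) = g.comp (MonoidHom.inr _ _) := by
    ext x
    exact h2 x
  refine MonoidHom.ext fun x => ?_
  obtain ⟨u, v⟩ := x
  have e3 : ((u, v) : KK T J) = (u, 1) * (1, v) := by simp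
  have e4 : f (u, 1) = g (u, 1) := DFunLike.congr_fun e1 u
  have e5 : f (1, v) = g (1, v) := DFunLike.congr_fun e2 v
  rw [e3, map_mul, map_mul, e4, e5]

/-- If `h` commutes with the images of `P` and of the factor at `x₀`, it commutes with all. -/
theorem commute_D {X P H : Type} [Group P] [Group H] (φ : P →* Equiv.Perm X) (x₀ : X)
    (ht : ∀ x, ∃ p, φ p x₀ = x) {f : D φ →* H} {h : H} (h1 : ∀ p, Commute h (f (inP φ p)))
    (h2 : Commute h (f (inX φ (gx x₀ (-1))))) (x : D φ) : Commute h (f x) := by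
  apply commute_of_comp
  apply D_ext' φ x₀ ht
  · exact fun p => conj_eq_of_commute (h1 p)
  · intro u
    rcases Int.units_eq_one_or u with rfl | rfl
    · rw [map_one, map_one, map_one, map_one]
    · exact conj_eq_of_commute h2

end Pool.Agent.RG
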