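import Pool.Agent.RG.Groups

/-!
# The coefficients modulo four
-/

namespace Pool.Agent.RG

open Pool.Agent.D4 Pool.Agent.FG

section

variable {X Y K : Type} [Group K] (φ : K →* Equiv.Perm X) (φ' : K →* Equiv.Perm Y) (y₀ : Y)

/-- The inclusion of the stabilizer. -/
abbrev rs : St φ' y₀ →* K := (St φ' y₀).subtype

/-- The character of `(UB × {1, -1}) × {1, -1}`. -/
def psiF : (UB φ φ' y₀ × ℤˣ) × ℤˣ →* ℤˣ :=
  ((chiD (φ.comp (rs φ' y₀))).comp (MonoidHom.fst (UB φ φ' y₀) ℤˣ)).comp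
    (MonoidHom.fst (UB φ φ' y₀ × ℤˣ) ℤˣ)

/-- The character of `D φ × {1, -1}`. -/
def psiU : D φ × ℤˣ →* ℤˣ := (chiD φ).comp (MonoidHom.fst (D φ) ℤˣ)

/-- The character of `E × {1, -1}`. -/
def psiE : E φ φ' × ℤˣ →* ℤˣ := ((chiD φ).comp (rE φ φ')).comp (MonoidHom.fst (E φ φ') ℤˣ)

/-- The inclusion of `D φ` in `E`. -/
def bE : D φ →* E φ φ' := inP (act' φ φ')

theorem psiE_bE : (psiE φ φ').comp ((bE φ φ').prodMap (MonoidHom.id ℤˣ)) = psiU φ := by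
  refine MonoidHom.ext fun x => ?_
  change chiD φ (rE φ φ' (inP _ x.1)) = chiD φ x.1
  rw [rE_inP]

theorem rE_gF (f : UB φ φ' y₀) (u : ℤˣ) : rE φ φ' (gF φ φ' y₀ (f, u)) = aU φ φ' y₀ f := by
  change rE φ φ' (inP _ (aU φ φ' y₀ f) * inX _ (gx y₀ u)) = aU φ φ' y₀ f
  rw [map_mul, rE_inP, rE_inX, mul_one]

theorem psiE_gF : (psiE φ φ').comp ((gF φ φ' y₀).prodMap (MonoidHom.id ℤˣ)) = psiF φ φ' y₀ := by
  refine MonoidHom.ext fun x => ?_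
  obtain ⟨⟨f, u⟩, v⟩ := x
  change chiD φ (rE φ φ' (gF φ φ' y₀ (f, u))) = chiD _ f
  rw [rE_gF]
  exact DFunLike.congr_fun (chiD_mapD φ (rs φ' y₀)) f

/-- The homomorphism `u ↦ ((u_k, u), u)`. -/
def zz (k : X) : ℤˣ →* (UB φ φ' y₀ × ℤˣ) × ℤˣ :=
  (((inX (φ.comp (rs φ' y₀))).comp (gx k)).prod (MonoidHom.id ℤˣ)).prod (MonoidHom.id ℤˣ)

theorem psiF_zz (k : X) : (psiF φ φ' y₀).comp (zz φ φ' y₀ k) = MonoidHom.id ℤˣ :=
  MonoidHom.ext fun u => (chiD_inX _ (gx k u)).trans (chiX_gx k u)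

/-- The homomorphism with value `a_k d c` at `-1`. -/
def TT {G : Type} [Group G] (gE : E φ φ' × ℤˣ →* G) (k : X) : ℤˣ →* G :=
  gE.comp (((gF φ φ' y₀).prodMap (MonoidHom.id ℤˣ)).comp (zz φ φ' y₀ k))

/-- Kill the second factor. -/
def killP (A : Type) [Group A] : A × ℤˣ →* A × ℤˣ := (MonoidHom.inl A ℤˣ).comp (MonoidHom.fst A ℤˣ)

/-- Kill the middle factor. -/
def killQ (A : Type) [Group A] : (A × ℤˣ) × ℤˣ →* (A × ℤˣ) × ℤˣ :=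
  ((MonoidHom.inl A ℤˣ).prodMap (MonoidHom.id ℤˣ)).comp
    ((MonoidHom.fst A ℤˣ).prodMap (MonoidHom.id ℤˣ))

/-- The factor of `{1, -1} * {1, -1}` to which the factor with index `k` is mapped. -/
noncomputable def fac (S : X → Prop) (k : X) : ℤˣ →* Monoid.Coprod ℤˣ ℤˣ := by
  classical exact if S k then Monoid.Coprod.inl else Monoid.Coprod.inr

theorem fac_pos {S : X → Prop} {k : X} (h : S k) : fac S k = Monoid.Coprod.inl := by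
  simp [fac, h]

theorem fac_neg {S : X → Prop} {k : X} (h : ¬ S k) : fac S k = Monoid.Coprod.inr := by
  simp [fac, h]

theorem chiH_fac (S : X → Prop) (k : X) (u : ℤˣ) : chiH (fac S k u) = u := by
  by_cases h : S k
  · rw [fac_pos h]
    simp [chiH]
  · rw [fac_neg h]
    simp [chiH]

variable {φ φ' y₀}
variable {S : X → Prop} (hS : ∀ b ∈ St φ' y₀, ∀ k, S (φ b k) ↔ S k)

include hS in
theorem fac_act (b : St φ' y₀) : (liftX (fac S)).comp (mv ((φ.comp (rs φ' y₀)) b)) =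
    liftX (fac S) := by
  apply Fx_ext
  intro k
  refine MonoidHom.ext fun u => ?_
  simp only [MonoidHom.comp_apply, mv_gx, liftX_gx]
  have h := hS b b.2 k
  by_cases h1 : S k
  · rw [fac_pos h1]
    change fac S (φ b k) u = _
    rw [fac_pos (h.2 h1)]
  · rw [fac_neg h1]
    change fac S (φ b k) u = _
    rw [fac_neg (fun h2 => h1 (h.1 h2))]

/-- The homomorphism from `UB` to the detecting group. -/
noncomputable def ups : UB φ φ' y₀ →* Monoid.Coprod ℤˣ ℤˣ :=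
  liftI (φ.comp (rs φ' y₀)) (liftX (fac S)) (fac_act hS)

theorem ups_gx (k : X) (u : ℤˣ) : ups hS (inX _ (gx k u)) = fac S k u :=
  (liftI_inX _ _ _ _).trans (liftX_gx _ _ _)

/-- The homomorphism to the detecting group. -/
noncomputable def Phi : (UB φ φ' y₀ × ℤˣ) × ℤˣ →* Monoid.Coprod ℤˣ ℤˣ × ℤˣ :=
  ((ups hS).comp ((MonoidHom.fst (UB φ φ' y₀) ℤˣ).comp (MonoidHom.fst (UB φ φ' y₀ × ℤˣ) ℤˣ))).prod
    (((MonoidHom.snd (UB φ φ' y₀) ℤˣ).comp (MonoidHom.fst (UB φ φ' y₀ × ℤˣ) ℤˣ)) *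
      (MonoidHom.snd (UB φ φ' y₀ × ℤˣ) ℤˣ))

theorem chiH_ups : chiH.comp (ups hS) = chiD (φ.comp (rs φ' y₀)) := by
  apply D_ext
  · apply Fx_ext
    intro k
    refine MonoidHom.ext fun u => ?_
    simp only [MonoidHom.comp_apply, ups_gx, chiH_fac, chiD_inX, chiX_gx]
  · refine MonoidHom.ext fun b => ?_
    simp only [MonoidHom.comp_apply, ups, liftI_inP, map_one, chiD_inP]

theorem psiH_Phi : psiH.comp (Phi hS) = psiF φ φ' y₀ := by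
  refine MonoidHom.ext fun y => ?_
  exact DFunLike.congr_fun (chiH_ups hS) y.1.1

theorem psiH_fac (S : X → Prop) (k : X) (v : ℤˣ →* ℤˣ) :
    psiH.comp ((fac S k).prod v) = MonoidHom.id ℤˣ :=
  MonoidHom.ext fun _ => chiH_fac S k _

theorem Phi_zz (k : X) : (Phi hS).comp (zz φ φ' y₀ k) = (fac S k).prod 1 := by
  refine MonoidHom.ext fun u => ?_
  change (ups hS (inX _ (gx k u)), u * u) = (fac S k u, 1)
  rw [ups_gx, Int.units_mul_self]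

theorem Phi_P (k : X) : (Phi hS).comp ((killP (UB φ φ' y₀ × ℤˣ)).comp (zz φ φ' y₀ k)) =
    (fac S k).prod (MonoidHom.id ℤˣ) := by
  refine MonoidHom.ext fun u => ?_
  change (ups hS (inX _ (gx k u)), u * 1) = (fac S k u, u)
  rw [ups_gx, mul_one]

theorem Phi_Q (k : X) : (Phi hS).comp ((killQ (UB φ φ' y₀)).comp (zz φ φ' y₀ k)) =
    (fac S k).prod (MonoidHom.id ℤˣ) := by
  refine MonoidHom.ext fun u => ?_
  change (ups hS (inX _ (gx k u)), 1 * u) = (fac S k u, u)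
  rw [ups_gx, one_mul]

theorem Phi_QP (k : X) :
    (Phi hS).comp ((killQ (UB φ φ' y₀)).comp ((killP (UB φ φ' y₀ × ℤˣ)).comp (zz φ φ' y₀ k))) =
      (fac S k).prod 1 := by
  refine MonoidHom.ext fun u => ?_
  change (ups hS (inX _ (gx k u)), (1 * 1 : ℤˣ)) = (fac S k u, 1)
  rw [ups_gx, one_mul]

theorem psiF_P : (psiF φ φ' y₀).comp (killP (UB φ φ' y₀ × ℤˣ)) = psiF φ φ' y₀ := rfl

theorem psiF_Q : (psiF φ φ' y₀).comp (killQ (UB φ φ' y₀)) = psiF φ φ' y₀ := rfl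

variable (Ω : PinTheory)

theorem detect₂ (ht : ∀ y, ∃ k, φ' k y₀ = y) (Z : Ω.obj (psiF φ φ' y₀)) (b : Ω.obj (psiU φ))
    (h : Ω.map ((bE φ φ').prodMap (MonoidHom.id ℤˣ)) (psiE_bE φ φ') b =
      Ω.map ((gF φ φ' y₀).prodMap (MonoidHom.id ℤˣ)) (psiE_gF φ φ' y₀) Z) :
    Ω.map (killQ (UB φ φ' y₀)) psiF_Q Z = Z := by
  have hi : Function.Injective ((aU φ φ' y₀).prodMap (MonoidHom.id ℤˣ)) := by
    rintro ⟨a, u⟩ ⟨b, v⟩ h
    have h1 : aU φ φ' y₀ a = aU φ φ' y₀ b := congrArg Prod.fst h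
    have h2 : u = v := congrArg Prod.snd h
    rw [aU_injective φ φ' y₀ h1, h2]
  exact red Ω (pushout_prod (pushout_E φ φ' y₀ ht) ℤˣ) hi
    ((MonoidHom.fst (UB φ φ' y₀) ℤˣ).prodMap
    (MonoidHom.id ℤˣ)) (MonoidHom.ext fun _ => rfl) (psiE_bE φ φ') (psiE_gF φ φ' y₀)
    (χC := (chiD (φ.comp (rs φ' y₀))).comp (MonoidHom.fst (UB φ φ' y₀) ℤˣ))
    (MonoidHom.ext fun x => DFunLike.congr_fun (chiD_mapD φ (rs φ' y₀)) x.1) rfl b Z h psiF_Q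

theorem detect₁ (ht : ∀ y, ∃ k, φ' k y₀ = y) {G : Type} [Group G] {fB : D φ × D φ' →* G}
    {gE : E φ φ' × ℤˣ →* G}
    (hp : Pushout (iE φ φ') (MonoidHom.inl (E φ φ') ℤˣ) fB gE) (χ : G →* ℤˣ)
    (hB : χ.comp fB = (chiD φ).comp (MonoidHom.fst (D φ) (D φ'))) (hE : χ.comp gE = psiE φ φ')
    (Z : Ω.obj (psiF φ φ' y₀)) (b₁ : Ω.obj ((chiD φ).comp (MonoidHom.fst (D φ) (D φ'))))
    (b : Ω.obj (psiU φ))
    (h : Ω.map fB hB b₁ + Ω.map gE hE (Ω.map ((bE φ φ').prodMap (MonoidHom.id ℤˣ))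
        (psiE_bE φ φ') b) +
      Ω.map gE hE (Ω.map ((gF φ φ' y₀).prodMap (MonoidHom.id ℤˣ)) (psiE_gF φ φ' y₀) Z) = 0) :
    Ω.map (killQ (UB φ φ' y₀)) psiF_Q (Z - Ω.map (killP (UB φ φ' y₀ × ℤˣ)) psiF_P Z) =
      Z - Ω.map (killP (UB φ φ' y₀ × ℤˣ)) psiF_P Z := by
  have hPE : (psiE φ φ').comp (killP (E φ φ')) = psiE φ φ' := rfl
  have hPU : (psiU φ).comp (killP (D φ)) = psiU φ := rfl
  set W := Ω.map ((bE φ φ').prodMap (MonoidHom.id ℤˣ)) (psiE_bE φ φ') b +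
    Ω.map ((gF φ φ' y₀).prodMap (MonoidHom.id ℤˣ)) (psiE_gF φ φ' y₀) Z with hW
  have h1 : Ω.map fB hB (-b₁) = Ω.map gE hE W := by
    rw [hW, map_add, map_neg]
    rw [add_assoc] at h
    exact neg_eq_of_add_eq_zero_right h
  have hE' : (psiE φ φ').comp (MonoidHom.inl (E φ φ') ℤˣ) = (chiD φ).comp (rE φ φ') := rfl
  have h2 : Ω.map (killP (E φ φ')) hPE W = W :=
    red Ω hp (iE_injective φ φ') (MonoidHom.fst (E φ φ') ℤˣ) (MonoidHom.ext fun _ => rfl) hB hE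
      (χC := (chiD φ).comp (rE φ φ')) rfl hE' (-b₁) W h1 hPE
  have h3 : Ω.map ((bE φ φ').prodMap (MonoidHom.id ℤˣ)) (psiE_bE φ φ')
      (Ω.map (killP (D φ)) hPU b - b) =
      Ω.map ((gF φ φ' y₀).prodMap (MonoidHom.id ℤˣ)) (psiE_gF φ φ' y₀)
        (Z - Ω.map (killP (UB φ φ' y₀ × ℤˣ)) psiF_P Z) := by
    have e1 := map_square Ω (killP (D φ)) ((bE φ φ').prodMap (MonoidHom.id ℤˣ))
      ((bE φ φ').prodMap (MonoidHom.id ℤˣ)) (killP (E φ φ')) hPU (psiE_bE φ φ') (psiE_bE φ φ')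
      hPE (MonoidHom.ext fun _ => rfl) b
    have e2 := map_square Ω (killP (UB φ φ' y₀ × ℤˣ)) ((gF φ φ' y₀).prodMap (MonoidHom.id ℤˣ))
      ((gF φ φ' y₀).prodMap (MonoidHom.id ℤˣ)) (killP (E φ φ')) psiF_P (psiE_gF φ φ' y₀)
      (psiE_gF φ φ' y₀) hPE (MonoidHom.ext fun _ => rfl) Z
    rw [map_sub, map_sub, e1, e2]
    rw [hW, map_add] at h2
    rw [sub_eq_sub_iff_add_eq_add, h2, add_comm]
  exact detect₂ Ω ht _ _ h3

include hS in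
theorem detect (ht : ∀ y, ∃ k, φ' k y₀ = y) {G : Type} [Group G] {fB : D φ × D φ' →* G}
    {gE : E φ φ' × ℤˣ →* G}
    (hp : Pushout (iE φ φ') (MonoidHom.inl (E φ φ') ℤˣ) fB gE) (χ : G →* ℤˣ)
    (hB : χ.comp fB = (chiD φ).comp (MonoidHom.fst (D φ) (D φ'))) (hE : χ.comp gE = psiE φ φ')
    (hT : ∀ k, χ.comp (TT φ φ' y₀ gE k) = MonoidHom.id ℤˣ) (N : X →₀ ℤ)
    (b₁ : Ω.obj ((chiD φ).comp (MonoidHom.fst (D φ) (D φ')))) (b : Ω.obj (psiU φ))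
    (h : Ω.map fB hB b₁ + Ω.map gE hE (Ω.map ((bE φ φ').prodMap (MonoidHom.id ℤˣ))
        (psiE_bE φ φ') b) +
      N.sum (fun k n => n • Ω.cls (TT φ φ' y₀ gE k) (hT k)) = 0)
    (n : ℤ) (hn : ∀ inst : DecidablePred S, n = N.sum (fun k m => if S k then m else 0)) :
    (4 : ℤ) ∣ n := by
  classical
  have hsum : Ω.map gE hE (Ω.map ((gF φ φ' y₀).prodMap (MonoidHom.id ℤˣ)) (psiE_gF φ φ' y₀)
      (N.sum fun k n => n • Ω.cls (zz φ φ' y₀ k) (psiF_zz φ φ' y₀ k))) =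
      N.sum (fun k n => n • Ω.cls (TT φ φ' y₀ gE k) (hT k)) := by
    rw [map_finsuppSum, map_finsuppSum]
    refine Finsupp.sum_congr fun k _ => ?_
    rw [map_zsmul, map_zsmul]
    congr 1
    have h1 : (psiE φ φ').comp (((gF φ φ' y₀).prodMap (MonoidHom.id ℤˣ)).comp (zz φ φ' y₀ k)) =
        MonoidHom.id ℤˣ := by
      rw [← MonoidHom.comp_assoc, psiE_gF, psiF_zz]
    rw [map_cls Ω _ _ _ _ h1, map_cls Ω _ _ _ _ (hT k)]
    rfl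
  rw [← hsum] at h
  have h1 := detect₁ Ω ht hp χ hB hE _ b₁ b h
  set Z := N.sum fun k n => n • Ω.cls (zz φ φ' y₀ k) (psiF_zz φ φ' y₀ k) with hZ
  have h2 : Ω.map (Phi hS) (psiH_Phi hS) (Z - Ω.map (killP (UB φ φ' y₀ × ℤˣ)) psiF_P Z -
      (Ω.map (killQ (UB φ φ' y₀)) psiF_Q Z -
        Ω.map (killQ (UB φ φ' y₀)) psiF_Q (Ω.map (killP (UB φ φ' y₀ × ℤˣ)) psiF_P Z))) = 0 := by
    rw [← map_sub (Ω.map (killQ (UB φ φ' y₀)) psiF_Q), h1, sub_self, map_zero]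
  have h3 : ∀ W : Ω.obj (psiF φ φ' y₀), Ω.map (Phi hS) (psiH_Phi hS)
      (W - Ω.map (killP (UB φ φ' y₀ × ℤˣ)) psiF_P W - (Ω.map (killQ (UB φ φ' y₀)) psiF_Q W -
        Ω.map (killQ (UB φ φ' y₀)) psiF_Q (Ω.map (killP (UB φ φ' y₀ × ℤˣ)) psiF_P W))) =
      (Ω.map (Phi hS) (psiH_Phi hS) - (Ω.map (Phi hS) (psiH_Phi hS)).comp
        (Ω.map (killP (UB φ φ' y₀ × ℤˣ)) psiF_P) - ((Ω.map (Phi hS) (psiH_Phi hS)).comp
        (Ω.map (killQ (UB φ φ' y₀)) psiF_Q) - (Ω.map (Phi hS) (psiH_Phi hS)).comp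
        ((Ω.map (killQ (UB φ φ' y₀)) psiF_Q).comp
          (Ω.map (killP (UB φ φ' y₀ × ℤˣ)) psiF_P)))) W := by
    intro W
    simp only [map_sub, AddMonoidHom.sub_apply, AddMonoidHom.comp_apply]
  rw [h3, hZ, map_finsuppSum] at h2
  have h4 : ∀ k (n : ℤ), (Ω.map (Phi hS) (psiH_Phi hS) - (Ω.map (Phi hS) (psiH_Phi hS)).comp
        (Ω.map (killP (UB φ φ' y₀ × ℤˣ)) psiF_P) - ((Ω.map (Phi hS) (psiH_Phi hS)).comp
        (Ω.map (killQ (UB φ φ' y₀)) psiF_Q) - (Ω.map (Phi hS) (psiH_Phi hS)).comp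
        ((Ω.map (killQ (UB φ φ' y₀)) psiF_Q).comp (Ω.map (killP (UB φ φ' y₀ × ℤˣ)) psiF_P))))
        (n • Ω.cls (zz φ φ' y₀ k) (psiF_zz φ φ' y₀ k)) =
      n • ((2 : ℤ) • dif Ω (fac S k) (psiH_fac S k 1) (psiH_fac S k (MonoidHom.id ℤˣ))) := by
    intro k n
    rw [map_zsmul]
    congr 1
    have hP : (psiF φ φ' y₀).comp ((killP (UB φ φ' y₀ × ℤˣ)).comp (zz φ φ' y₀ k)) =
        MonoidHom.id ℤˣ := by
      rw [← MonoidHom.comp_assoc, psiF_P, psiF_zz]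
    have hQ : (psiF φ φ' y₀).comp ((killQ (UB φ φ' y₀)).comp (zz φ φ' y₀ k)) =
        MonoidHom.id ℤˣ := by
      rw [← MonoidHom.comp_assoc, psiF_Q, psiF_zz]
    have hQP : (psiF φ φ' y₀).comp ((killQ (UB φ φ' y₀)).comp
        ((killP (UB φ φ' y₀ × ℤˣ)).comp (zz φ φ' y₀ k))) = MonoidHom.id ℤˣ := by
      rw [← MonoidHom.comp_assoc, psiF_Q, hP]
    have e1 : Ω.map (killP (UB φ φ' y₀ × ℤˣ)) psiF_P (Ω.cls (zz φ φ' y₀ k)
      (psiF_zz φ φ' y₀ k)) = Ω.cls _ hP := map_cls' Ω _ _ _ _ _ _ rfl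
    have e2 : Ω.map (killQ (UB φ φ' y₀)) psiF_Q (Ω.cls (zz φ φ' y₀ k)
      (psiF_zz φ φ' y₀ k)) = Ω.cls _ hQ := map_cls' Ω _ _ _ _ _ _ rfl
    have e3 : Ω.map (killQ (UB φ φ' y₀)) psiF_Q (Ω.cls _ hP) = Ω.cls _ hQP :=
      map_cls' Ω _ _ _ _ _ _ rfl
    have f1 : Ω.map (Phi hS) (psiH_Phi hS) (Ω.cls (zz φ φ' y₀ k) (psiF_zz φ φ' y₀ k)) =
      Ω.cls _ (psiH_fac S k 1) := map_cls' Ω _ _ _ _ _ _ (Phi_zz hS k)
    have f2 : Ω.map (Phi hS) (psiH_Phi hS) (Ω.cls _ hP) =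
      Ω.cls _ (psiH_fac S k (MonoidHom.id ℤˣ)) := map_cls' Ω _ _ _ _ _ _ (Phi_P hS k)
    have f3 : Ω.map (Phi hS) (psiH_Phi hS) (Ω.cls _ hQ) =
      Ω.cls _ (psiH_fac S k (MonoidHom.id ℤˣ)) := map_cls' Ω _ _ _ _ _ _ (Phi_Q hS k)
    have f4 : Ω.map (Phi hS) (psiH_Phi hS) (Ω.cls _ hQP) =
      Ω.cls _ (psiH_fac S k 1) := map_cls' Ω _ _ _ _ _ _ (Phi_QP hS k)
    simp only [AddMonoidHom.sub_apply, AddMonoidHom.comp_apply]
    rw [e1, e2, e3, f1, f2, f3, f4, dif, two_smul]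
    abel
  have h5 : N.sum (fun k n => n • ((2 : ℤ) • dif Ω (fac S k) (psiH_fac S k 1)
      (psiH_fac S k (MonoidHom.id ℤˣ)))) = 0 := by
    rw [← h2]
    exact Finsupp.sum_congr fun k _ => (h4 k _).symm
  have hl1 : (chiH.comp (MonoidHom.fst _ ℤˣ)).comp
      ((Monoid.Coprod.inl : ℤˣ →* Monoid.Coprod ℤˣ ℤˣ).prod 1) = MonoidHom.id ℤˣ :=
    MonoidHom.ext fun _ => by simp [chiH]
  have hl2 : (chiH.comp (MonoidHom.fst _ ℤˣ)).comp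
      ((Monoid.Coprod.inl : ℤˣ →* Monoid.Coprod ℤˣ ℤˣ).prod (MonoidHom.id ℤˣ)) =
      MonoidHom.id ℤˣ := MonoidHom.ext fun _ => by simp [chiH]
  have hr1 : (chiH.comp (MonoidHom.fst _ ℤˣ)).comp
      ((Monoid.Coprod.inr : ℤˣ →* Monoid.Coprod ℤˣ ℤˣ).prod 1) = MonoidHom.id ℤˣ :=
    MonoidHom.ext fun _ => by simp [chiH]
  have hr2 : (chiH.comp (MonoidHom.fst _ ℤˣ)).comp
      ((Monoid.Coprod.inr : ℤˣ →* Monoid.Coprod ℤˣ ℤˣ).prod (MonoidHom.id ℤˣ)) =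
      MonoidHom.id ℤˣ := MonoidHom.ext fun _ => by simp [chiH]
  have g1 : ∀ (k : X) (v : ℤˣ →* Monoid.Coprod ℤˣ ℤˣ) (_ : fac S k = v) (q1 q2),
      dif Ω (fac S k) (psiH_fac S k 1) (psiH_fac S k (MonoidHom.id ℤˣ)) = dif Ω v q1 q2 := by
    rintro k v rfl q1 q2
    rfl
  apply four_dvd Ω n (N.sum fun k m => if S k then 0 else m) hl1 hl2 hr1 hr2
  refine Eq.trans ?_ h5
  rw [hn inferInstance, Finsupp.sum, Finsupp.sum, Finsupp.sum, Finset.sum_smul, Finset.sum_smul,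
    ← Finset.sum_add_distrib]
  refine Finset.sum_congr rfl fun k _ => ?_
  by_cases hk : S k
  · rw [if_pos hk, if_pos hk, g1 k _ (fac_pos hk) hl1 hl2, zero_smul, add_zero]
    rfl
  · rw [if_neg hk, if_neg hk, g1 k _ (fac_neg hk) hr1 hr2, zero_smul, zero_add]
    rfl

end

end Pool.Agent.RG
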