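import Pool.Agent.RG.Code

/-!
# The moves preserve the bordism class
-/

namespace Pool.Agent.RG

open Pool.Agent.D4 Pool.Agent.FG

variable {g : ℕ}

/-- The homomorphism which is the identity on the generators. -/
def push (L L' : List (Word g)) (h : ∀ w ∈ L, el L' w = 1) : Pi1 L →* Pi1 L' :=
  PresentedGroup.toGroup (f := fun x => (PresentedGroup.of x : Pi1 L')) (by
    have e : FreeGroup.lift (fun x => (PresentedGroup.of x : Pi1 L')) =
        PresentedGroup.mk (rels L') := by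
      ext x
      rw [FreeGroup.lift_apply_of]
      rfl
    rw [e]
    rintro x (⟨i, rfl⟩ | ⟨w, hw, rfl⟩)
    · exact PresentedGroup.one_of_mem (Or.inl ⟨i, rfl⟩)
    · exact h w hw)

theorem push_of (L L' : List (Word g)) (h : ∀ w ∈ L, el L' w = 1) (x : Fin 4 ⊕ Fin g) :
    push L L' h (PresentedGroup.of x) = PresentedGroup.of x := PresentedGroup.toGroup.of _

theorem push_el (L L' : List (Word g)) (h : ∀ w ∈ L, el L' w = 1) (w : Word g) :
    push L L' h (el L w) = el L' w := by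
  have e : (push L L' h).comp (PresentedGroup.mk (rels L)) = PresentedGroup.mk (rels L') := by
    ext x
    exact push_of L L' h x
  exact DFunLike.congr_fun e (FreeGroup.mk w)

theorem el_mem {L : List (Word g)} {w : Word g} (h : w ∈ L) : el L w = 1 :=
  PresentedGroup.one_of_mem (Or.inr ⟨w, h, rfl⟩)

/-- The isomorphism which is the identity on the generators. -/
def pushEquiv (L L' : List (Word g)) (h : ∀ w ∈ L, el L' w = 1) (h' : ∀ w ∈ L', el L w = 1) :
    Pi1 L ≃* Pi1 L' :=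
  MonoidHom.toMulEquiv (push L L' h) (push L' L h')
    (PresentedGroup.ext fun x => by
      rw [MonoidHom.comp_apply, push_of, push_of]
      rfl)
    (PresentedGroup.ext fun x => by
      rw [MonoidHom.comp_apply, push_of, push_of]
      rfl)

theorem pushEquiv_toMonoidHom (L L' : List (Word g)) (h : ∀ w ∈ L, el L' w = 1)
    (h' : ∀ w ∈ L', el L w = 1) : (pushEquiv L L' h h').toMonoidHom = push L L' h := rfl

theorem ori_of (L : List (Word g)) (h : EvenLoops L) (x : Fin 4 ⊕ Fin g) :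
    ori L h (PresentedGroup.of x) = sgn g x := PresentedGroup.toGroup.of _

theorem ori_el (L : List (Word g)) (h : EvenLoops L) (w : Word g) :
    ori L h (el L w) = sign g (FreeGroup.mk w) := by
  have e : (ori L h).comp (PresentedGroup.mk (rels L)) = sign g := by
    ext x
    have h1 := ori_of L h x
    rw [sign, FreeGroup.lift_apply_of, ← h1]
    rfl
  exact DFunLike.congr_fun e (FreeGroup.mk w)

theorem ori_push (L L' : List (Word g)) (hL : EvenLoops L) (hL' : EvenLoops L')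
    (h : ∀ w ∈ L, el L' w = 1) : (ori L' hL').comp (push L L' h) = ori L hL :=
  PresentedGroup.ext fun x => by rw [MonoidHom.comp_apply, push_of, ori_of, ori_of]

theorem push_rp (L L' : List (Word g)) (h : ∀ w ∈ L, el L' w = 1) (i : Fin 4) :
    (push L L' h).comp (rp L i) = rp L' i := by
  apply hom_ext'
  rw [MonoidHom.comp_apply, rp_neg_one, rp_neg_one, push_of]

theorem map_bordismClass (Ω : PinTheory) (L L' : List (Word g)) (hL : EvenLoops L) (hL' : EvenLoops L')
    (h : ∀ w ∈ L, el L' w = 1) (k : ℕ) :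
    Ω.map (push L L' h) (ori_push L L' hL hL' h) (bordismClass Ω L hL k) =
      bordismClass Ω L' hL' k := by
  unfold bordismClass
  rw [map_add, map_sum, map_nsmul, map_k']
  congr 1
  refine Finset.sum_congr rfl fun i _ => ?_
  exact map_cls' Ω _ _ _ _ _ _ (push_rp L L' h i)

theorem sameClass_refl (Ω : PinTheory) {G : Type} [Group G] {χ : G →* ℤˣ} (a : Ω.obj χ) :
    SameClass Ω a a := by
  have h0 : χ.comp (MulEquiv.refl G).toMonoidHom = χ := MonoidHom.comp_id _
  have h2 : Ω.map (MulEquiv.refl G).toMonoidHom h0 a = a := Ω.functorial.map_id h0 a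
  refine ⟨MulEquiv.refl _, h0, 1, 1, ?_⟩
  rw [Ω.symmetric.twist_one, h2]
  simp

theorem units_smul_smul {A : Type} [AddCommGroup A] (s : ℤˣ) (a : A) :
    (s : ℤ) • ((s : ℤ) • a) = a := by
  rcases Int.units_eq_one_or s with rfl | rfl <;> simp

theorem twist_twist (Ω : PinTheory) {G : Type} [Group G] {χ : G →* ℤˣ} (ε : G →* ℤˣ)
    (a : Ω.obj χ) : Ω.twist χ ε (Ω.twist χ ε a) = a := by
  rw [← Ω.symmetric.twist_mul]
  have h : ε * ε = 1 := by
    ext x
    simp only [MonoidHom.mul_apply, MonoidHom.one_apply]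
    rcases Int.units_eq_one_or (ε x) with h | h <;> rw [h] <;> rfl
  rw [h, Ω.symmetric.twist_one]

theorem map_symm_map (Ω : PinTheory) {G H : Type} [Group G] [Group H] {χ : G →* ℤˣ}
    {ψ : H →* ℤˣ} (α : G ≃* H) (h : ψ.comp α.toMonoidHom = χ)
    (h' : χ.comp α.symm.toMonoidHom = ψ) (a : Ω.obj χ) :
    Ω.map α.symm.toMonoidHom h' (Ω.map α.toMonoidHom h a) = a := by
  have e : α.symm.toMonoidHom.comp α.toMonoidHom = MonoidHom.id G :=
    MonoidHom.ext fun x => α.symm_apply_apply x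
  rw [Ω.functorial.map_comp _ _ _ _ (by rw [e, MonoidHom.comp_id])]
  rw [Pool.Agent.FG.map_congr Ω e _ (MonoidHom.comp_id χ)]
  exact Ω.functorial.map_id _ a

theorem sameClass_symm (Ω : PinTheory) {G G' : Type} [Group G] [Group G'] {χ : G →* ℤˣ}
    {χ' : G' →* ℤˣ} {a : Ω.obj χ} {b : Ω.obj χ'} (h : SameClass Ω a b) : SameClass Ω b a := by
  obtain ⟨α, hα, ε, s, h3⟩ := h
  have h4 : χ.comp α.symm.toMonoidHom = χ' := by
    rw [← hα, MonoidHom.comp_assoc]
    have e : α.toMonoidHom.comp α.symm.toMonoidHom = MonoidHom.id _ :=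
      MonoidHom.ext fun x => α.apply_symm_apply x
    rw [e, MonoidHom.comp_id]
  refine ⟨α.symm, h4, ε.comp α.symm.toMonoidHom, s, ?_⟩
  rw [Ω.symmetric.map_twist, h3, map_zsmul, map_symm_map, map_zsmul, units_smul_smul, twist_twist]

theorem sameClass_trans (Ω : PinTheory) {G G' G'' : Type} [Group G] [Group G'] [Group G'']
    {χ : G →* ℤˣ} {χ' : G' →* ℤˣ} {χ'' : G'' →* ℤˣ} {a : Ω.obj χ} {b : Ω.obj χ'}
    {c : Ω.obj χ''} (h : SameClass Ω a b) (h' : SameClass Ω b c) : SameClass Ω a c := by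
  obtain ⟨α, hα, ε, s, h3⟩ := h
  obtain ⟨β, hβ, δ, t, h6⟩ := h'
  have h7 : χ''.comp (α.trans β).toMonoidHom = χ := by
    rw [← hα, ← hβ, MonoidHom.comp_assoc]
    rfl
  refine ⟨α.trans β, h7, δ.comp α.toMonoidHom * ε, t * s, ?_⟩
  have h8 := Ω.functorial.map_comp α.toMonoidHom β.toMonoidHom hα hβ h7
    (Ω.twist χ (δ.comp α.toMonoidHom * ε) a)
  have h9 : Ω.map (α.trans β).toMonoidHom h7 (Ω.twist χ (δ.comp α.toMonoidHom * ε) a) =
      Ω.map β.toMonoidHom hβ (Ω.map α.toMonoidHom hα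
      (Ω.twist χ (δ.comp α.toMonoidHom * ε) a)) := h8.symm
  rw [h9, Ω.symmetric.twist_mul, Ω.symmetric.map_twist, h6, h3, map_zsmul, map_zsmul, smul_smul,
    Units.val_mul]

theorem pinEquivalent_refl (Ω : PinTheory) (c : Code g) (h : EvenLoops c.1) :
    PinEquivalent Ω c c := ⟨h, h, sameClass_refl Ω _⟩

theorem pinEquivalent_symm (Ω : PinTheory) (c c' : Code g) (h : PinEquivalent Ω c c') :
    PinEquivalent Ω c' c := by
  obtain ⟨h1, h2, h3⟩ := h
  exact ⟨h2, h1, sameClass_symm Ω h3⟩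

theorem pinEquivalent_trans (Ω : PinTheory) (c c' c'' : Code g) (h : PinEquivalent Ω c c')
    (h' : PinEquivalent Ω c' c'') : PinEquivalent Ω c c'' := by
  obtain ⟨h1, h2, h3⟩ := h
  obtain ⟨h4, h5, h6⟩ := h'
  exact ⟨h1, h5, sameClass_trans Ω h3 h6⟩

theorem even_of_loop (L₁ L₂ : List (Word g)) (w w' : Word g)
    (h : el (L₁ ++ L₂) w = el (L₁ ++ L₂) w') (he : EvenLoops (L₁ ++ w :: L₂)) :
    EvenLoops (L₁ ++ w' :: L₂) := by
  have h1 : EvenLoops (L₁ ++ L₂) := fun x hx => he x (by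
    rcases List.mem_append.1 hx with h | h
    · exact List.mem_append.2 (Or.inl h)
    · exact List.mem_append.2 (Or.inr (List.mem_cons_of_mem _ h)))
  have h2 := congrArg (ori _ h1) h
  rw [ori_el, ori_el] at h2
  intro x hx
  rcases List.mem_append.1 hx with h3 | h3
  · exact he x (List.mem_append.2 (Or.inl h3))
  · rcases List.mem_cons.1 h3 with rfl | h4
    · rw [← h2]
      exact he w (by simp)
    · exact he x (List.mem_append.2 (Or.inr (List.mem_cons_of_mem _ h4)))

theorem loop_killed (L₁ L₂ : List (Word g)) (w w' : Word g)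
    (h : el (L₁ ++ L₂) w = el (L₁ ++ L₂) w') :
    ∀ x ∈ L₁ ++ w :: L₂, el (L₁ ++ w' :: L₂) x = 1 := by
  have h1 : ∀ x ∈ L₁ ++ L₂, el (L₁ ++ w' :: L₂) x = 1 := fun x hx => el_mem (by
    rcases List.mem_append.1 hx with h | h
    · exact List.mem_append.2 (Or.inl h)
    · exact List.mem_append.2 (Or.inr (List.mem_cons_of_mem _ h)))
  have h2 := congrArg (push _ _ h1) h
  rw [push_el, push_el] at h2
  intro x hx
  rcases List.mem_append.1 hx with h3 | h3
  · exact h1 x (List.mem_append.2 (Or.inl h3))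
  · rcases List.mem_cons.1 h3 with rfl | h4
    · rw [h2]
      exact el_mem (by simp)
    · exact h1 x (List.mem_append.2 (Or.inr h4))

theorem pinEquivalent_push (Ω : PinTheory) (L L' : List (Word g)) (hL : EvenLoops L) (hL' : EvenLoops L')
    (h : ∀ w ∈ L, el L' w = 1) (h' : ∀ w ∈ L', el L w = 1) (k s s' : ℕ) :
    PinEquivalent Ω (L, k, s) (L', k, s') := by
  refine ⟨hL, hL', pushEquiv L L' h h', ori_push L L' hL hL' h, 1, 1, ?_⟩
  rw [Ω.symmetric.twist_one]
  have h1 := map_bordismClass Ω L L' hL hL' h k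
  simp only [Units.val_one, one_smul]
  exact h1.symm

theorem mk_dword (i : Fin 3) (v : List (Fin g × Bool)) :
    FreeGroup.mk (dword i v) = FreeGroup.of (Sum.inl i.succ) *
      (FreeGroup.map Sum.inr (FreeGroup.mk v) * FreeGroup.of (Sum.inl 0) *
        (FreeGroup.map Sum.inr (FreeGroup.mk v))⁻¹) := by
  rw [FreeGroup.map.mk, FreeGroup.inv_mk]
  simp only [FreeGroup.of, FreeGroup.mul_mk]
  congr 1
  simp [dword, FreeGroup.invRev, List.map_map, Function.comp_def]

theorem cls_eq_of_dd (Ω : PinTheory) (L : List (Word g)) (hL : EvenLoops L)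
    (v : Fin 3 → List (Fin g × Bool)) (hd : ∀ w ∈ dd v, el L w = 1) (i : Fin 4) :
    Ω.cls (rp L i) (ori_rp L hL i) = Ω.cls (rp L 0) (ori_rp L hL 0) := by
  have h1 : ∀ j : Fin 3, el L (dword j (v j)) = 1 →
      Ω.cls (rp L j.succ) (ori_rp L hL j.succ) = Ω.cls (rp L 0) (ori_rp L hL 0) := by
    intro j hj
    have h2 := of_mul_of L j.succ
    rw [el, mk_dword, map_mul, map_mul, map_mul, map_inv] at hj
    symm
    apply cls_conj Ω _ _ _ _
      (PresentedGroup.mk (rels L) (FreeGroup.map Sum.inr (FreeGroup.mk (v j))))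
    rw [rp_neg_one, rp_neg_one]
    have h3 : (PresentedGroup.of (Sum.inl j.succ) : Pi1 L) *
        (PresentedGroup.mk (rels L) (FreeGroup.map Sum.inr (FreeGroup.mk (v j))) *
          PresentedGroup.of (Sum.inl 0) *
          (PresentedGroup.mk (rels L) (FreeGroup.map Sum.inr (FreeGroup.mk (v j))))⁻¹) = 1 := hj
    rw [← h2] at h3
    exact mul_left_cancel h3
  refine Fin.cases rfl (fun j => ?_) i
  apply h1
  apply hd
  fin_cases j <;> simp [dd]

theorem pinEquivalent_trade (Ω : PinTheory) (L : List (Word g)) (hL : EvenLoops L)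
    (v : Fin 3 → List (Fin g × Bool)) (hd : ∀ w ∈ dd v, el L w = 1) (s s' : ℕ) :
    PinEquivalent Ω (L, 1, s) (L, 0, s') := by
  have h0 : (ori L hL).comp (MulEquiv.refl (Pi1 L)).toMonoidHom = ori L hL :=
    MonoidHom.comp_id _
  have h2 : ∀ a, Ω.map (MulEquiv.refl (Pi1 L)).toMonoidHom h0 a = a :=
    fun a => Ω.functorial.map_id h0 a
  refine ⟨hL, hL, MulEquiv.refl _, h0, 1, -1, ?_⟩
  change bordismClass Ω L hL 0 = ((-1 : ℤˣ) : ℤ) •
    Ω.map (MulEquiv.refl (Pi1 L)).toMonoidHom h0 (Ω.twist (ori L hL) 1 (bordismClass Ω L hL 1))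
  rw [Ω.symmetric.twist_one, h2]
  unfold bordismClass
  have h3 := cls_eq_of_dd Ω L hL v hd
  have h4 := k_eq_cls Ω (rp L 0) (ori_rp L hL 0)
  have h5 := sixteen Ω (rp L 0) (ori_rp L hL 0)
  simp only [h3, Finset.sum_const, Finset.card_univ, Fintype.card_fin]
  rw [h4]
  generalize Ω.cls (rp L 0) (ori_rp L hL 0) = c at h5 ⊢
  have h6 : (16 : ℤ) • c = (4 : ℕ) • c + ((4 : ℕ) • c + (8 : ℤ) • c) := by
    rw [← natCast_zsmul, ← add_smul, ← add_smul]
    norm_num
  rw [h6] at h5
  simp only [zero_smul, add_zero, one_smul, Units.val_neg, Units.val_one, neg_smul]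
  exact eq_neg_of_add_eq_zero_left h5

theorem move_sound (Ω : PinTheory) (r : ℕ) {c c' : Code g} (h : Move r c c') :
    (EvenLoops c.1 ↔ EvenLoops c'.1) ∧ (EvenLoops c.1 → PinEquivalent Ω c c') := by
  cases h with
  | loop L₁ L₂ w w' k s h =>
    refine ⟨⟨even_of_loop L₁ L₂ w w' h, even_of_loop L₁ L₂ w' w h.symm⟩, fun he => ?_⟩
    exact pinEquivalent_push Ω _ _ he (even_of_loop L₁ L₂ w w' h he)
      (loop_killed L₁ L₂ w w' h) (loop_killed L₁ L₂ w' w h.symm) k s s
  | trade L v =>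
    refine ⟨Iff.rfl, fun he => ?_⟩
    exact pinEquivalent_trade Ω _ he v (fun w hw => el_mem (List.mem_append.2 (Or.inr hw))) _ _

theorem sound (Ω : PinTheory) (r : ℕ) {c c' : Code g} (h : Relation.EqvGen (Move r) c c') :
    (EvenLoops c.1 ↔ EvenLoops c'.1) ∧ (EvenLoops c.1 → PinEquivalent Ω c c') := by
  induction h with
  | rel x y h => exact move_sound Ω r h
  | refl x => exact ⟨Iff.rfl, pinEquivalent_refl Ω x⟩
  | symm x y _ ih => exact ⟨ih.1.symm, fun he => pinEquivalent_symm Ω _ _ (ih.2 (ih.1.2 he))⟩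
  | trans x y z _ _ ih1 ih2 =>
    exact ⟨ih1.1.trans ih2.1, fun he => pinEquivalent_trans Ω _ _ _ (ih1.2 he)
      (ih2.2 (ih1.1.1 he))⟩

theorem realizes (Ω : PinTheory) (g r : ℕ) :
    Realizes (g := g) Ω r id (PinEquivalent Ω) Exchange ∧
      Realizes (g := g) Ω r id (Relation.EqvGen (Move r)) Exchange :=
  ⟨⟨Computable.id, fun _ _ h hm => (sound Ω r hm).2 h, fun _ _ _ _ h => h, fun _ _ _ h => h⟩,
    ⟨Computable.id, fun _ _ _ h => h, fun _ _ h _ hm => (sound Ω r hm).2 h, fun _ _ _ h => h⟩⟩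

end Pool.Agent.RG
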