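import Pool.Agent.RG.Orbits
import Pool.Agent.RG.Sound

/-!
# The family of codes with the fixed fundamental group
-/

namespace Pool.Agent.RG

open Pool.Agent.D4 Pool.Agent.FG

variable {S : Type} {g : ℕ}

section words

variable (e : (S ⊕ S) ⊕ Fin 2 ≃ Fin g)

/-- The images of the generators: `a` is replaced by `a 0 * c⁻¹ * d⁻¹`. -/
def psiGen : Gn S → FreeGroup (Fin 4 ⊕ Fin g)
  | Sum.inl s => FreeGroup.of (Sum.inr (e (Sum.inl s)))
  | Sum.inr i => if i = 0 then
      FreeGroup.of (Sum.inl 0) * (FreeGroup.of (Sum.inr (e (Sum.inr 0))))⁻¹ *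
        (FreeGroup.of (Sum.inr (e (Sum.inr 1))))⁻¹
      else if i = 1 then FreeGroup.of (Sum.inr (e (Sum.inr 0)))
      else FreeGroup.of (Sum.inr (e (Sum.inr 1)))

/-- The substitution. -/
def psi : FreeGroup (Gn S) →* FreeGroup (Fin 4 ⊕ Fin g) := FreeGroup.lift (psiGen e)

theorem psi_ga : psi e ga = FreeGroup.of (Sum.inl 0) * (FreeGroup.of (Sum.inr (e (Sum.inr 0))))⁻¹ *
    (FreeGroup.of (Sum.inr (e (Sum.inr 1))))⁻¹ := by
  simp [psi, ga, psiGen]

theorem psi_gc : psi e gc = FreeGroup.of (Sum.inr (e (Sum.inr 0))) := by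
  simp [psi, gc, psiGen]

theorem psi_gd : psi e gd = FreeGroup.of (Sum.inr (e (Sum.inr 1))) := by
  simp [psi, gd, psiGen]

theorem psi_g1 (y : FreeGroup S) :
    psi e (g1 y) = FreeGroup.map (fun s => Sum.inr (e (Sum.inl (Sum.inl s)))) y := by
  have h : (psi e).comp g1 =
      (FreeGroup.map (fun s : S => (Sum.inr (e (Sum.inl (Sum.inl s))) : Fin 4 ⊕ Fin g))) := by
    ext s
    simp [psi, g1, psiGen]
  exact DFunLike.congr_fun h y

/-- The word of `(x a x⁻¹) d c`. -/
def tword (l : List (S × Bool)) : Word g :=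
  l.map (fun p => (Sum.inr (e (Sum.inl (Sum.inl p.1))), p.2)) ++
    ([(Sum.inl 0, true), (Sum.inr (e (Sum.inr 0)), false), (Sum.inr (e (Sum.inr 1)), false)] ++
      ((l.map (fun p => (Sum.inr (e (Sum.inl (Sum.inl p.1))), !p.2))).reverse ++
        [(Sum.inr (e (Sum.inr 1)), true), (Sum.inr (e (Sum.inr 0)), true)]))

theorem mk_tword (l : List (S × Bool)) :
    FreeGroup.mk (tword e l) = psi e (tel (FreeGroup.mk l)) := by
  rw [tel, map_mul, map_mul, map_mul, map_mul, map_inv, psi_g1, psi_ga, psi_gc, psi_gd,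
    FreeGroup.map.mk, FreeGroup.inv_mk]
  simp only [FreeGroup.of, FreeGroup.inv_mk, FreeGroup.mul_mk]
  congr 1
  simp [tword, FreeGroup.invRev, List.map_map, Function.comp_def]

theorem psi_tel_one : psi e (tel 1) = FreeGroup.of (Sum.inl 0) := by
  rw [tel, map_one, map_mul, map_mul, map_mul, map_mul, map_inv, map_one, psi_ga, psi_gc, psi_gd]
  group

/-- The word of `(a i)⁻¹ * (x a x⁻¹) d c`. -/
def lword (i : Fin 4) (l : List (S × Bool)) : Word g := (Sum.inl i, false) :: tword e l

theorem mk_lword (i : Fin 4) (l : List (S × Bool)) : FreeGroup.mk (lword e i l) =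
    (FreeGroup.of (Sum.inl i))⁻¹ * psi e (tel (FreeGroup.mk l)) := by
  rw [← mk_tword, FreeGroup.of, FreeGroup.inv_mk, FreeGroup.mul_mk]
  rfl

end words

section family

variable (Rl : Set (FreeGroup (Gn S))) (e : (S ⊕ S) ⊕ Fin 2 ≃ Fin g)

/-- A list of words representing exactly the relators. -/
def IsRelList (rl : List (Word g)) : Prop :=
  (∀ w ∈ rl, ∃ r ∈ Rl, FreeGroup.mk w = psi e r) ∧ ∀ r ∈ Rl, ∃ w ∈ rl, FreeGroup.mk w = psi e r

theorem exists_relList (h : Rl.Finite) : ∃ rl : List (Word g), IsRelList Rl e rl := by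
  classical
  refine ⟨h.toFinset.toList.map fun r => (psi e r).toWord, ?_, ?_⟩
  · intro w hw
    obtain ⟨r, hr, rfl⟩ := List.mem_map.1 hw
    exact ⟨r, by simpa using hr, FreeGroup.mk_toWord⟩
  · intro r hr
    exact ⟨_, List.mem_map.2 ⟨r, by simpa using hr, rfl⟩, FreeGroup.mk_toWord⟩

/-- The list of loops. -/
def fam (rl : List (Word g)) (v : Fin 4 → List (S × Bool)) : List (Word g) :=
  rl ++ [lword e 1 (v 1), lword e 2 (v 2), lword e 3 (v 3)]

theorem sub_fam (rl : List (Word g)) (v : Fin 4 → List (S × Bool)) :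
    ∀ w ∈ rl, w ∈ fam e rl v :=
  fun _ hw => List.mem_append.2 (Or.inl hw)

/-- The images of the generators in the amalgamated product. -/
def phiGen (v : Fin 4 → List (S × Bool)) : Fin 4 ⊕ Fin g → PresentedGroup Rl :=
  Sum.elim (fun i => PresentedGroup.mk Rl (tel (FreeGroup.mk (v i)))) fun j =>
    PresentedGroup.mk Rl (Sum.elim (fun s => FreeGroup.of (Sum.inl s))
      (fun i => if i = 0 then gc else gd) (e.symm j))

/-- The homomorphism to the amalgamated product. -/
def phi (v : Fin 4 → List (S × Bool)) : FreeGroup (Fin 4 ⊕ Fin g) →* PresentedGroup Rl :=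
  FreeGroup.lift (phiGen Rl e v)

theorem phi_inl (v : Fin 4 → List (S × Bool)) (i : Fin 4) :
    phi Rl e v (FreeGroup.of (Sum.inl i)) = PresentedGroup.mk Rl (tel (FreeGroup.mk (v i))) := by
  simp [phi, phiGen]

theorem phi_inr (v : Fin 4 → List (S × Bool)) (x : (S ⊕ S) ⊕ Fin 2) :
    phi Rl e v (FreeGroup.of (Sum.inr (e x))) = PresentedGroup.mk Rl
      (Sum.elim (fun s => FreeGroup.of (Sum.inl s)) (fun i => if i = 0 then gc else gd) x) := by
  simp [phi, phiGen]

theorem phi_psi (v : Fin 4 → List (S × Bool)) (hv : v 0 = []) (y : FreeGroup (Gn S)) :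
    phi Rl e v (psi e y) = PresentedGroup.mk Rl y := by
  have h : (phi Rl e v).comp (psi e) = PresentedGroup.mk Rl := by
    apply FreeGroup.ext_hom
    intro x
    rw [MonoidHom.comp_apply]
    rcases x with s | i
    · have h1 : psi e (FreeGroup.of (Sum.inl s)) = FreeGroup.of (Sum.inr (e (Sum.inl s))) := by
        simp [psi, psiGen]
      rw [h1, phi_inr]
      rfl
    · fin_cases i
      · change phi Rl e v (psi e ga) = PresentedGroup.mk Rl ga
        rw [psi_ga, map_mul, map_mul, map_inv, map_inv, phi_inl, phi_inr, phi_inr, hv]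
        simp only [Sum.elim_inr, if_true, one_ne_zero, if_false]
        rw [← map_inv, ← map_inv, ← map_mul, ← map_mul]
        congr 1
        rw [tel, ← FreeGroup.one_eq_mk, map_one]
        group
      · change phi Rl e v (psi e gc) = PresentedGroup.mk Rl gc
        rw [psi_gc, phi_inr]
        simp
      · change phi Rl e v (psi e gd) = PresentedGroup.mk Rl gd
        rw [psi_gd, phi_inr]
        simp
  exact DFunLike.congr_fun h y

variable {rl : List (Word g)} (hrl : IsRelList Rl e rl)

include hrl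

theorem phi_fam (v : Fin 4 → List (S × Bool)) (hv : v 0 = []) :
    ∀ w ∈ fam e rl v, phi Rl e v (FreeGroup.mk w) = 1 := by
  have h1 : ∀ i, phi Rl e v (FreeGroup.mk (lword e i (v i))) = 1 := by
    intro i
    rw [mk_lword, map_mul, map_inv, phi_psi Rl e v hv, phi_inl, inv_mul_cancel]
  intro w hw
  rcases List.mem_append.1 hw with h | h
  · obtain ⟨r, hr, h2⟩ := hrl.1 w h
    rw [h2, phi_psi Rl e v hv]
    exact PresentedGroup.one_of_mem hr
  · simp only [List.mem_cons, List.not_mem_nil, or_false] at h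
    rcases h with rfl | rfl | rfl
    · exact h1 1
    · exact h1 2
    · exact h1 3

theorem phi_rels (v : Fin 4 → List (S × Bool)) (hv : v 0 = [])
    (hs : ∀ i, PresentedGroup.mk Rl (tel (FreeGroup.mk (v i))) *
      PresentedGroup.mk Rl (tel (FreeGroup.mk (v i))) = 1) :
    ∀ x ∈ rels (fam e rl v), FreeGroup.lift (phiGen Rl e v) x = 1 := by
  rintro x (⟨i, rfl⟩ | ⟨w, hw, rfl⟩)
  · change phi Rl e v (FreeGroup.of (Sum.inl i) * FreeGroup.of (Sum.inl i)) = 1
    rw [map_mul, phi_inl]
    exact hs i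
  · exact phi_fam Rl e hrl v hv w hw

/-- The homomorphism from the fundamental group. -/
def fwd (v : Fin 4 → List (S × Bool)) (hv : v 0 = [])
    (hs : ∀ i, PresentedGroup.mk Rl (tel (FreeGroup.mk (v i))) *
      PresentedGroup.mk Rl (tel (FreeGroup.mk (v i))) = 1) :
    Pi1 (fam e rl v) →* PresentedGroup Rl :=
  PresentedGroup.toGroup (phi_rels Rl e hrl v hv hs)

theorem fwd_mk (v : Fin 4 → List (S × Bool)) (hv : v 0 = [])
    (hs : ∀ i, PresentedGroup.mk Rl (tel (FreeGroup.mk (v i))) *
      PresentedGroup.mk Rl (tel (FreeGroup.mk (v i))) = 1) (y : FreeGroup (Fin 4 ⊕ Fin g)) :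
    fwd Rl e hrl v hv hs (PresentedGroup.mk _ y) = phi Rl e v y := by
  have h : (fwd Rl e hrl v hv hs).comp (PresentedGroup.mk _) = phi Rl e v := by
    apply FreeGroup.ext_hom
    intro x
    rw [MonoidHom.comp_apply, phi, FreeGroup.lift_apply_of]
    exact PresentedGroup.toGroup.of _
  exact DFunLike.congr_fun h y

/-- A homomorphism from the amalgamated product if the loops contain the list. -/
def bwd (L : List (Word g)) (hL : ∀ w ∈ rl, w ∈ L) : PresentedGroup Rl →* Pi1 L :=
  PresentedGroup.toGroup (f := fun x => PresentedGroup.mk (rels L) (psiGen e x)) (by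
    have h1 : FreeGroup.lift (fun x => PresentedGroup.mk (rels L) (psiGen e x)) =
        (PresentedGroup.mk (rels L)).comp (psi e) := by
      apply FreeGroup.ext_hom
      intro x
      rw [FreeGroup.lift_apply_of, MonoidHom.comp_apply, psi, FreeGroup.lift_apply_of]
    rw [h1]
    intro r hr
    obtain ⟨w, hw, h2⟩ := hrl.2 r hr
    rw [MonoidHom.comp_apply, ← h2]
    exact PresentedGroup.one_of_mem (Or.inr ⟨w, hL w hw, rfl⟩))

theorem bwd_mk (L : List (Word g)) (hL : ∀ w ∈ rl, w ∈ L) (y : FreeGroup (Gn S)) :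
    bwd Rl e hrl L hL (PresentedGroup.mk Rl y) = PresentedGroup.mk (rels L) (psi e y) := by
  have h : (bwd Rl e hrl L hL).comp (PresentedGroup.mk Rl) =
      (PresentedGroup.mk (rels L)).comp (psi e) := by
    apply FreeGroup.ext_hom
    intro x
    rw [MonoidHom.comp_apply, MonoidHom.comp_apply, psi, FreeGroup.lift_apply_of]
    exact PresentedGroup.toGroup.of _
  exact DFunLike.congr_fun h y

/-- The isomorphism. -/
def iso (v : Fin 4 → List (S × Bool)) (hv : v 0 = [])
    (hs : ∀ i, PresentedGroup.mk Rl (tel (FreeGroup.mk (v i))) *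
      PresentedGroup.mk Rl (tel (FreeGroup.mk (v i))) = 1) :
    Pi1 (fam e rl v) ≃* PresentedGroup Rl :=
  MonoidHom.toMulEquiv (fwd Rl e hrl v hv hs) (bwd Rl e hrl _ (sub_fam e rl v))
    (by
      apply PresentedGroup.ext
      intro x
      change bwd Rl e hrl _ (sub_fam e rl v)
        (fwd Rl e hrl v hv hs (PresentedGroup.mk _ (FreeGroup.of x))) =
        PresentedGroup.mk _ (FreeGroup.of x)
      rw [fwd_mk]
      rcases x with i | j
      · rw [phi_inl, bwd_mk]
        have h1 : ∀ i, lword e i (v i) ∈ fam e rl v →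
            PresentedGroup.mk (rels (fam e rl v)) (psi e (tel (FreeGroup.mk (v i)))) =
              PresentedGroup.mk (rels (fam e rl v)) (FreeGroup.of (Sum.inl i)) := by
          intro i hi
          have h2 := el_mem hi
          rw [el, mk_lword, map_mul, map_inv, inv_mul_eq_one] at h2
          exact h2.symm
        fin_cases i
        · change PresentedGroup.mk (rels (fam e rl v)) (psi e (tel (FreeGroup.mk (v 0)))) = _
          rw [hv, ← FreeGroup.one_eq_mk, psi_tel_one]
          rfl
        · exact h1 1 (by simp [fam])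
        · exact h1 2 (by simp [fam])
        · exact h1 3 (by simp [fam])
      · obtain ⟨x, rfl⟩ := e.surjective j
        rw [phi_inr, bwd_mk]
        congr 1
        rcases x with s | i
        · simp [psi, psiGen]
        · fin_cases i
          · exact psi_gc e
          · exact psi_gd e)
    (by
      apply PresentedGroup.ext
      intro x
      change fwd Rl e hrl v hv hs (bwd Rl e hrl _ (sub_fam e rl v)
        (PresentedGroup.mk _ (FreeGroup.of x))) = PresentedGroup.mk _ (FreeGroup.of x)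
      rw [bwd_mk, fwd_mk, phi_psi Rl e v hv])

omit hrl in
theorem chi_phi (v : Fin 4 → List (S × Bool)) (χ : PresentedGroup Rl →* ℤˣ)
    (h1 : ∀ s, χ (PresentedGroup.mk Rl (FreeGroup.of (Sum.inl s))) = 1)
    (h2 : χ (PresentedGroup.mk Rl gc) = 1) (h3 : χ (PresentedGroup.mk Rl gd) = 1)
    (h4 : ∀ i, χ (PresentedGroup.mk Rl (tel (FreeGroup.mk (v i)))) = -1)
    (y : FreeGroup (Fin 4 ⊕ Fin g)) : χ (phi Rl e v y) = sign g y := by
  have h : χ.comp (phi Rl e v) = sign g := by
    apply FreeGroup.ext_hom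
    intro x
    rw [MonoidHom.comp_apply]
    rcases x with i | j
    · rw [phi_inl, h4]
      simp [sign, sgn]
    · obtain ⟨x, rfl⟩ := e.surjective j
      rw [phi_inr]
      have h5 : sign g (FreeGroup.of (Sum.inr (e x))) = 1 := by simp [sign, sgn]
      rw [h5]
      rcases x with s | i
      · exact h1 s
      · fin_cases i
        · exact h2
        · exact h3
  exact DFunLike.congr_fun h y

end family

end Pool.Agent.RG
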