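import Pool.Agent.FG.Equiv

/-!
# Free products of groups of order two with a permutation action

For an action `φ` of `P` on `X`, `D φ` is the semidirect product of the free product of copies of
`{1, -1}` indexed by `X` and `P`. If `φ` is transitive with stabilizer `C` of `x₀`, it is the
amalgamated product of `P` and `C × {1, -1}` over `C`.
-/

namespace Pool.Agent.RG

open Pool.Agent.D4 Pool.Agent.FG

/-- The free product of copies of `{1, -1}` indexed by `X`. -/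
abbrev Fx (X : Type) : Type := Monoid.CoprodI (fun _ : X => ℤˣ)

section free

variable {X : Type}

/-- The factor with index `x`. -/
def gx (x : X) : ℤˣ →* Fx X := Monoid.CoprodI.of (M := fun _ : X => ℤˣ) (i := x)

theorem Fx_ext {H : Type} [Group H] {f g : Fx X →* H} (h : ∀ x, f.comp (gx x) = g.comp (gx x)) :
    f = g := Monoid.CoprodI.ext_hom _ _ h

/-- The homomorphism given on the factors. -/
def liftX {H : Type} [Group H] (f : X → ℤˣ →* H) : Fx X →* H := Monoid.CoprodI.lift f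

theorem liftX_gx {H : Type} [Group H] (f : X → ℤˣ →* H) (x : X) (u : ℤˣ) :
    liftX f (gx x u) = f x u := Monoid.CoprodI.lift_of _ _

/-- Permutation of the index. -/
def mv (σ : Equiv.Perm X) : Fx X →* Fx X := liftX fun x => gx (σ x)

theorem mv_gx (σ : Equiv.Perm X) (x : X) (u : ℤˣ) : mv σ (gx x u) = gx (σ x) u := liftX_gx _ _ _

theorem mv_one : mv (1 : Equiv.Perm X) = MonoidHom.id (Fx X) := by
  apply Fx_ext
  intro x
  ext u
  simp [mv_gx]

theorem mv_mul (σ τ : Equiv.Perm X) : mv (σ * τ) = (mv σ).comp (mv τ) := by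
  apply Fx_ext
  intro x
  refine MonoidHom.ext fun u => ?_
  simp only [MonoidHom.comp_apply, mv_gx, Equiv.Perm.mul_apply]

/-- The action of the permutations. -/
def ac (X : Type) : Equiv.Perm X →* MulAut (Fx X) where
  toFun σ := MonoidHom.toMulEquiv (mv σ) (mv σ⁻¹)
    (by rw [← mv_mul, inv_mul_cancel, mv_one]) (by rw [← mv_mul, mul_inv_cancel, mv_one])
  map_one' := by
    apply MulEquiv.ext
    intro x
    exact DFunLike.congr_fun mv_one x
  map_mul' σ τ := by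
    apply MulEquiv.ext
    intro x
    exact DFunLike.congr_fun (mv_mul σ τ) x

theorem ac_apply (σ : Equiv.Perm X) (x : Fx X) : ac X σ x = mv σ x := rfl

end free

section semi

variable {X P : Type} [Group P]

/-- The semidirect product of `Fx X` and `P`. -/
abbrev D (φ : P →* Equiv.Perm X) : Type := Fx X ⋊[(ac X).comp φ] P

/-- The inclusion of `Fx X`. -/
def inX (φ : P →* Equiv.Perm X) : Fx X →* D φ := SemidirectProduct.inl

/-- The inclusion of `P`. -/
def inP (φ : P →* Equiv.Perm X) : P →* D φ := SemidirectProduct.inr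

/-- The projection to `P`. -/
def toP (φ : P →* Equiv.Perm X) : D φ →* P := SemidirectProduct.rightHom

theorem toP_inP (φ : P →* Equiv.Perm X) (p : P) : toP φ (inP φ p) = p :=
  SemidirectProduct.rightHom_inr _

theorem toP_inX (φ : P →* Equiv.Perm X) (f : Fx X) : toP φ (inX φ f) = 1 :=
  SemidirectProduct.rightHom_inl _

theorem inX_injective (φ : P →* Equiv.Perm X) : Function.Injective (inX φ) :=
  SemidirectProduct.inl_injective

theorem inP_injective (φ : P →* Equiv.Perm X) : Function.Injective (inP φ) :=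
  SemidirectProduct.inr_injective

theorem inP_mul_inX (φ : P →* Equiv.Perm X) (p : P) (f : Fx X) :
    inP φ p * inX φ f * (inP φ p)⁻¹ = inX φ (mv (φ p) f) := by
  have h := SemidirectProduct.inl_aut (φ := (ac X).comp φ) p f
  rw [inP, inX, ← map_inv, h.symm]
  rfl

theorem eq_mul (φ : P →* Equiv.Perm X) (x : D φ) : x = inX φ x.left * inP φ x.right :=
  (SemidirectProduct.inl_left_mul_inr_right x).symm

theorem D_ext {H : Type} [Group H] (φ : P →* Equiv.Perm X) {f g : D φ →* H}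
    (h1 : f.comp (inX φ) = g.comp (inX φ)) (h2 : f.comp (inP φ) = g.comp (inP φ)) : f = g :=
  SemidirectProduct.hom_ext h1 h2

/-- Homomorphisms agreeing on `P` and on the factor with index `x₀` agree, if `φ` is
transitive. -/
theorem D_ext' {H : Type} [Group H] (φ : P →* Equiv.Perm X) (x₀ : X)
    (ht : ∀ x, ∃ p, φ p x₀ = x) {f g : D φ →* H}
    (h1 : ∀ p, f (inP φ p) = g (inP φ p)) (h2 : ∀ u, f (inX φ (gx x₀ u)) = g (inX φ (gx x₀ u))) :
    f = g := by
  apply D_ext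
  · apply Fx_ext
    intro x
    refine MonoidHom.ext fun u => ?_
    obtain ⟨p, rfl⟩ := ht x
    have h3 : inX φ (gx (φ p x₀) u) = inP φ p * inX φ (gx x₀ u) * (inP φ p)⁻¹ := by
      rw [inP_mul_inX, mv_gx]
    simp only [MonoidHom.comp_apply, h3, map_mul, map_inv, h1, h2]
  · exact MonoidHom.ext h1

/-- The homomorphism on `Fx X` given by conjugates of `s`. -/
noncomputable def cX {H : Type} [Group H] (φ : P →* Equiv.Perm X) (x₀ : X)
    (ht : ∀ x, ∃ p, φ p x₀ = x) (κ : P →* H) (s : ℤˣ →* H) : Fx X →* H :=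
  liftX fun x => (MulAut.conj (κ (ht x).choose)).toMonoidHom.comp s

theorem cX_gx {H : Type} [Group H] (φ : P →* Equiv.Perm X) (x₀ : X)
    (ht : ∀ x, ∃ p, φ p x₀ = x) (κ : P →* H) (s : ℤˣ →* H)
    (hs : ∀ p, φ p x₀ = x₀ → ∀ u, Commute (κ p) (s u)) (p : P) (u : ℤˣ) :
    cX φ x₀ ht κ s (gx (φ p x₀) u) = κ p * s u * (κ p)⁻¹ := by
  have h1 : cX φ x₀ ht κ s (gx (φ p x₀) u) =
      κ (ht (φ p x₀)).choose * s u * (κ (ht (φ p x₀)).choose)⁻¹ := liftX_gx _ _ _
  rw [h1]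
  have e1 := (ht (φ p x₀)).choose_spec
  have h2 : φ (p⁻¹ * (ht (φ p x₀)).choose) x₀ = x₀ := by
    rw [map_mul, map_inv, Equiv.Perm.mul_apply, e1, Equiv.Perm.inv_eq_iff_eq]
  have h3 := (hs _ h2 u).eq
  simp only [map_mul, map_inv] at h3
  generalize κ (ht (φ p x₀)).choose = a at h3 ⊢
  calc a * s u * a⁻¹ = κ p * ((κ p)⁻¹ * a * s u) * a⁻¹ := by group
    _ = κ p * (s u * ((κ p)⁻¹ * a)) * a⁻¹ := by rw [h3]
    _ = κ p * s u * (κ p)⁻¹ := by group

theorem cX_compat {H : Type} [Group H] (φ : P →* Equiv.Perm X) (x₀ : X)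
    (ht : ∀ x, ∃ p, φ p x₀ = x) (κ : P →* H) (s : ℤˣ →* H)
    (hs : ∀ p, φ p x₀ = x₀ → ∀ u, Commute (κ p) (s u)) (p : P) :
    (cX φ x₀ ht κ s).comp (((ac X).comp φ) p).toMonoidHom =
      (MulAut.conj (κ p)).toMonoidHom.comp (cX φ x₀ ht κ s) := by
  apply Fx_ext
  intro x
  refine MonoidHom.ext fun u => ?_
  obtain ⟨q, rfl⟩ := ht x
  have h1 : ((cX φ x₀ ht κ s).comp (((ac X).comp φ) p).toMonoidHom) (gx (φ q x₀) u) =
      cX φ x₀ ht κ s (gx (φ (p * q) x₀) u) := by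
    rw [map_mul, Equiv.Perm.mul_apply, ← mv_gx]
    rfl
  have h2 : ((MulAut.conj (κ p)).toMonoidHom.comp (cX φ x₀ ht κ s)) (gx (φ q x₀) u) =
      κ p * cX φ x₀ ht κ s (gx (φ q x₀) u) * (κ p)⁻¹ := rfl
  refine (h1.trans ?_).trans h2.symm
  rw [cX_gx φ x₀ ht κ s hs, cX_gx φ x₀ ht κ s hs, map_mul]
  group

/-- The homomorphism from `D φ` given by homomorphisms on `P` and `{1, -1}`, the stabilizer of `x₀`
being mapped to the centralizer. -/
noncomputable def liftD {H : Type} [Group H] (φ : P →* Equiv.Perm X) (x₀ : X)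
    (ht : ∀ x, ∃ p, φ p x₀ = x) (κ : P →* H) (s : ℤˣ →* H)
    (hs : ∀ p, φ p x₀ = x₀ → ∀ u, Commute (κ p) (s u)) : D φ →* H :=
  SemidirectProduct.lift (cX φ x₀ ht κ s) κ (cX_compat φ x₀ ht κ s hs)

theorem liftD_inP {H : Type} [Group H] (φ : P →* Equiv.Perm X) (x₀ : X)
    (ht : ∀ x, ∃ p, φ p x₀ = x) (κ : P →* H) (s : ℤˣ →* H)
    (hs : ∀ p, φ p x₀ = x₀ → ∀ u, Commute (κ p) (s u)) (p : P) :
    liftD φ x₀ ht κ s hs (inP φ p) = κ p := SemidirectProduct.lift_inr _ _ _ _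

theorem liftD_inX {H : Type} [Group H] (φ : P →* Equiv.Perm X) (x₀ : X)
    (ht : ∀ x, ∃ p, φ p x₀ = x) (κ : P →* H) (s : ℤˣ →* H)
    (hs : ∀ p, φ p x₀ = x₀ → ∀ u, Commute (κ p) (s u)) (p : P) (u : ℤˣ) :
    liftD φ x₀ ht κ s hs (inX φ (gx (φ p x₀) u)) = κ p * s u * (κ p)⁻¹ :=
  (SemidirectProduct.lift_inl _ _ _ _).trans (cX_gx φ x₀ ht κ s hs p u)

theorem liftD_inX' {H : Type} [Group H] (φ : P →* Equiv.Perm X) (x₀ : X)
    (ht : ∀ x, ∃ p, φ p x₀ = x) (κ : P →* H) (s : ℤˣ →* H)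
    (hs : ∀ p, φ p x₀ = x₀ → ∀ u, Commute (κ p) (s u)) (u : ℤˣ) :
    liftD φ x₀ ht κ s hs (inX φ (gx x₀ u)) = s u := by
  have h := liftD_inX φ x₀ ht κ s hs 1 u
  simpa using h

variable {C : Type} [Group C]

theorem commute_stab (φ : P →* Equiv.Perm X) {x₀ : X} {p : P} (hp : φ p x₀ = x₀) (u : ℤˣ) :
    Commute (inP φ p) (inX φ (gx x₀ u)) := by
  have h := inP_mul_inX φ p (gx x₀ u)
  rw [mv_gx, hp] at h
  exact mul_inv_eq_iff_eq_mul.1 h

/-- The map `(c, u) ↦ ι c * (x₀, u)`. -/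
def gD (φ : P →* Equiv.Perm X) (x₀ : X) (ι : C →* P) (hι : ∀ c, φ (ι c) x₀ = x₀) :
    C × ℤˣ →* D φ :=
  MonoidHom.noncommCoprod ((inP φ).comp ι) ((inX φ).comp (gx x₀))
    fun c u => commute_stab φ (hι c) u

theorem gD_apply (φ : P →* Equiv.Perm X) (x₀ : X) (ι : C →* P) (hι : ∀ c, φ (ι c) x₀ = x₀)
    (c : C) (u : ℤˣ) : gD φ x₀ ι hι (c, u) = inP φ (ι c) * inX φ (gx x₀ u) := rfl

theorem pushout_D (φ : P →* Equiv.Perm X) (x₀ : X) (ht : ∀ x, ∃ p, φ p x₀ = x) (ι : C →* P)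
    (hι : ∀ c, φ (ι c) x₀ = x₀) (hι' : ∀ p, φ p x₀ = x₀ → ∃ c, ι c = p) :
    Pushout ι (MonoidHom.inl C ℤˣ) (inP φ) (gD φ x₀ ι hι) where
  comm := by
    refine MonoidHom.ext fun c => ?_
    simp only [MonoidHom.comp_apply, MonoidHom.inl_apply, gD_apply, map_one, mul_one]
  desc H _ a b hab := by
    have hab' : ∀ c, a (ι c) = b (c, 1) := fun c => DFunLike.congr_fun hab c
    have hs : ∀ p, φ p x₀ = x₀ → ∀ u, Commute (a p) ((b.comp (MonoidHom.inr C ℤˣ)) u) := by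
      intro p hp u
      obtain ⟨c, rfl⟩ := hι' p hp
      change a (ι c) * b (1, u) = b (1, u) * a (ι c)
      rw [hab' c, ← map_mul, ← map_mul]
      simp
    refine ⟨liftD φ x₀ ht a (b.comp (MonoidHom.inr C ℤˣ)) hs, ⟨?_, ?_⟩, ?_⟩
    · exact MonoidHom.ext fun p => liftD_inP _ _ _ _ _ hs _
    · refine MonoidHom.ext fun x => ?_
      obtain ⟨c, u⟩ := x
      rw [MonoidHom.comp_apply, gD_apply, map_mul, liftD_inP _ _ _ _ _ hs, liftD_inX' _ _ _ _ _ hs,
        hab']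
      change b (c, 1) * b (1, u) = b (c, u)
      rw [← map_mul]
      simp
    · rintro c ⟨hc1, hc2⟩
      apply D_ext' φ x₀ ht
      · intro p
        rw [← MonoidHom.comp_apply, hc1, liftD_inP _ _ _ _ _ hs]
      · intro u
        rw [liftD_inX' _ _ _ _ _ hs]
        have h3 : inX φ (gx x₀ u) = gD φ x₀ ι hι (1, u) := by
          rw [gD_apply, map_one, map_one, one_mul]
        rw [h3, ← MonoidHom.comp_apply, hc2]
        rfl

end semi

end Pool.Agent.RG
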