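import Pool.Agent.RG.Free

/-!
# The groups `U`, `E` and elements of order two

For actions `φ` of `K` on `X` and `φ'` of `K` on `Y`, with base point `y₀` of `Y`, `D φ` and `D φ'`
are the semidirect products, `UB` is the preimage in `D φ` of the stabilizer of `y₀`, and `E` is
the fibre product of `D φ` and `D φ'` over `K`.
-/

namespace Pool.Agent.RG

open Pool.Agent.D4 Pool.Agent.FG

section stab

variable {X P : Type} [Group P]

/-- The stabilizer of `x₀`. -/
def St (φ : P →* Equiv.Perm X) (x₀ : X) : Subgroup P where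
  carrier := {p | φ p x₀ = x₀}
  one_mem' := by
    change φ 1 x₀ = x₀
    rw [map_one]
    rfl
  mul_mem' := by
    intro a b ha hb
    change φ (a * b) x₀ = x₀
    rw [map_mul, Equiv.Perm.mul_apply]
    have h1 : φ b x₀ = x₀ := hb
    rw [h1]
    exact ha
  inv_mem' := by
    intro a ha
    change φ a⁻¹ x₀ = x₀
    rw [map_inv, Equiv.Perm.inv_eq_iff_eq]
    exact Eq.symm ha

theorem mem_St (φ : P →* Equiv.Perm X) (x₀ : X) (p : P) : p ∈ St φ x₀ ↔ φ p x₀ = x₀ := Iff.rfl

/-- The homomorphism of semidirect products given by `ι`. -/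
def mapD {B : Type} [Group B] (φ : P →* Equiv.Perm X) (ι : B →* P) : D (φ.comp ι) →* D φ :=
  SemidirectProduct.map (MonoidHom.id (Fx X)) ι fun _ => rfl

theorem mapD_inX {B : Type} [Group B] (φ : P →* Equiv.Perm X) (ι : B →* P) (f : Fx X) :
    mapD φ ι (inX _ f) = inX φ f := SemidirectProduct.map_inl _ _ _ _

theorem mapD_inP {B : Type} [Group B] (φ : P →* Equiv.Perm X) (ι : B →* P) (b : B) :
    mapD φ ι (inP _ b) = inP φ (ι b) := SemidirectProduct.map_inr _ _ _ _

theorem toP_mapD {B : Type} [Group B] (φ : P →* Equiv.Perm X) (ι : B →* P)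
    (x : D (φ.comp ι)) : toP φ (mapD φ ι x) = ι (toP _ x) := rfl

theorem mapD_injective {B : Type} [Group B] (φ : P →* Equiv.Perm X) (ι : B →* P)
    (hι : Function.Injective ι) : Function.Injective (mapD φ ι) := by
  intro x y h
  have h1 : (mapD φ ι x).left = (mapD φ ι y).left := by rw [h]
  have h2 : (mapD φ ι x).right = (mapD φ ι y).right := by rw [h]
  exact SemidirectProduct.ext h1 (hι h2)

/-- The product of the coordinates. -/
def chiX (X : Type) : Fx X →* ℤˣ := liftX fun _ => MonoidHom.id ℤˣ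

theorem chiX_gx (x : X) (u : ℤˣ) : chiX X (gx x u) = u := liftX_gx _ _ _

theorem chiX_mv (σ : Equiv.Perm X) : (chiX X).comp (mv σ) = chiX X := by
  apply Fx_ext
  intro x
  refine MonoidHom.ext fun u => ?_
  simp only [MonoidHom.comp_apply, mv_gx, chiX_gx]

/-- The homomorphism from `D φ` which is trivial on `P`, given by an invariant one on `Fx X`. -/
def liftI {H : Type} [Group H] (φ : P →* Equiv.Perm X) (f : Fx X →* H)
    (hf : ∀ p, f.comp (mv (φ p)) = f) : D φ →* H :=
  SemidirectProduct.lift f 1 fun p => by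
    refine MonoidHom.ext fun x => ?_
    have h := DFunLike.congr_fun (hf p) x
    change f (mv (φ p) x) = 1 * f x * 1⁻¹
    rw [one_mul, inv_one, mul_one]
    exact h

theorem liftI_inX {H : Type} [Group H] (φ : P →* Equiv.Perm X) (f : Fx X →* H)
    (hf : ∀ p, f.comp (mv (φ p)) = f) (x : Fx X) : liftI φ f hf (inX φ x) = f x :=
  SemidirectProduct.lift_inl _ _ _ _

theorem liftI_inP {H : Type} [Group H] (φ : P →* Equiv.Perm X) (f : Fx X →* H)
    (hf : ∀ p, f.comp (mv (φ p)) = f) (p : P) : liftI φ f hf (inP φ p) = 1 :=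
  SemidirectProduct.lift_inr _ _ _ _

/-- The character of `D φ` which is trivial on `P` and the identity on each factor. -/
def chiD (φ : P →* Equiv.Perm X) : D φ →* ℤˣ := liftI φ (chiX X) fun _ => chiX_mv _

theorem chiD_inX (φ : P →* Equiv.Perm X) (x : Fx X) : chiD φ (inX φ x) = chiX X x :=
  liftI_inX _ _ _ _

theorem chiD_inP (φ : P →* Equiv.Perm X) (p : P) : chiD φ (inP φ p) = 1 := liftI_inP _ _ _ _

theorem chiD_mapD {B : Type} [Group B] (φ : P →* Equiv.Perm X) (ι : B →* P) :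
    (chiD φ).comp (mapD φ ι) = chiD (φ.comp ι) := by
  apply D_ext
  · refine MonoidHom.ext fun x => ?_
    simp only [MonoidHom.comp_apply, mapD_inX, chiD_inX]
  · refine MonoidHom.ext fun x => ?_
    simp only [MonoidHom.comp_apply, mapD_inP, chiD_inP]

end stab

/-- An element of order two of `Fx X` is conjugate to the generator of a factor. -/
theorem Fx_involution {X : Type} [Group X] (x : Fx X) (hx : x * x = 1) :
    x = 1 ∨ ∃ (y : Fx X) (k : X), x = y * gx k (-1) * y⁻¹ := F_involution X x hx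

section groups

variable {X Y K : Type} [Group K] (φ : K →* Equiv.Perm X) (φ' : K →* Equiv.Perm Y) (y₀ : Y)

/-- The preimage of the stabilizer of `y₀` in `D φ`. -/
abbrev UB : Type := D (φ.comp (St φ' y₀).subtype)

/-- The inclusion. -/
def aU : UB φ φ' y₀ →* D φ := mapD φ (St φ' y₀).subtype

theorem aU_injective : Function.Injective (aU φ φ' y₀) :=
  mapD_injective _ _ Subtype.coe_injective

/-- The action of `D φ` on `Y`. -/
abbrev act' : D φ →* Equiv.Perm Y := φ'.comp (toP φ)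

/-- The fibre product, as the semidirect product of `Fx Y` and `D φ`. -/
abbrev E : Type := D (act' φ φ')

theorem aU_stab (b : UB φ φ' y₀) : act' φ φ' (aU φ φ' y₀ b) y₀ = y₀ := (toP _ b).2

theorem exists_aU (u : D φ) (hu : act' φ φ' u y₀ = y₀) : ∃ b, aU φ φ' y₀ b = u := by
  refine ⟨inX _ u.left * inP _ ⟨u.right, hu⟩, ?_⟩
  rw [map_mul]
  change mapD _ _ (inX _ _) * mapD _ _ (inP _ _) = u
  rw [mapD_inX, mapD_inP]
  exact (eq_mul φ u).symm

/-- The map `(x, u) ↦ x * (y₀, u)` from `UB × {1, -1}` to `E`. -/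
def gF : UB φ φ' y₀ × ℤˣ →* E φ φ' := gD (act' φ φ') y₀ (aU φ φ' y₀) (aU_stab φ φ' y₀)

theorem trans_act' (ht : ∀ y, ∃ k, φ' k y₀ = y) (y : Y) : ∃ u, act' φ φ' u y₀ = y := by
  obtain ⟨k, hk⟩ := ht y
  refine ⟨inP φ k, ?_⟩
  change φ' (toP φ (inP φ k)) y₀ = y
  rw [toP_inP, hk]

theorem pushout_E (ht : ∀ y, ∃ k, φ' k y₀ = y) :
    Pushout (aU φ φ' y₀) (MonoidHom.inl (UB φ φ' y₀) ℤˣ) (inP (act' φ φ')) (gF φ φ' y₀) :=
  pushout_D (act' φ φ') y₀ (trans_act' φ φ' y₀ ht) (aU φ φ' y₀) (aU_stab φ φ' y₀)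
    (exists_aU φ φ' y₀)

/-- The second projection of the fibre product. -/
def sE : E φ φ' →* D φ' :=
  SemidirectProduct.lift (inX φ') ((inP φ').comp (toP φ)) fun u => by
    refine MonoidHom.ext fun x => ?_
    exact (inP_mul_inX φ' (toP φ u) x).symm

theorem sE_inX (x : Fx Y) : sE φ φ' (inX _ x) = inX φ' x := SemidirectProduct.lift_inl _ _ _ _

theorem sE_inP (u : D φ) : sE φ φ' (inP _ u) = inP φ' (toP φ u) :=
  SemidirectProduct.lift_inr _ _ _ _

/-- The first projection of the fibre product. -/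
def rE : E φ φ' →* D φ := toP (act' φ φ')

theorem rE_inX (x : Fx Y) : rE φ φ' (inX _ x) = 1 := toP_inX _ _

theorem rE_inP (u : D φ) : rE φ φ' (inP _ u) = u := toP_inP _ _

/-- The inclusion of the fibre product. -/
def iE : E φ φ' →* D φ × D φ' := (rE φ φ').prod (sE φ φ')

theorem iE_inX (x : Fx Y) : iE φ φ' (inX _ x) = (1, inX φ' x) :=
  Prod.ext (rE_inX _ _ _) (sE_inX _ _ _)

theorem iE_inP (u : D φ) : iE φ φ' (inP _ u) = (u, inP φ' (toP φ u)) :=
  Prod.ext (rE_inP _ _ _) (sE_inP _ _ _)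

theorem iE_injective : Function.Injective (iE φ φ') := by
  intro x y h
  have h1 : rE φ φ' x = rE φ φ' y := congrArg Prod.fst h
  have h2 : sE φ φ' x = sE φ φ' y := congrArg Prod.snd h
  have hx := eq_mul (act' φ φ') x
  have hy := eq_mul (act' φ φ') y
  have h3 : x.right = y.right := h1
  rw [hx, hy] at h2
  rw [map_mul, map_mul, sE_inX, sE_inX, h3] at h2
  have h4 := inX_injective φ' (mul_right_cancel h2)
  rw [hx, hy, h3, h4]

theorem toP_iE (x : E φ φ') : toP φ (iE φ φ' x).1 = toP φ' (iE φ φ' x).2 := by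
  have hx := eq_mul (act' φ φ') x
  rw [hx, map_mul, iE_inX, iE_inP, Prod.mk_mul_mk, one_mul, map_mul, toP_inX, toP_inP, one_mul]

theorem exists_iE (u : D φ) (v : D φ') (h : toP φ u = toP φ' v) : ∃ x, iE φ φ' x = (u, v) := by
  refine ⟨inX _ v.left * inP _ u, ?_⟩
  rw [map_mul, iE_inX, iE_inP, Prod.mk_mul_mk, one_mul, h]
  exact Prod.ext rfl (eq_mul φ' v).symm

/-- Two-sided multiplication. -/
def tw (K : Type) [Group K] : K × K →* Equiv.Perm K where
  toFun p := (Equiv.mulLeft p.1).trans (Equiv.mulRight p.2⁻¹)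
  map_one' := by
    ext k
    simp
  map_mul' p q := by
    ext k
    simp [mul_assoc]

theorem tw_apply (a b k : K) : tw K (a, b) k = a * k * b⁻¹ := rfl

/-- The action of `D φ × D φ'` on `K`. -/
def act2 : D φ × D φ' →* Equiv.Perm K := (tw K).comp ((toP φ).prodMap (toP φ'))

theorem act2_apply (u : D φ) (v : D φ') (k : K) :
    act2 φ φ' (u, v) k = toP φ u * k * (toP φ' v)⁻¹ := rfl

theorem trans_act2 (k : K) : ∃ p, act2 φ φ' p 1 = k := by
  refine ⟨(inP φ k, 1), ?_⟩
  rw [act2_apply, toP_inP, map_one, inv_one, mul_one, mul_one]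

theorem stab_act2 (x : E φ φ') : act2 φ φ' (iE φ φ' x) 1 = 1 := by
  have h := toP_iE φ φ' x
  have h2 : act2 φ φ' (iE φ φ' x) 1 = toP φ (iE φ φ' x).1 * 1 * (toP φ' (iE φ φ' x).2)⁻¹ := rfl
  rw [h2, h, mul_one, mul_inv_cancel]

theorem exists_stab_act2 (p : D φ × D φ') (h : act2 φ φ' p 1 = 1) : ∃ x, iE φ φ' x = p := by
  obtain ⟨u, v⟩ := p
  rw [act2_apply, mul_one, mul_inv_eq_one] at h
  exact exists_iE φ φ' u v h

/-- The amalgamated product of `D φ × D φ'` and `E × {1, -1}` over `E`. -/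
abbrev GG : Type := D (act2 φ φ')

/-- The map from `E × {1, -1}`. -/
def gG : E φ φ' × ℤˣ →* GG φ φ' := gD (act2 φ φ') 1 (iE φ φ') (stab_act2 φ φ')

theorem pushout_GG : Pushout (iE φ φ') (MonoidHom.inl (E φ φ') ℤˣ) (inP (act2 φ φ')) (gG φ φ') :=
  pushout_D (act2 φ φ') 1 (trans_act2 φ φ') (iE φ φ') (stab_act2 φ φ') (exists_stab_act2 φ φ')

/-- An element of order two of the amalgamated product is conjugate to an element of one of four
kinds. -/
theorem classify (ht : ∀ y, ∃ k, φ' k y₀ = y) (htf : ∀ k ∈ St φ' y₀, k * k = 1 → k = 1)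
    (hX : ∀ x : Fx X, x * x = 1 → x = 1 ∨ ∃ (y : Fx X) (k : X), x = y * gx k (-1) * y⁻¹)
    {G : Type} [Group G] {fB : D φ × D φ' →* G} {gE : E φ φ' × ℤˣ →* G}
    (hp : Pushout (iE φ φ') (MonoidHom.inl (E φ φ') ℤˣ) fB gE) (x : G) (hx : x * x = 1) :
    ∃ y : G, (∃ b, y * x * y⁻¹ = fB b) ∨ (∃ u : D φ, y * x * y⁻¹ = gE (inP _ u, -1)) ∨
      (∃ k : X, y * x * y⁻¹ = gE (gF φ φ' y₀ (inX _ (gx k (-1)), -1), -1)) ∨
      (y * x * y⁻¹ = gE (gF φ φ' y₀ (1, -1), -1)) := by
  obtain ⟨y, hy⟩ := conj_of_sq_eq_one _ _ _ _ hp (iE_injective φ φ') (inl_injective' _ ℤˣ) x hx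
  have hg := g_injective _ _ _ _ hp (iE_injective φ φ') (inl_injective' _ ℤˣ)
  rcases hy with ⟨b, hb⟩ | ⟨⟨e, s⟩, he⟩
  · exact ⟨y, Or.inl ⟨b, hb⟩⟩
  · have h1 : e * e = 1 := by
      have h2 : gE (e, s) * gE (e, s) = 1 := by
        rw [← he]
        calc y * x * y⁻¹ * (y * x * y⁻¹) = y * (x * x) * y⁻¹ := by group
          _ = 1 := by rw [hx]; group
      rw [← map_mul, ← map_one gE] at h2
      exact congrArg Prod.fst (hg h2)
    rcases Int.units_eq_one_or s with rfl | rfl
    · refine ⟨y, Or.inl ⟨iE φ φ' e, ?_⟩⟩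
      rw [he]
      exact (DFunLike.congr_fun hp.comm e).symm
    · obtain ⟨z, hz⟩ := conj_of_sq_eq_one _ _ _ _ (pushout_E φ φ' y₀ ht) (aU_injective φ φ' y₀)
        (inl_injective' _ ℤˣ) e h1
      have hg2 := g_injective _ _ _ _ (pushout_E φ φ' y₀ ht) (aU_injective φ φ' y₀)
        (inl_injective' _ ℤˣ)
      have hconj : ∀ (z' e' : E φ φ'), z' * e * z'⁻¹ = e' →
          (gE (z', 1) * y) * x * (gE (z', 1) * y)⁻¹ = gE (e', -1) := by
        intro z' e' h
        have h2 : (gE (z', 1) * y) * x * (gE (z', 1) * y)⁻¹ =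
            gE (z', 1) * (y * x * y⁻¹) * (gE (z', 1))⁻¹ := by group
        rw [h2, he, ← map_inv, ← map_mul, ← map_mul, ← h]
        simp
      rcases hz with ⟨u, hu⟩ | ⟨⟨f, s⟩, hf⟩
      · exact ⟨_, Or.inr (Or.inl ⟨u, hconj z _ hu⟩)⟩
      · have h3 : f * f = 1 := by
          have h2 : gF φ φ' y₀ (f, s) * gF φ φ' y₀ (f, s) = 1 := by
            rw [← hf]
            calc z * e * z⁻¹ * (z * e * z⁻¹) = z * (e * e) * z⁻¹ := by group
              _ = 1 := by rw [h1]; group
          rw [← map_mul, ← map_one (gF φ φ' y₀)] at h2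
          exact congrArg Prod.fst (hg2 h2)
        rcases Int.units_eq_one_or s with rfl | rfl
        · refine ⟨_, Or.inr (Or.inl ⟨aU φ φ' y₀ f, hconj z _ ?_⟩)⟩
          rw [hf]
          exact (DFunLike.congr_fun (pushout_E φ φ' y₀ ht).comm f).symm
        · have h5 : toP _ f = 1 := by
            have h6 : toP _ f * toP _ f = 1 := by rw [← map_mul, h3, map_one]
            exact Subtype.ext (htf _ (toP _ f).2 (congrArg Subtype.val h6))
          have h7 : f = inX _ f.left := by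
            have h8 := eq_mul (φ.comp (St φ' y₀).subtype) f
            have h9 : f.right = 1 := h5
            rw [h9, map_one, mul_one] at h8
            exact h8
          have h10 : f.left * f.left = 1 := by
            apply inX_injective (φ.comp (St φ' y₀).subtype)
            rw [map_mul, ← h7, h3, map_one]
          rcases hX f.left h10 with h11 | ⟨w, k, h11⟩
          · rw [h11, map_one] at h7
            rw [h7] at hf
            exact ⟨_, Or.inr (Or.inr (Or.inr (hconj z _ hf)))⟩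
          · refine ⟨_, Or.inr (Or.inr (Or.inl ⟨k, hconj (gF φ φ' y₀ (inX _ w⁻¹, 1) * z) _ ?_⟩))⟩
            have h4 : gF φ φ' y₀ (inX _ w⁻¹, 1) * z * e * (gF φ φ' y₀ (inX _ w⁻¹, 1) * z)⁻¹ =
              gF φ φ' y₀ (inX _ w⁻¹, 1) * (z * e * z⁻¹) * (gF φ φ' y₀ (inX _ w⁻¹, 1))⁻¹ := by
              group
            rw [h4, hf, ← map_inv, ← map_mul, ← map_mul]
            congr 1
            rw [h7, h11]
            simp only [Prod.mk_mul_mk, Prod.inv_mk, inv_one, mul_one, one_mul,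
              Prod.mk.injEq, and_true]
            rw [← map_inv, ← map_mul, ← map_mul]
            congr 1
            group

end groups

end Pool.Agent.RG
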