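import Pool.Agent.RG.Family
import Pool.Agent.FG.Final

/-!
# The main theorem
-/

namespace Pool.Agent.RG

open Pool.Agent.D4 Pool.Agent.FG

variable {S : Type} {g : ℕ}

/-- The letters. -/
abbrev Lt (R : Set (FreeGroup S)) : Type := SS (Fin 3 × S) (JJ R)

/-- The relators. -/
abbrev Rl (R : Set (FreeGroup S)) : Set (FreeGroup (Gn (Lt R))) := rrels (ra R) (rb R)

/-- The words in the letters. -/
def vv (R : Set (FreeGroup S)) (w : List (S × Bool)) : Fin 4 → List (Lt R × Bool) :=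
  Fin.cases [] fun i => w.map fun p => (Sum.inl (Sum.inl (i, p.1)), p.2)

theorem mk_vv (R : Set (FreeGroup S)) (w : List (S × Bool)) (j : Fin 4) :
    FreeGroup.mk (vv R w j) = wd (JJ R) (pt (FreeGroup.mk w) j) := by
  refine Fin.cases ?_ (fun i => ?_) j
  · exact (FreeGroup.one_eq_mk).symm.trans (map_one _).symm
  · change FreeGroup.mk (w.map fun p => (Sum.inl (Sum.inl (i, p.1)), p.2)) =
      FreeGroup.map Sum.inl (FreeGroup.map Sum.inl (FreeGroup.map (fun s => (i, s)) (FreeGroup.mk w)))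
    rw [FreeGroup.map.mk, FreeGroup.map.mk, FreeGroup.map.mk]
    congr 1
    simp [List.map_map, Function.comp_def]

section

variable (R : Set (FreeGroup S)) (e : (Lt R ⊕ Lt R) ⊕ Fin 2 ≃ Fin g) {rl : List (Word g)}
  (hrl : IsRelList (Rl R) e rl)

theorem vv_sq (w : List (S × Bool)) (i : Fin 4) :
    PresentedGroup.mk (Rl R) (tel (FreeGroup.mk (vv R w i))) *
      PresentedGroup.mk (Rl R) (tel (FreeGroup.mk (vv R w i))) = 1 := by
  rw [mk_vv]
  exact tel_sq (ra R) (rb R) _

/-- The word in the `x j` of an element of the free group on the letters of both copies. -/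
noncomputable def cw (y : FreeGroup (Lt R ⊕ Lt R)) : List (Fin g × Bool) := by
  classical exact (FreeGroup.map (fun s => e (Sum.inl s)) y).toWord

theorem mk_cw (y : FreeGroup (Lt R ⊕ Lt R)) : FreeGroup.map Sum.inr (FreeGroup.mk (cw R e y)) =
    psi e (FreeGroup.map Sum.inl y) := by
  classical
  have h1 : FreeGroup.mk (cw R e y) = FreeGroup.map (fun s => e (Sum.inl s)) y :=
    FreeGroup.mk_toWord
  rw [h1]
  have h2 : (FreeGroup.map Sum.inr).comp (FreeGroup.map (fun s => e (Sum.inl s))) =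
      ((psi e).comp (FreeGroup.map Sum.inl) :
        FreeGroup (Lt R ⊕ Lt R) →* FreeGroup (Fin 4 ⊕ Fin g)) := by
    apply FreeGroup.ext_hom
    intro s
    simp [psi, psiGen]
  exact DFunLike.congr_fun h2 y

include hrl

theorem el_lword (w : List (S × Bool))
    (h : PresentedGroup.mk R (FreeGroup.mk w) = 1) (i : Fin 3) :
    ∃ u : List (Fin g × Bool), ∀ (L : List (Word g)), (∀ w ∈ rl, w ∈ L) →
      el L (lword e i.succ (vv R w i.succ)) = el L (dword i u) := by
  obtain ⟨z, hz⟩ := tel_conj (ra R) (rb R) (pt (FreeGroup.mk w) i.succ) (orb_pt R h i.succ)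
  refine ⟨cw R e (FreeGroup.map Sum.inl z * FreeGroup.map Sum.inr z), fun L hL => ?_⟩
  have h1 := of_mul_of L i.succ
  have h2 : (PresentedGroup.of (Sum.inl i.succ) : Pi1 L)⁻¹ = PresentedGroup.of (Sum.inl i.succ) :=
    inv_eq_of_mul_eq_one_left h1
  have h3 : el L (lword e i.succ (vv R w i.succ)) = (PresentedGroup.of (Sum.inl i.succ) : Pi1 L)⁻¹ *
      PresentedGroup.mk (rels L) (psi e (tel (FreeGroup.mk (vv R w i.succ)))) := by
    rw [el, mk_lword, map_mul, map_inv]
    rfl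
  have h4 : g1 z * g2 z = FreeGroup.map Sum.inl (FreeGroup.map Sum.inl z * FreeGroup.map Sum.inr z :
      FreeGroup (Lt R ⊕ Lt R)) := by
    rw [map_mul, FreeGroup.map.comp, FreeGroup.map.comp]
    rfl
  have hz' : PresentedGroup.mk (Rl R) (g1 z * g2 z * tel 1 * (g1 z * g2 z)⁻¹) =
      PresentedGroup.mk (Rl R) (tel (wd (JJ R) (pt (FreeGroup.mk w) i.succ))) := by
    rw [map_one (wd (JJ R))] at hz
    exact hz
  have h5 : psi e (g1 z * g2 z * tel 1 * (g1 z * g2 z)⁻¹) =
      psi e (g1 z * g2 z) * FreeGroup.of (Sum.inl 0) * (psi e (g1 z * g2 z))⁻¹ := by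
    rw [map_mul (psi e) (g1 z * g2 z * tel 1), map_mul (psi e) (g1 z * g2 z), psi_tel_one, map_inv]
  rw [h3, h2, mk_vv, ← bwd_mk (Rl R) e hrl L hL, ← hz', bwd_mk, h5, h4, el, mk_dword, mk_cw,
    map_mul (PresentedGroup.mk (rels L))]
  rfl

theorem chain (r : ℕ) (w : List (S × Bool)) (h : PresentedGroup.mk R (FreeGroup.mk w) = 1) :
    ∃ v : Fin 3 → List (Fin g × Bool), ∀ k s : ℕ,
      Relation.EqvGen (Move r) (fam e rl (vv R w), k, s) (rl ++ dd v, k, s) := by
  have h0 := fun i => el_lword R e hrl w h i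
  choose v hv using h0
  refine ⟨v, fun k s => ?_⟩
  have h1 : Move r (rl ++ lword e 1 (vv R w 1) :: [lword e 2 (vv R w 2), lword e 3 (vv R w 3)], k, s)
      (rl ++ dword 0 (v 0) :: [lword e 2 (vv R w 2), lword e 3 (vv R w 3)], k, s) :=
    Move.loop _ _ _ _ _ _ (hv 0 _ fun w hw => List.mem_append.2 (Or.inl hw))
  have h2 : Move r ((rl ++ [dword 0 (v 0)]) ++ lword e 2 (vv R w 2) :: [lword e 3 (vv R w 3)], k, s)
      ((rl ++ [dword 0 (v 0)]) ++ dword 1 (v 1) :: [lword e 3 (vv R w 3)], k, s) :=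
    Move.loop _ _ _ _ _ _ (hv 1 _ fun w hw => by simp [hw])
  have h3 : Move r ((rl ++ [dword 0 (v 0), dword 1 (v 1)]) ++ lword e 3 (vv R w 3) :: [], k, s)
      ((rl ++ [dword 0 (v 0), dword 1 (v 1)]) ++ dword 2 (v 2) :: [], k, s) :=
    Move.loop _ _ _ _ _ _ (hv 2 _ fun w hw => by simp [hw])
  have e1 : fam e rl (vv R w) =
      rl ++ lword e 1 (vv R w 1) :: [lword e 2 (vv R w 2), lword e 3 (vv R w 3)] := rfl
  have e2 : rl ++ dword 0 (v 0) :: [lword e 2 (vv R w 2), lword e 3 (vv R w 3)] =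
      (rl ++ [dword 0 (v 0)]) ++ lword e 2 (vv R w 2) :: [lword e 3 (vv R w 3)] := by simp
  have e3 : (rl ++ [dword 0 (v 0)]) ++ dword 1 (v 1) :: [lword e 3 (vv R w 3)] =
      (rl ++ [dword 0 (v 0), dword 1 (v 1)]) ++ lword e 3 (vv R w 3) :: [] := by simp
  have e4 : (rl ++ [dword 0 (v 0), dword 1 (v 1)]) ++ dword 2 (v 2) :: [] = rl ++ dd v := by
    simp [dd]
  rw [e2] at h1
  rw [e3] at h2
  rw [e4] at h3
  rw [e1]
  exact Relation.EqvGen.trans _ _ _ (Relation.EqvGen.rel _ _ h1)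
    (Relation.EqvGen.trans _ _ _ (Relation.EqvGen.rel _ _ h2) (Relation.EqvGen.rel _ _ h3))

theorem moves_of_one (r : ℕ) (w : List (S × Bool))
    (h : PresentedGroup.mk R (FreeGroup.mk w) = 1) :
    Relation.EqvGen (Move r) (fam e rl (vv R w), 1, r) (fam e rl (vv R w), 0, r + 11) := by
  obtain ⟨v, hv⟩ := chain R e hrl r w h
  exact Relation.EqvGen.trans _ _ _ (hv 1 r)
    (Relation.EqvGen.trans _ _ _ (Relation.EqvGen.rel _ _ (Move.trade rl v))
      (Relation.EqvGen.symm _ _ (hv 0 (r + 11))))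

omit hrl in
theorem chi_phi' (w : List (S × Bool)) (y : FreeGroup (Fin 4 ⊕ Fin g)) :
    chiGR (ra R) (rb R) (phi (Rl R) e (vv R w) y) = sign g y := by
  apply chi_phi
  · intro s
    rcases s with s | s
    · exact chiGR_g1 (ra R) (rb R) (FreeGroup.of s)
    · exact chiGR_g2 (ra R) (rb R) (FreeGroup.of s)
  · exact chiGR_gc _ _
  · exact chiGR_gd _ _
  · intro i
    rw [mk_vv]
    exact chiGR_tel _ _ _

theorem even_fam (w : List (S × Bool)) : EvenLoops (fam e rl (vv R w)) := by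
  intro x hx
  rw [← chi_phi' R e w, phi_fam (Rl R) e hrl (vv R w) rfl x hx, map_one]

theorem chi_fwd (w : List (S × Bool)) :
    (chiGR (ra R) (rb R)).comp (fwd (Rl R) e hrl (vv R w) rfl (vv_sq R w)) =
      ori (fam e rl (vv R w)) (even_fam R e hrl w) := by
  apply PresentedGroup.ext
  intro x
  rw [ori_of]
  change chiGR (ra R) (rb R)
    (fwd (Rl R) e hrl (vv R w) rfl (vv_sq R w) (PresentedGroup.mk _ (FreeGroup.of x))) = _
  rw [fwd_mk, chi_phi' R e w]
  simp [sign]

theorem not_pinEquivalent (Ω : PinTheory) (w : List (S × Bool))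
    (hw : PresentedGroup.mk R (FreeGroup.mk w) ≠ 1) (s s' : ℕ) :
    ¬ PinEquivalent Ω (fam e rl (vv R w), 1, s) (fam e rl (vv R w), 0, s') := by
  intro hpe
  set L := fam e rl (vv R w) with hLdef
  let α : Pi1 L ≃* GG (ph (ra R)) (ph (rb R)) :=
    (iso (Rl R) e hrl (vv R w) rfl (vv_sq R w)).trans (isoGR (ra R) (rb R))
  have hL : EvenLoops L := even_fam R e hrl w
  have hχ0 : (chiGG (ph (ra R)) (ph (rb R))).comp α.toMonoidHom = ori L hL := chi_fwd R e hrl w
  have hχ : (ori L hL).comp α.symm.toMonoidHom = chiGG (ph (ra R)) (ph (rb R)) := by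
    rw [← hχ0, MonoidHom.comp_assoc]
    have e1 : α.toMonoidHom.comp α.symm.toMonoidHom = MonoidHom.id _ :=
      MonoidHom.ext fun x => α.apply_symm_apply x
    rw [e1, MonoidHom.comp_id]
  have hp := pushout_equiv (pushout_GG (ph (ra R)) (ph (rb R))) α.symm
  have hB : (ori L hL).comp (α.symm.toMonoidHom.comp (inP (act2 (ph (ra R)) (ph (rb R))))) =
      (chiD (ph (ra R))).comp (MonoidHom.fst _ _) := by
    rw [← MonoidHom.comp_assoc, hχ, chiGG_B]
  have hE : (ori L hL).comp (α.symm.toMonoidHom.comp (gG (ph (ra R)) (ph (rb R)))) =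
      psiE (ph (ra R)) (ph (rb R)) := by
    rw [← MonoidHom.comp_assoc (gG (ph (ra R)) (ph (rb R))) α.symm.toMonoidHom (ori L hL), hχ,
      chiGG_E]
  have hT : ∀ k, (ori L hL).comp (TT (ph (ra R)) (ph (rb R)) 1
      (α.symm.toMonoidHom.comp (gG (ph (ra R)) (ph (rb R)))) k) = MonoidHom.id ℤˣ := by
    intro k
    have h6 : TT (ph (ra R)) (ph (rb R)) 1 (α.symm.toMonoidHom.comp (gG (ph (ra R)) (ph (rb R)))) k =
      α.symm.toMonoidHom.comp (TT (ph (ra R)) (ph (rb R)) 1 (gG (ph (ra R)) (ph (rb R))) k) := rfl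
    rw [h6, ← MonoidHom.comp_assoc, hχ, chiGG_TT]
  have hrp : ∀ i, rp L i = TT (ph (ra R)) (ph (rb R)) 1
      (α.symm.toMonoidHom.comp (gG (ph (ra R)) (ph (rb R)))) (pt (FreeGroup.mk w) i) := by
    intro i
    apply hom_ext'
    rw [rp_neg_one]
    have h6 : TT (ph (ra R)) (ph (rb R)) 1 (α.symm.toMonoidHom.comp (gG (ph (ra R)) (ph (rb R))))
        (pt (FreeGroup.mk w) i) (-1) =
      α.symm (TT (ph (ra R)) (ph (rb R)) 1 (gG (ph (ra R)) (ph (rb R)))
        (pt (FreeGroup.mk w) i) (-1)) := rfl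
    rw [h6, ← isoGR_tel]
    apply α.injective
    rw [α.apply_symm_apply]
    have h7 : α (PresentedGroup.of (Sum.inl i)) =
        isoGR (ra R) (rb R) (phi (Rl R) e (vv R w) (FreeGroup.of (Sum.inl i))) :=
      congrArg (isoGR (ra R) (rb R))
        (fwd_mk (Rl R) e hrl (vv R w) rfl (vv_sq R w) (FreeGroup.of (Sum.inl i)))
    rw [h7, phi_inl, mk_vv]
    rfl
  have hy : ∀ k : ℕ, bordismClass Ω L hL k = ∑ i, Ω.cls (TT (ph (ra R)) (ph (rb R)) 1
      (α.symm.toMonoidHom.comp (gG (ph (ra R)) (ph (rb R)))) (pt (FreeGroup.mk w) i)) (hT _) +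
        k • Ω.k (ori L hL) := by
    intro k
    unfold bordismClass
    congr 1
    exact Finset.sum_congr rfl fun i _ => cls_congr Ω (hrp i) _ _
  apply not_equivalent Ω (ph_trans (rb R)) (fun k _ => KK_torsionFree k) Fx_involution hp
    (ori L hL) hB hE hT (pt (FreeGroup.mk w)) (pt_orb R hw)
  obtain ⟨h1, h2, β, hβ, ε, t, h3⟩ := pinEquivalent_symm Ω _ _ hpe
  have h4 : ε = (ε.comp β.symm.toMonoidHom).comp β.toMonoidHom := by
    rw [MonoidHom.comp_assoc]
    have e1 : β.symm.toMonoidHom.comp β.toMonoidHom = MonoidHom.id _ :=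
      MonoidHom.ext fun x => β.symm_apply_apply x
    rw [e1, MonoidHom.comp_id]
  refine ⟨β, hβ, ε.comp β.symm.toMonoidHom, t, ?_⟩
  have h5 : bordismClass Ω L hL 1 = (t : ℤ) • Ω.map β.toMonoidHom hβ
      (Ω.twist (ori L hL) ε (bordismClass Ω L hL 0)) := h3
  rw [h4, Ω.symmetric.map_twist, hy, hy, one_smul, zero_smul, add_zero] at h5
  exact h5

end

section comp

variable (e : (S ⊕ S) ⊕ Fin 2 ≃ Fin g) {A : Type} [Primcodable A] [Finite A]

theorem computable_lword (f : A × Bool → S × Bool) (i : Fin 4) :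
    Primrec fun l : List (A × Bool) => lword e i (l.map f) := by
  have e1 : Primrec fun l : List (A × Bool) => (l.map f).map
      (fun p => ((Sum.inr (e (Sum.inl (Sum.inl p.1))) : Fin 4 ⊕ Fin g), p.2)) := by
    simp only [List.map_map]
    exact Primrec.list_map Primrec.id
      ((Primrec.dom_finite ((fun p : S × Bool =>
        ((Sum.inr (e (Sum.inl (Sum.inl p.1))) : Fin 4 ⊕ Fin g), p.2)) ∘ f)).comp Primrec.snd).to₂
  have e2 : Primrec fun l : List (A × Bool) => ((l.map f).map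
      (fun p => ((Sum.inr (e (Sum.inl (Sum.inl p.1))) : Fin 4 ⊕ Fin g), !p.2))).reverse := by
    simp only [List.map_map]
    exact Primrec.list_reverse.comp (Primrec.list_map Primrec.id
      ((Primrec.dom_finite ((fun p : S × Bool =>
        ((Sum.inr (e (Sum.inl (Sum.inl p.1))) : Fin 4 ⊕ Fin g), !p.2)) ∘ f)).comp
          Primrec.snd).to₂)
  have e3 : Primrec fun l : List (A × Bool) => tword e (l.map f) :=
    Primrec.list_append.comp e1 (Primrec.list_append.comp (Primrec.const _)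
      (Primrec.list_append.comp e2 (Primrec.const _)))
  exact Primrec.list_cons.comp (Primrec.const _) e3

end comp

theorem computable_fam {N : ℕ} (R : Set (FreeGroup (Fin N)))
    (e : (Lt R ⊕ Lt R) ⊕ Fin 2 ≃ Fin g) (rl : List (Word g))
    (w : ℕ → List (Fin N × Bool)) (hw : Computable w) :
    Computable fun n => fam e rl (vv R (w n)) := by
  have h2 : ∀ i : Fin 3, Computable fun n => lword e i.succ (vv R (w n) i.succ) := fun i =>
    (computable_lword e (fun p : Fin N × Bool =>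
      ((Sum.inl (Sum.inl (i, p.1)) : Lt R), p.2)) i.succ).to_comp.comp hw
  exact Computable.list_append.comp (Computable.const rl)
    (Computable.list_cons.comp (h2 0) (Computable.list_cons.comp (h2 1)
      (Computable.list_cons.comp (h2 2) (Computable.const []))))

theorem main :
    ∃ (g N : ℕ) (rel : Set (FreeGroup (Fin N))) (χ : PresentedGroup rel →* ℤˣ)
      (L : ℕ → List (Word g)) (p : ℕ → Prop),
      rel.Finite ∧ Group.ResiduallyFinite (PresentedGroup rel) ∧ Computable L ∧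
      (∀ n, HasType rel χ (L n)) ∧ CompleteRE p ∧
      ∀ (Ω : PinTheory) (r : ℕ) (α : Type) [Primcodable α] (T : Code g → α) (D H : α → α → Prop),
        Realizes Ω r T D H →
          (∀ n, H (T (L n, 1, r)) (T (L n, 0, r + 11)) ∧
            (D (T (L n, 1, r)) (T (L n, 0, r + 11)) ↔ p n)) ∧
          ¬ ∃ f : α × α →. Bool, Decides rel χ T D H f := by
  obtain ⟨N₀, R, w, h1, h2, h3, h4, h5⟩ := Pool.Agent.NB.novikov_boone
  have hnc := Pool.Agent.NB.not_computable_of_complete _ h4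
  have : Finite R := h1
  obtain ⟨g, ⟨e⟩⟩ := Finite.exists_equiv_fin ((Lt R ⊕ Lt R) ⊕ Fin 2)
  obtain ⟨rl, hrl⟩ := exists_relList (Rl R) e (rrels_finite _ _)
  obtain ⟨N, ⟨e'⟩⟩ := Finite.exists_equiv_fin (Gn (Lt R))
  let ee := PresentedGroup.equivPresentedGroup (Rl R) e'
  let χ : PresentedGroup (FreeGroup.freeGroupCongr e' '' Rl R) →* ℤˣ :=
    (chiGR (ra R) (rb R)).comp ee.symm.toMonoidHom
  have hnon : ∀ n, HasType (FreeGroup.freeGroupCongr e' '' Rl R) χ (fam e rl (vv R (w n))) := by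
    intro n
    refine ⟨even_fam R e hrl (w n), (iso (Rl R) e hrl (vv R (w n)) rfl (vv_sq R (w n))).trans ee, ?_⟩
    rw [← chi_fwd R e hrl (w n)]
    refine MonoidHom.ext fun x => ?_
    change chiGR _ _ (ee.symm (ee (fwd (Rl R) e hrl (vv R (w n)) rfl (vv_sq R (w n)) x))) = _
    rw [ee.symm_apply_apply]
    rfl
  have hrf : Group.ResiduallyFinite (PresentedGroup (FreeGroup.freeGroupCongr e' '' Rl R)) := by
    have := resFinite_GR (ra R) (rb R)
    exact resFinite_of_injective ee.symm.toMonoidHom ee.symm.injective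
  refine ⟨_, _, FreeGroup.freeGroupCongr e' '' Rl R, χ, fun n => fam e rl (vv R (w n)),
    fun n => PresentedGroup.mk R (FreeGroup.mk (w n)) = 1, (rrels_finite _ _).image _, hrf,
    computable_fam R e rl w h2, hnon, ⟨h3, h4, hnc⟩, ?_⟩
  intro Ω r α _ T D H hR
  have hiff : ∀ n, D (T (fam e rl (vv R (w n)), 1, r)) (T (fam e rl (vv R (w n)), 0, r + 11)) ↔
      PresentedGroup.mk R (FreeGroup.mk (w n)) = 1 := by
    intro n
    constructor
    · intro h
      by_contra h6
      exact not_pinEquivalent R e hrl Ω (w n) h6 _ _ (hR.bordism _ _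
        (even_fam R e hrl _) (even_fam R e hrl _) h)
    · intro h
      exact hR.moves _ _ (even_fam R e hrl _) (moves_of_one R e hrl r (w n) h)
  have hH : ∀ n, H (T (fam e rl (vv R (w n)), 1, r)) (T (fam e rl (vv R (w n)), 0, r + 11)) :=
    fun n => hR.exchange _ _ (even_fam R e hrl _) ⟨rfl, rfl, rfl⟩
  refine ⟨fun n => ⟨hH n, hiff n⟩, ?_⟩
  rintro ⟨f, hf, hdec⟩
  apply hnc
  have h6 : ∀ n, ∃ b ∈ f (T (fam e rl (vv R (w n)), 1, r), T (fam e rl (vv R (w n)), 0, r + 11)),
      (b = true ↔ PresentedGroup.mk R (FreeGroup.mk (w n)) = 1) := by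
    intro n
    obtain ⟨b, hb, h7⟩ := hdec (fam e rl (vv R (w n)), 1, r) (fam e rl (vv R (w n)), 0, r + 11)
      (hnon n) (hnon n) (hH n)
    exact ⟨b, hb, h7.trans (hiff n)⟩
  choose F hF1 hF2 using h6
  have h8 : Computable fun n =>
      (T (fam e rl (vv R (w n)), 1, r), T (fam e rl (vv R (w n)), 0, r + 11)) :=
    (hR.computable.comp ((computable_fam R e rl w h2).pair (Computable.const _))).pair
      (hR.computable.comp ((computable_fam R e rl w h2).pair (Computable.const _)))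
  have h9 : Computable F := (hf.comp h8).of_eq_tot hF1
  refine ComputablePred.computable_iff.2 ⟨F, h9, ?_⟩
  funext n
  exact propext (hF2 n).symm

end Pool.Agent.RG
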