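import Pool.Agent.RG.Pres

/-!
# The character, the involutions and the orbits
-/

namespace Pool.Agent.RG

open Pool.Agent.D4 Pool.Agent.FG

section general

variable {X Y K : Type} [Group K] (φ : K →* Equiv.Perm X) (φ' : K →* Equiv.Perm Y) (y₀ : Y)

/-- The character of the amalgamated product: nontrivial on the factors of `D φ` only. -/
def chiGG : GG φ φ' →* ℤˣ :=
  SemidirectProduct.lift 1 ((chiD φ).comp (MonoidHom.fst (D φ) (D φ'))) fun p => by
    refine MonoidHom.ext fun x => ?_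
    simp

theorem chiGG_inP (p : D φ × D φ') : chiGG φ φ' (inP _ p) = chiD φ p.1 :=
  SemidirectProduct.lift_inr _ _ _ _

theorem chiGG_inX (x : Fx K) : chiGG φ φ' (inX _ x) = 1 :=
  SemidirectProduct.lift_inl _ _ _ _

theorem chiGG_B : (chiGG φ φ').comp (inP (act2 φ φ')) =
    (chiD φ).comp (MonoidHom.fst (D φ) (D φ')) := MonoidHom.ext fun p => chiGG_inP φ φ' p

theorem gG_apply (x : E φ φ') (u : ℤˣ) : gG φ φ' (x, u) = inP _ (iE φ φ' x) * inX _ (gx 1 u) :=
  rfl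

theorem chiGG_E : (chiGG φ φ').comp (gG φ φ') = psiE φ φ' := by
  refine MonoidHom.ext fun p => ?_
  obtain ⟨x, u⟩ := p
  rw [MonoidHom.comp_apply, gG_apply, map_mul, chiGG_inP, chiGG_inX, mul_one]
  rfl

theorem iE_gF (f : UB φ φ' y₀) (u : ℤˣ) : iE φ φ' (gF φ φ' y₀ (f, u)) =
    (aU φ φ' y₀ f, inP φ' (toP φ (aU φ φ' y₀ f)) * inX φ' (gx y₀ u)) := by
  change iE φ φ' (inP _ (aU φ φ' y₀ f) * inX _ (gx y₀ u)) = _
  rw [map_mul, iE_inP, iE_inX, Prod.mk_mul_mk, mul_one]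

theorem TT_GG (x : X) : TT φ φ' y₀ (gG φ φ') x (-1) =
    inP _ (inX φ (gx x (-1)), inX φ' (gx y₀ (-1))) * inX _ (gx 1 (-1)) := by
  rw [TT_neg_one, gG_apply, iE_gF]
  have h : aU φ φ' y₀ (inX _ (gx x (-1))) = inX φ (gx x (-1)) := mapD_inX _ _ _
  rw [h, toP_inX, map_one, one_mul]

theorem chiGG_TT (x : X) : (chiGG φ φ').comp (TT φ φ' y₀ (gG φ φ') x) = MonoidHom.id ℤˣ := by
  apply hom_ext'
  rw [MonoidHom.comp_apply, TT_GG, map_mul, chiGG_inP, chiGG_inX, mul_one, chiD_inX, chiX_gx]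
  rfl

theorem TT_GG_conj (b : K) (hb : φ' b y₀ = y₀) (x : X) :
    inP _ (inP φ b, inP φ' b) * TT φ φ' y₀ (gG φ φ') x (-1) * (inP _ (inP φ b, inP φ' b))⁻¹ =
      TT φ φ' y₀ (gG φ φ') (φ b x) (-1) := by
  rw [TT_GG, TT_GG]
  have h1 : act2 φ φ' (inP φ b, inP φ' b) 1 = 1 := by
    rw [act2_apply, toP_inP, toP_inP, mul_one, mul_inv_cancel]
  have h2 := (commute_stab (act2 φ φ') h1 (-1)).eq
  have h3 := inP_mul_inX φ b (gx x (-1))
  have h4 := inP_mul_inX φ' b (gx y₀ (-1))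
  rw [mv_gx] at h3 h4
  rw [hb] at h4
  have h6 : inP (act2 φ φ') (inX φ (gx (φ b x) (-1)), inX φ' (gx y₀ (-1))) =
      inP _ (inP φ b, inP φ' b) * inP _ (inX φ (gx x (-1)), inX φ' (gx y₀ (-1))) *
        (inP _ (inP φ b, inP φ' b))⁻¹ := by
    rw [← map_inv, ← map_mul, ← map_mul]
    congr 1
    exact Prod.ext h3.symm h4.symm
  rw [h6]
  generalize inP (act2 φ φ') (inP φ b, inP φ' b) = z at h2 ⊢
  generalize inP (act2 φ φ') (inX φ (gx x (-1)), inX φ' (gx y₀ (-1))) = m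
  generalize inX (act2 φ φ') (gx 1 (-1)) = c at h2 ⊢
  calc z * (m * c) * z⁻¹ = z * m * (z⁻¹ * (z * c)) * z⁻¹ := by group
    _ = z * m * (z⁻¹ * (c * z)) * z⁻¹ := by rw [h2]
    _ = z * m * z⁻¹ * c := by group

end general

section words

variable {T J : Type}

/-- The element `(z a z⁻¹) d c`. -/
def tel {S : Type} (z : FreeGroup S) : FreeGroup (Gn S) := g1 z * ga * (g1 z)⁻¹ * gd * gc

/-- The word of `F × F` given by an element of `F₀`. -/
def wd (J : Type) : FreeGroup T →* FreeGroup (SS T J) := (FreeGroup.map Sum.inl).comp (sg J)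

variable (r₁ r₂ : J → FreeGroup T)

theorem isoGR_tel (y : FreeGroup T) : isoGR r₁ r₂ (mq r₁ r₂ (tel (wd J y))) =
    TT (ph r₁) (ph r₂) 1 (gG (ph r₁) (ph r₂)) y (-1) := by
  change ofGR r₁ r₂ (mq r₁ r₂ (tel (wd J y))) = _
  rw [ofGR_mq, tel, map_mul, map_mul, map_mul, map_mul, map_inv, genH_g1, genH_ga, genH_gd,
    genH_gc, TT_GG]
  have h1 : kh (wd J y) = (sg J y, 1) := kh_inl (sg J y)
  have h3 := inP_mul_inX (ph r₁) (sg J y, 1) (gx 1 (-1))
  rw [mv_gx, ph_sg] at h3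
  rw [h1, ← h3, ← map_inv, ← map_mul, ← map_mul, ← map_mul]
  congr 1
  congr 1
  rw [Prod.mk_mul_mk, Prod.inv_mk, Prod.mk_mul_mk, Prod.mk_mul_mk]
  simp

theorem tel_sq (y : FreeGroup T) : mq r₁ r₂ (tel (wd J y)) * mq r₁ r₂ (tel (wd J y)) = 1 := by
  apply (isoGR r₁ r₂).injective
  rw [map_mul, map_one, isoGR_tel, ← map_mul]
  simp

theorem tel_conj (y : FreeGroup T) (h : Orb (ph r₁) (ph r₂) 1 1 y) :
    ∃ w : FreeGroup (SS T J), mq r₁ r₂ (g1 w * g2 w * tel (wd J 1) * (g1 w * g2 w)⁻¹) =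
      mq r₁ r₂ (tel (wd J y)) := by
  obtain ⟨⟨u, v⟩, hb, h2⟩ := h
  refine ⟨FreeGroup.map Sum.inl u * FreeGroup.map Sum.inr v, ?_⟩
  apply (isoGR r₁ r₂).injective
  rw [map_mul, map_mul, map_mul, map_mul, map_inv, map_inv, isoGR_tel, isoGR_tel]
  have h3 : isoGR r₁ r₂ (mq r₁ r₂ (g1 (FreeGroup.map Sum.inl u * FreeGroup.map Sum.inr v) *
      g2 (FreeGroup.map Sum.inl u * FreeGroup.map Sum.inr v))) =
      inP _ (inP (ph r₁) (u, v), inP (ph r₂) (u, v)) := by
    rw [map_mul, ← k1_apply, ← k2_apply, map_mul]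
    change ofGR r₁ r₂ (k1 r₁ r₂ (u, v)) * ofGR r₁ r₂ (k2 r₁ r₂ (u, v)) = _
    rw [ofGR_k1, ofGR_k2, ← map_mul, Prod.mk_mul_mk, mul_one, one_mul]
  rw [h3]
  have h4 := TT_GG_conj (ph r₁) (ph r₂) 1 (u, v) hb 1
  rw [h2] at h4
  exact h4

/-- The character of the presented group. -/
noncomputable def chiGR : GR r₁ r₂ →* ℤˣ :=
  (chiGG (ph r₁) (ph r₂)).comp (isoGR r₁ r₂).toMonoidHom

theorem chiGR_mq (y : FreeGroup (Gn (SS T J))) :
    chiGR r₁ r₂ (mq r₁ r₂ y) = chiGG (ph r₁) (ph r₂) (genH r₁ r₂ y) := by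
  change chiGG _ _ (ofGR r₁ r₂ (mq r₁ r₂ y)) = _
  rw [ofGR_mq]

theorem chiGR_g1 (y : FreeGroup (SS T J)) : chiGR r₁ r₂ (mq r₁ r₂ (g1 y)) = 1 := by
  rw [chiGR_mq, genH_g1, chiGG_inP, chiD_inP]

theorem chiGR_g2 (y : FreeGroup (SS T J)) : chiGR r₁ r₂ (mq r₁ r₂ (g2 y)) = 1 := by
  rw [chiGR_mq, genH_g2, chiGG_inP, map_one]

theorem chiGR_gc : chiGR r₁ r₂ (mq r₁ r₂ gc) = 1 := by
  rw [chiGR_mq, genH_gc, chiGG_inX]

theorem chiGR_gd : chiGR r₁ r₂ (mq r₁ r₂ gd) = 1 := by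
  rw [chiGR_mq, genH_gd, chiGG_inP, map_one]

theorem chiGR_tel (y : FreeGroup T) : chiGR r₁ r₂ (mq r₁ r₂ (tel (wd J y))) = -1 := by
  change chiGG _ _ (isoGR r₁ r₂ (mq r₁ r₂ (tel (wd J y)))) = -1
  rw [isoGR_tel]
  exact DFunLike.congr_fun (chiGG_TT (ph r₁) (ph r₂) 1 y) (-1)

end words

section orbits

variable {S : Type} (R : Set (FreeGroup S))

/-- The index of a relator in one of three copies. -/
abbrev JJ : Type := Fin 3 × R

/-- The trivial relators. -/
def ra : JJ R → FreeGroup (Fin 3 × S) := fun _ => 1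

/-- The relators in three copies. -/
def rb : JJ R → FreeGroup (Fin 3 × S) := fun j => FreeGroup.map (fun s => (j.1, s)) j.2.1

/-- The copy with index `i`. -/
def cp (i : Fin 3) : FreeGroup S →* FreeGroup (Fin 3 × S) := FreeGroup.map fun s => (i, s)

/-- The projection to the copy with index `i`. -/
def ro (i : Fin 3) : FreeGroup (Fin 3 × S) →* PresentedGroup R :=
  FreeGroup.lift fun p => if p.1 = i then PresentedGroup.of p.2 else 1

theorem ro_cp (i j : Fin 3) (w : FreeGroup S) :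
    ro R i (cp j w) = if j = i then PresentedGroup.mk R w else 1 := by
  by_cases h : j = i
  · rw [if_pos h]
    have e : (ro R i).comp (cp j) = PresentedGroup.mk R := by
      apply FreeGroup.ext_hom
      intro s
      simp only [MonoidHom.comp_apply, cp, FreeGroup.map.of, ro, FreeGroup.lift_apply_of, if_pos h]
      rfl
    exact DFunLike.congr_fun e w
  · rw [if_neg h]
    have e : (ro R i).comp (cp j) = 1 := by
      apply FreeGroup.ext_hom
      intro s
      simp only [MonoidHom.comp_apply, cp, FreeGroup.map.of, ro, FreeGroup.lift_apply_of,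
        if_neg h, MonoidHom.one_apply]
    exact DFunLike.congr_fun e w

theorem ro_pr (i : Fin 3) (u : FreeGroup ((Fin 3 × S) ⊕ JJ R)) :
    ro R i (pr (ra R) u) = ro R i (pr (rb R) u) := by
  have e : (ro R i).comp (pr (ra R)) = (ro R i).comp (pr (rb R)) := by
    apply FreeGroup.ext_hom
    intro x
    rcases x with t | j
    · rw [MonoidHom.comp_apply, MonoidHom.comp_apply, pr_inl, pr_inl]
    · rw [MonoidHom.comp_apply, MonoidHom.comp_apply, pr_inr, pr_inr]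
      have h1 : ro R i (rb R j) = if j.1 = i then PresentedGroup.mk R j.2.1 else 1 :=
        ro_cp R i j.1 j.2.1
      rw [h1, PresentedGroup.one_of_mem j.2.2, ite_self, ra, map_one]
  exact DFunLike.congr_fun e u

theorem ro_orb (i : Fin 3) {x y : FreeGroup (Fin 3 × S)}
    (h : Orb (ph (ra R)) (ph (rb R)) 1 x y) : ∃ z, ro R i y = z * ro R i x * z⁻¹ := by
  obtain ⟨⟨u, v⟩, hb, rfl⟩ := h
  have hb' : ph (rb R) (u, v) 1 = 1 := hb
  rw [ph_apply, mul_one, mul_inv_eq_one] at hb'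
  refine ⟨ro R i (pr (ra R) u), ?_⟩
  rw [ph_apply, map_mul, map_mul, map_inv]
  congr 2
  rw [ro_pr, ro_pr, hb']

/-- The four points. -/
def pt (w : FreeGroup S) : Fin 4 → FreeGroup (Fin 3 × S) := Fin.cases 1 fun i => cp i w

theorem ro_pt (w : FreeGroup S) (i : Fin 3) (j : Fin 4) :
    ro R i (pt w j) = if j = i.succ then PresentedGroup.mk R w else 1 := by
  refine Fin.cases ?_ (fun j => ?_) j
  · rw [if_neg (Fin.succ_ne_zero i).symm]
    exact map_one _
  · have h := ro_cp R i j w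
    by_cases hji : j = i
    · subst hji
      rw [if_pos rfl] at h ⊢
      exact h
    · rw [if_neg hji] at h
      rw [if_neg (fun h2 => hji (Fin.succ_injective _ h2))]
      exact h

theorem pt_orb {w : FreeGroup S} (hw : PresentedGroup.mk R w ≠ 1) (a b : Fin 4)
    (h : Orb (ph (ra R)) (ph (rb R)) 1 (pt w a) (pt w b)) : a = b := by
  by_contra hab
  have key : ∀ a b : Fin 4, Orb (ph (ra R)) (ph (rb R)) 1 (pt w a) (pt w b) → a ≠ b →
      ∀ i : Fin 3, a = i.succ → False := by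
    intro a b h hab i hi
    obtain ⟨z, hz⟩ := ro_orb R i h
    rw [ro_pt, ro_pt, if_pos hi, if_neg (fun h2 => hab (hi.trans h2.symm))] at hz
    apply hw
    have h2 : PresentedGroup.mk R w = z⁻¹ * 1 * z := by
      rw [hz]
      group
    rw [h2]
    group
  rcases Fin.eq_zero_or_eq_succ a with ha | ⟨i, ha⟩
  · rcases Fin.eq_zero_or_eq_succ b with hb | ⟨i, hb⟩
    · exact hab (ha.trans hb.symm)
    · exact key b a (Orb_symm h) (Ne.symm hab) i hb
  · exact key a b h hab i ha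

theorem orb_pt {w : FreeGroup S} (hw : PresentedGroup.mk R w = 1) (j : Fin 4) :
    Orb (ph (ra R)) (ph (rb R)) 1 1 (pt w j) := by
  refine Fin.cases ?_ (fun i => ?_) j
  · refine ⟨1, one_mem _, ?_⟩
    rw [map_one (ph (ra R))]
    rfl
  · have hs : Function.Surjective (pr (ra R)) := fun y => ⟨sg _ y, pr_sg _ y⟩
    let N : Subgroup (FreeGroup (Fin 3 × S)) := (pr (rb R)).ker.map (pr (ra R))
    have hN : N.Normal := Subgroup.Normal.map inferInstance _ hs
    have hle : Subgroup.normalClosure R ≤ N.comap (cp i) := by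
      apply Subgroup.normalClosure_le_normal
      intro r hr
      refine ⟨(FreeGroup.of (Sum.inr ((i, ⟨r, hr⟩) : JJ R)))⁻¹ * sg _ (cp i r), ?_, ?_⟩
      · change pr (rb R) _ = 1
        rw [map_mul, map_inv, pr_inr, pr_sg]
        exact inv_mul_cancel _
      · rw [map_mul, map_inv, pr_inr, pr_sg, ra, inv_one, one_mul]
    have hmem : w ∈ Subgroup.normalClosure R := PresentedGroup.mk_eq_one_iff.1 hw
    obtain ⟨u, hu1, hu2⟩ := hle hmem
    have hu1' : pr (rb R) u = 1 := hu1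
    refine ⟨(u, 1), ?_, ?_⟩
    · change ph (rb R) (u, 1) 1 = 1
      rw [ph_apply, hu1', map_one, inv_one, mul_one, mul_one]
    · rw [ph_apply, hu2, map_one, inv_one, mul_one, mul_one]
      rfl

end orbits

end Pool.Agent.RG
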