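import Pool.Agent.RG.Concrete

/-!
# A finite presentation of the amalgamated product
-/

namespace Pool.Agent.RG

open Pool.Agent.D4 Pool.Agent.FG

variable {T J : Type}

/-- The generators of `F × F`. -/
abbrev SS (T J : Type) : Type := (T ⊕ J) ⊕ (T ⊕ J)

/-- The relators: `F × F` in two copies commuting with each other, `a`, `c`, `d` of order two,
commuting with each other, `a` commuting with the second copy and with the generators of the
stabilizer for `r₁`, `d` commuting with the first copy and with the generators of the stabilizer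
for `r₂`, and `c` commuting with the diagonal. -/
def rrels (r₁ r₂ : J → FreeGroup T) : Set (FreeGroup (Gn (SS T J))) :=
  (Set.range fun p : (T ⊕ J) × (T ⊕ J) =>
    cm (g1 (FreeGroup.of (Sum.inl p.1))) (g1 (FreeGroup.of (Sum.inr p.2)))) ∪
  (Set.range fun p : (T ⊕ J) × (T ⊕ J) =>
    cm (g2 (FreeGroup.of (Sum.inl p.1))) (g2 (FreeGroup.of (Sum.inr p.2)))) ∪
  (Set.range fun p : SS T J × SS T J =>
    cm (g1 (FreeGroup.of p.1)) (g2 (FreeGroup.of p.2))) ∪
  {ga * ga, gc * gc, gd * gd, cm ga gd, cm gc ga, cm gc gd} ∪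
  (Set.range fun x : SS T J => cm ga (g2 (FreeGroup.of x))) ∪
  (Set.range fun x : SS T J => cm gd (g1 (FreeGroup.of x))) ∪
  (Set.range fun x : SS T J => cm gc (g1 (FreeGroup.of x) * g2 (FreeGroup.of x))) ∪
  (Set.range fun x : T ⊕ J =>
    cm ga (g1 (FreeGroup.of (Sum.inl x)) * g1 (FreeGroup.of (Sum.inr x)))) ∪
  (Set.range fun x : T ⊕ J =>
    cm gd (g2 (FreeGroup.of (Sum.inl x)) * g2 (FreeGroup.of (Sum.inr x)))) ∪
  (Set.range fun j : J =>
    cm ga (g1 (FreeGroup.map Sum.inl (FreeGroup.of (Sum.inr j) * (sg J (r₁ j))⁻¹)))) ∪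
  (Set.range fun j : J =>
    cm gd (g2 (FreeGroup.map Sum.inl (FreeGroup.of (Sum.inr j) * (sg J (r₂ j))⁻¹))))

theorem rrels_finite [Finite T] [Finite J] (r₁ r₂ : J → FreeGroup T) : (rrels r₁ r₂).Finite := by
  unfold rrels
  refine Set.Finite.union (Set.Finite.union (Set.Finite.union (Set.Finite.union (Set.Finite.union
    (Set.Finite.union (Set.Finite.union (Set.Finite.union (Set.Finite.union
    (Set.Finite.union ?_ ?_) ?_) ?_) ?_) ?_) ?_) ?_) ?_) ?_) ?_
  · exact Set.finite_range _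
  · exact Set.finite_range _
  · exact Set.finite_range _
  · exact Set.toFinite _
  · exact Set.finite_range _
  · exact Set.finite_range _
  · exact Set.finite_range _
  · exact Set.finite_range _
  · exact Set.finite_range _
  · exact Set.finite_range _
  · exact Set.finite_range _

/-- A homomorphism from the free group killing the relators. -/
theorem rrels_one {H : Type} [Group H] (r₁ r₂ : J → FreeGroup T)
    (f : FreeGroup (Gn (SS T J)) →* H)
    (h1 : ∀ s t, Commute (f (g1 (FreeGroup.of (Sum.inl s)))) (f (g1 (FreeGroup.of (Sum.inr t)))))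
    (h2 : ∀ s t, Commute (f (g2 (FreeGroup.of (Sum.inl s)))) (f (g2 (FreeGroup.of (Sum.inr t)))))
    (h3 : ∀ s t, Commute (f (g1 (FreeGroup.of s))) (f (g2 (FreeGroup.of t))))
    (h4 : f ga * f ga = 1) (h5 : f gc * f gc = 1) (h6 : f gd * f gd = 1)
    (h7 : Commute (f ga) (f gd)) (h8 : Commute (f gc) (f ga)) (h9 : Commute (f gc) (f gd))
    (h10 : ∀ s, Commute (f ga) (f (g2 (FreeGroup.of s))))
    (h11 : ∀ s, Commute (f gd) (f (g1 (FreeGroup.of s))))
    (h12 : ∀ s, Commute (f gc) (f (g1 (FreeGroup.of s)) * f (g2 (FreeGroup.of s))))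
    (h13 : ∀ x, Commute (f ga)
      (f (g1 (FreeGroup.of (Sum.inl x))) * f (g1 (FreeGroup.of (Sum.inr x)))))
    (h14 : ∀ x, Commute (f gd)
      (f (g2 (FreeGroup.of (Sum.inl x))) * f (g2 (FreeGroup.of (Sum.inr x)))))
    (h15 : ∀ j, Commute (f ga)
      (f (g1 (FreeGroup.map Sum.inl (FreeGroup.of (Sum.inr j) * (sg J (r₁ j))⁻¹)))))
    (h16 : ∀ j, Commute (f gd)
      (f (g2 (FreeGroup.map Sum.inl (FreeGroup.of (Sum.inr j) * (sg J (r₂ j))⁻¹))))) :
    ∀ r ∈ rrels r₁ r₂, f r = 1 := by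
  rintro r ((((((((((⟨p, rfl⟩ | ⟨p, rfl⟩) | ⟨p, rfl⟩) | hr) | ⟨s, rfl⟩) | ⟨s, rfl⟩) | ⟨s, rfl⟩) |
    ⟨s, rfl⟩) | ⟨s, rfl⟩) | ⟨s, rfl⟩) | ⟨s, rfl⟩)
  · simp only [map_cm]
    exact cm_eq_one.2 (h1 _ _)
  · simp only [map_cm]
    exact cm_eq_one.2 (h2 _ _)
  · simp only [map_cm]
    exact cm_eq_one.2 (h3 _ _)
  · simp only [Set.mem_insert_iff, Set.mem_singleton_iff] at hr
    rcases hr with rfl | rfl | rfl | rfl | rfl | rfl
    · rw [map_mul, h4]
    · rw [map_mul, h5]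
    · rw [map_mul, h6]
    · rw [map_cm]
      exact cm_eq_one.2 h7
    · rw [map_cm]
      exact cm_eq_one.2 h8
    · rw [map_cm]
      exact cm_eq_one.2 h9
  · simp only [map_cm]
    exact cm_eq_one.2 (h10 s)
  · simp only [map_cm]
    exact cm_eq_one.2 (h11 s)
  · simp only [map_cm, map_mul]
    exact cm_eq_one.2 (h12 s)
  · simp only [map_cm, map_mul]
    exact cm_eq_one.2 (h13 s)
  · simp only [map_cm, map_mul]
    exact cm_eq_one.2 (h14 s)
  · have h := h15 s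
    exact (map_cm f _ _).trans (cm_eq_one.2 h)
  · have h := h16 s
    exact (map_cm f _ _).trans (cm_eq_one.2 h)

theorem commute_free {A H : Type} [Group H] {f : FreeGroup A →* H} {h : H}
    (h1 : ∀ a, Commute h (f (FreeGroup.of a))) (x : FreeGroup A) : Commute h (f x) := by
  apply commute_of_comp
  ext a
  exact conj_eq_of_commute (h1 a)

section homs

variable (r₁ r₂ : J → FreeGroup T)

/-- The group. -/
abbrev GR : Type := PresentedGroup (rrels r₁ r₂)

/-- The quotient map. -/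
def mq : FreeGroup (Gn (SS T J)) →* GR r₁ r₂ := PresentedGroup.mk (rrels r₁ r₂)

theorem mq_one {r : FreeGroup (Gn (SS T J))} (h : r ∈ rrels r₁ r₂) : mq r₁ r₂ r = 1 :=
  PresentedGroup.one_of_mem h

theorem mq_comm {x y : FreeGroup (Gn (SS T J))} (h : cm x y ∈ rrels r₁ r₂) :
    Commute (mq r₁ r₂ x) (mq r₁ r₂ y) := by
  have h1 := mq_one r₁ r₂ h
  rw [map_cm] at h1
  exact cm_eq_one.1 h1

theorem letters1 (s t : T ⊕ J) : Commute (mq r₁ r₂ (g1 (FreeGroup.of (Sum.inl s))))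
    (mq r₁ r₂ (g1 (FreeGroup.of (Sum.inr t)))) :=
  mq_comm r₁ r₂ (Or.inl (Or.inl (Or.inl (Or.inl (Or.inl (Or.inl (Or.inl (Or.inl (Or.inl (Or.inl
    ⟨(s, t), rfl⟩))))))))))

theorem letters2 (s t : T ⊕ J) : Commute (mq r₁ r₂ (g2 (FreeGroup.of (Sum.inl s))))
    (mq r₁ r₂ (g2 (FreeGroup.of (Sum.inr t)))) :=
  mq_comm r₁ r₂ (Or.inl (Or.inl (Or.inl (Or.inl (Or.inl (Or.inl (Or.inl (Or.inl (Or.inl (Or.inr
    ⟨(s, t), rfl⟩))))))))))

theorem letters12 (s t : SS T J) : Commute (mq r₁ r₂ (g1 (FreeGroup.of s)))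
    (mq r₁ r₂ (g2 (FreeGroup.of t))) :=
  mq_comm r₁ r₂ (Or.inl (Or.inl (Or.inl (Or.inl (Or.inl (Or.inl (Or.inl (Or.inl (Or.inr
    ⟨(s, t), rfl⟩)))))))))

theorem mem_six' {r : FreeGroup (Gn (SS T J))}
    (h : r ∈ ({ga * ga, gc * gc, gd * gd, cm ga gd, cm gc ga, cm gc gd} :
      Set (FreeGroup (Gn (SS T J))))) : r ∈ rrels r₁ r₂ :=
  Or.inl (Or.inl (Or.inl (Or.inl (Or.inl (Or.inl (Or.inl (Or.inr h)))))))

theorem letters_a2 (s : SS T J) : Commute (mq r₁ r₂ ga) (mq r₁ r₂ (g2 (FreeGroup.of s))) :=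
  mq_comm r₁ r₂ (Or.inl (Or.inl (Or.inl (Or.inl (Or.inl (Or.inl (Or.inr ⟨s, rfl⟩)))))))

theorem letters_d1 (s : SS T J) : Commute (mq r₁ r₂ gd) (mq r₁ r₂ (g1 (FreeGroup.of s))) :=
  mq_comm r₁ r₂ (Or.inl (Or.inl (Or.inl (Or.inl (Or.inl (Or.inr ⟨s, rfl⟩))))))

theorem letters_c12 (s : SS T J) : Commute (mq r₁ r₂ gc)
    (mq r₁ r₂ (g1 (FreeGroup.of s) * g2 (FreeGroup.of s))) :=
  mq_comm r₁ r₂ (Or.inl (Or.inl (Or.inl (Or.inl (Or.inr ⟨s, rfl⟩)))))

theorem letters_aA (x : T ⊕ J) : Commute (mq r₁ r₂ ga)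
    (mq r₁ r₂ (g1 (FreeGroup.of (Sum.inl x)) * g1 (FreeGroup.of (Sum.inr x)))) :=
  mq_comm r₁ r₂ (Or.inl (Or.inl (Or.inl (Or.inr ⟨x, rfl⟩))))

theorem letters_dD (x : T ⊕ J) : Commute (mq r₁ r₂ gd)
    (mq r₁ r₂ (g2 (FreeGroup.of (Sum.inl x)) * g2 (FreeGroup.of (Sum.inr x)))) :=
  mq_comm r₁ r₂ (Or.inl (Or.inl (Or.inr ⟨x, rfl⟩)))

theorem letters_aJ (j : J) : Commute (mq r₁ r₂ ga)
    (mq r₁ r₂ (g1 (FreeGroup.map Sum.inl (FreeGroup.of (Sum.inr j) * (sg J (r₁ j))⁻¹)))) :=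
  mq_comm r₁ r₂ (Or.inl (Or.inr ⟨j, rfl⟩))

theorem letters_dJ (j : J) : Commute (mq r₁ r₂ gd)
    (mq r₁ r₂ (g2 (FreeGroup.map Sum.inl (FreeGroup.of (Sum.inr j) * (sg J (r₂ j))⁻¹)))) :=
  mq_comm r₁ r₂ (Or.inr ⟨j, rfl⟩)

/-- The first copy of `F × F`. -/
def k1 : KK T J →* GR r₁ r₂ :=
  MonoidHom.noncommCoprod (((mq r₁ r₂).comp g1).comp (FreeGroup.map Sum.inl))
    (((mq r₁ r₂).comp g1).comp (FreeGroup.map Sum.inr)) (by
      intro u v
      apply commute_free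
      intro t
      apply Commute.symm
      apply commute_free
      intro s
      simp only [MonoidHom.comp_apply, FreeGroup.map.of]
      exact (letters1 r₁ r₂ s t).symm)

/-- The second copy of `F × F`. -/
def k2 : KK T J →* GR r₁ r₂ :=
  MonoidHom.noncommCoprod (((mq r₁ r₂).comp g2).comp (FreeGroup.map Sum.inl))
    (((mq r₁ r₂).comp g2).comp (FreeGroup.map Sum.inr)) (by
      intro u v
      apply commute_free
      intro t
      apply Commute.symm
      apply commute_free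
      intro s
      simp only [MonoidHom.comp_apply, FreeGroup.map.of]
      exact (letters2 r₁ r₂ s t).symm)

theorem k1_apply (u v : FreeGroup (T ⊕ J)) : k1 r₁ r₂ (u, v) =
    mq r₁ r₂ (g1 (FreeGroup.map Sum.inl u * FreeGroup.map Sum.inr v)) := by
  rw [map_mul, map_mul]
  rfl

theorem k2_apply (u v : FreeGroup (T ⊕ J)) : k2 r₁ r₂ (u, v) =
    mq r₁ r₂ (g2 (FreeGroup.map Sum.inl u * FreeGroup.map Sum.inr v)) := by
  rw [map_mul, map_mul]
  rfl

/-- The generator of `F × F` with a given index. -/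
def kl : SS T J → KK T J := Sum.elim (fun x => (FreeGroup.of x, 1)) fun x => (1, FreeGroup.of x)

theorem k1_kl (s : SS T J) : k1 r₁ r₂ (kl s) = mq r₁ r₂ (g1 (FreeGroup.of s)) := by
  rcases s with s | s
  · change k1 r₁ r₂ (FreeGroup.of s, 1) = _
    rw [k1_apply, map_one, mul_one, FreeGroup.map.of]
  · change k1 r₁ r₂ (1, FreeGroup.of s) = _
    rw [k1_apply, map_one, one_mul, FreeGroup.map.of]

theorem k2_kl (s : SS T J) : k2 r₁ r₂ (kl s) = mq r₁ r₂ (g2 (FreeGroup.of s)) := by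
  rcases s with s | s
  · change k2 r₁ r₂ (FreeGroup.of s, 1) = _
    rw [k2_apply, map_one, mul_one, FreeGroup.map.of]
  · change k2 r₁ r₂ (1, FreeGroup.of s) = _
    rw [k2_apply, map_one, one_mul, FreeGroup.map.of]

theorem KK_ext' {H : Type} [Group H] {f g : KK T J →* H} (h : ∀ s, f (kl s) = g (kl s)) : f = g :=
  KK_ext (fun x => h (Sum.inl x)) fun x => h (Sum.inr x)

theorem commute_KK {H : Type} [Group H] {f : KK T J →* H} {h : H}
    (h1 : ∀ s, Commute h (f (kl s))) (x : KK T J) : Commute h (f x) :=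
  commute_of_comp (KK_ext' fun s => conj_eq_of_commute (h1 s)) x

/-- The generator `a`. -/
def xa : GR r₁ r₂ := mq r₁ r₂ ga
/-- The generator `c`. -/
def xc : GR r₁ r₂ := mq r₁ r₂ gc
/-- The generator `d`. -/
def xd : GR r₁ r₂ := mq r₁ r₂ gd

theorem xa_sq : xa r₁ r₂ * xa r₁ r₂ = 1 := by
  rw [xa, ← map_mul]
  exact mq_one r₁ r₂ (mem_six' r₁ r₂ (by simp))

theorem xc_sq : xc r₁ r₂ * xc r₁ r₂ = 1 := by
  rw [xc, ← map_mul]
  exact mq_one r₁ r₂ (mem_six' r₁ r₂ (by simp))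

theorem xd_sq : xd r₁ r₂ * xd r₁ r₂ = 1 := by
  rw [xd, ← map_mul]
  exact mq_one r₁ r₂ (mem_six' r₁ r₂ (by simp))

theorem comm_ad' : Commute (xa r₁ r₂) (xd r₁ r₂) := mq_comm r₁ r₂ (mem_six' r₁ r₂ (by simp))

theorem comm_ca' : Commute (xc r₁ r₂) (xa r₁ r₂) := mq_comm r₁ r₂ (mem_six' r₁ r₂ (by simp))

theorem comm_cd' : Commute (xc r₁ r₂) (xd r₁ r₂) := mq_comm r₁ r₂ (mem_six' r₁ r₂ (by simp))

theorem comm_12' (p q : KK T J) : Commute (k1 r₁ r₂ p) (k2 r₁ r₂ q) := by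
  apply commute_KK
  intro t
  apply Commute.symm
  apply commute_KK
  intro s
  rw [k1_kl, k2_kl]
  exact (letters12 r₁ r₂ s t).symm

theorem comm_a2' (q : KK T J) : Commute (xa r₁ r₂) (k2 r₁ r₂ q) := by
  apply commute_KK
  intro t
  rw [k2_kl]
  exact letters_a2 r₁ r₂ t

theorem comm_d1' (q : KK T J) : Commute (xd r₁ r₂) (k1 r₁ r₂ q) := by
  apply commute_KK
  intro t
  rw [k1_kl]
  exact letters_d1 r₁ r₂ t

theorem comm_c12' (q : KK T J) : Commute (xc r₁ r₂) (k1 r₁ r₂ q * k2 r₁ r₂ q) := by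
  have h := commute_KK (f := (MonoidHom.noncommCoprod (k1 r₁ r₂) (k2 r₁ r₂) (comm_12' r₁ r₂)).comp
    ((MonoidHom.id _).prod (MonoidHom.id _))) (h := xc r₁ r₂) (by
      intro s
      change Commute _ (k1 r₁ r₂ (kl s) * k2 r₁ r₂ (kl s))
      rw [k1_kl, k2_kl, ← map_mul]
      exact letters_c12 r₁ r₂ s) q
  exact h

theorem stab_a (p : KK T J) (hp : ph r₁ p 1 = 1) : Commute (xa r₁ r₂) (k1 r₁ r₂ p) := by
  apply stab_commute r₁ (k1 r₁ r₂) (xa r₁ r₂) _ _ p hp
  · intro x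
    rw [k1_apply, FreeGroup.map.of, FreeGroup.map.of, map_mul]
    exact letters_aA r₁ r₂ x
  · intro j
    rw [k1_apply, map_one, mul_one]
    exact letters_aJ r₁ r₂ j

theorem stab_d (p : KK T J) (hp : ph r₂ p 1 = 1) : Commute (xd r₁ r₂) (k2 r₁ r₂ p) := by
  apply stab_commute r₂ (k2 r₁ r₂) (xd r₁ r₂) _ _ p hp
  · intro x
    rw [k2_apply, FreeGroup.map.of, FreeGroup.map.of, map_mul]
    exact letters_dD r₁ r₂ x
  · intro j
    rw [k2_apply, map_one, mul_one]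
    exact letters_dJ r₁ r₂ j

/-- The homomorphism from `D (ph r₁)`. -/
noncomputable def kU : D (ph r₁) →* GR r₁ r₂ :=
  liftD (ph r₁) 1 (ph_trans r₁) (k1 r₁ r₂) (D4.signHom (xa r₁ r₂) (xa_sq r₁ r₂))
    fun p hp u => commute_sign _ (stab_a r₁ r₂ p hp).symm u

/-- The homomorphism from `D (ph r₂)`. -/
noncomputable def kV : D (ph r₂) →* GR r₁ r₂ :=
  liftD (ph r₂) 1 (ph_trans r₂) (k2 r₁ r₂) (D4.signHom (xd r₁ r₂) (xd_sq r₁ r₂))
    fun p hp u => commute_sign _ (stab_d r₁ r₂ p hp).symm u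

theorem kU_inP (p : KK T J) : kU r₁ r₂ (inP _ p) = k1 r₁ r₂ p :=
  liftD_inP _ _ _ _ _ _ _

theorem kV_inP (p : KK T J) : kV r₁ r₂ (inP _ p) = k2 r₁ r₂ p :=
  liftD_inP _ _ _ _ _ _ _

theorem kU_one : kU r₁ r₂ (inX _ (gx 1 (-1))) = xa r₁ r₂ :=
  (liftD_inX' _ _ _ _ _ _ _).trans (sign_neg_one _)

theorem kV_one : kV r₁ r₂ (inX _ (gx 1 (-1))) = xd r₁ r₂ :=
  (liftD_inX' _ _ _ _ _ _ _).trans (sign_neg_one _)

theorem comm_UV (u : D (ph r₁)) (v : D (ph r₂)) : Commute (kU r₁ r₂ u) (kV r₁ r₂ v) := by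
  apply commute_D (ph r₂) 1 (ph_trans r₂)
  · intro q
    apply Commute.symm
    apply commute_D (ph r₁) 1 (ph_trans r₁)
    · intro p
      rw [kU_inP, kV_inP]
      exact (comm_12' r₁ r₂ p q).symm
    · rw [kU_one, kV_inP]
      exact (comm_a2' r₁ r₂ q).symm
  · apply Commute.symm
    apply commute_D (ph r₁) 1 (ph_trans r₁)
    · intro p
      rw [kU_inP, kV_one]
      exact comm_d1' r₁ r₂ p
    · rw [kU_one, kV_one]
      exact (comm_ad' r₁ r₂).symm

/-- The homomorphism from the product. -/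
noncomputable def kUV : D (ph r₁) × D (ph r₂) →* GR r₁ r₂ :=
  MonoidHom.noncommCoprod (kU r₁ r₂) (kV r₁ r₂) (comm_UV r₁ r₂)

theorem kUV_apply (u : D (ph r₁)) (v : D (ph r₂)) :
    kUV r₁ r₂ (u, v) = kU r₁ r₂ u * kV r₁ r₂ v := rfl

theorem kUV_stab (p : D (ph r₁) × D (ph r₂)) (hp : act2 (ph r₁) (ph r₂) p 1 = 1) :
    Commute (xc r₁ r₂) (kUV r₁ r₂ p) := by
  obtain ⟨x, rfl⟩ := exists_stab_act2 _ _ p hp
  have h : ∀ x, Commute (xc r₁ r₂) (((kUV r₁ r₂).comp (iE (ph r₁) (ph r₂))) x) := by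
    apply commute_D (act' (ph r₁) (ph r₂)) 1 (trans_act' _ _ _ (ph_trans r₂))
    · intro u
      have h2 : ∀ u, Commute (xc r₁ r₂)
          ((((kUV r₁ r₂).comp (iE (ph r₁) (ph r₂))).comp (inP (act' (ph r₁) (ph r₂)))) u) := by
        apply commute_D (ph r₁) 1 (ph_trans r₁)
        · intro p
          rw [MonoidHom.comp_apply, MonoidHom.comp_apply, iE_inP, kUV_apply, toP_inP, kU_inP,
            kV_inP]
          exact comm_c12' r₁ r₂ p
        · rw [MonoidHom.comp_apply, MonoidHom.comp_apply, iE_inP, kUV_apply, toP_inX, kU_one,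
            map_one, map_one, mul_one]
          exact comm_ca' r₁ r₂
      exact h2 u
    · rw [MonoidHom.comp_apply, iE_inX, kUV_apply, map_one, one_mul, kV_one]
      exact comm_cd' r₁ r₂
  exact h x

/-- The homomorphism to the presented group. -/
noncomputable def toGR : GG (ph r₁) (ph r₂) →* GR r₁ r₂ :=
  liftD (act2 (ph r₁) (ph r₂)) 1 (trans_act2 _ _) (kUV r₁ r₂)
    (D4.signHom (xc r₁ r₂) (xc_sq r₁ r₂))
    fun p hp u => commute_sign _ (kUV_stab r₁ r₂ p hp).symm u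

theorem toGR_inP (p : D (ph r₁) × D (ph r₂)) : toGR r₁ r₂ (inP _ p) = kUV r₁ r₂ p :=
  liftD_inP _ _ _ _ _ _ _

theorem toGR_one : toGR r₁ r₂ (inX _ (gx 1 (-1))) = xc r₁ r₂ :=
  (liftD_inX' _ _ _ _ _ _ _).trans (sign_neg_one _)

/-- The images of the generators in the amalgamated product. -/
def gen : Gn (SS T J) → GG (ph r₁) (ph r₂)
  | Sum.inl (Sum.inl s) => inP _ (inP _ (kl s), 1)
  | Sum.inl (Sum.inr s) => inP _ (1, inP _ (kl s))
  | Sum.inr i => if i = 0 then inP _ (inX _ (gx 1 (-1)), 1) else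
      if i = 1 then inX _ (gx 1 (-1)) else inP _ (1, inX _ (gx 1 (-1)))

/-- The homomorphism from the free group. -/
def genH : FreeGroup (Gn (SS T J)) →* GG (ph r₁) (ph r₂) := FreeGroup.lift (gen r₁ r₂)

/-- The homomorphism from the free group to `F × F`. -/
def kh : FreeGroup (SS T J) →* KK T J := FreeGroup.lift kl

theorem kh_of (s : SS T J) : kh (FreeGroup.of s) = kl s := FreeGroup.lift_apply_of

theorem kh_inl (u : FreeGroup (T ⊕ J)) : kh (FreeGroup.map Sum.inl u) = (u, 1) := by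
  have h : (kh (T := T) (J := J)).comp (FreeGroup.map Sum.inl) = MonoidHom.inl _ _ := by
    ext x
    · simp [kh, kl]
    · simp [kh, kl]
  exact DFunLike.congr_fun h u

theorem genH_g1 (y : FreeGroup (SS T J)) : genH r₁ r₂ (g1 y) = inP _ (inP _ (kh y), 1) := by
  have h : (genH r₁ r₂).comp g1 = ((inP _).comp ((MonoidHom.inl _ _).comp (inP _))).comp kh := by
    apply FreeGroup.ext_hom
    intro x
    simp only [MonoidHom.comp_apply, g1, FreeGroup.map.of, genH, FreeGroup.lift_apply_of, gen, kh]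
    rfl
  exact DFunLike.congr_fun h y

theorem genH_g2 (y : FreeGroup (SS T J)) : genH r₁ r₂ (g2 y) = inP _ (1, inP _ (kh y)) := by
  have h : (genH r₁ r₂).comp g2 = ((inP _).comp ((MonoidHom.inr _ _).comp (inP _))).comp kh := by
    apply FreeGroup.ext_hom
    intro x
    simp only [MonoidHom.comp_apply, g2, FreeGroup.map.of, genH, FreeGroup.lift_apply_of, gen, kh]
    rfl
  exact DFunLike.congr_fun h y

theorem genH_ga : genH r₁ r₂ ga = inP _ (inX _ (gx 1 (-1)), 1) := by simp [genH, ga, gen]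

theorem genH_gc : genH r₁ r₂ gc = inX _ (gx 1 (-1)) := by simp [genH, gc, gen]

theorem genH_gd : genH r₁ r₂ gd = inP _ (1, inX _ (gx 1 (-1))) := by simp [genH, gd, gen]

theorem gx_sq {X : Type} (x : X) : gx x (-1) * gx x (-1) = 1 := by
  rw [← map_mul]
  simp

theorem pair_comm {M N : Type} [Group M] [Group N] (x : M) (y : N) :
    Commute ((x, 1) : M × N) ((1, y) : M × N) := by
  change (x, 1) * (1, y) = (1, y) * (x, 1)
  simp

theorem pair_left {M N : Type} [Group M] [Group N] {x y : M} (h : Commute x y) :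
    Commute ((x, 1) : M × N) ((y, 1) : M × N) := h.map (MonoidHom.inl M N)

theorem pair_right {M N : Type} [Group M] [Group N] {x y : N} (h : Commute x y) :
    Commute ((1, x) : M × N) ((1, y) : M × N) := h.map (MonoidHom.inr M N)

theorem ph_diag (r : J → FreeGroup T) (f : FreeGroup (T ⊕ J)) : ph r (f, f) 1 = 1 := by
  rw [ph_apply, mul_one, mul_inv_cancel]

theorem ph_rel (r : J → FreeGroup T) (j : J) :
    ph r (FreeGroup.of (Sum.inr j) * (sg J (r j))⁻¹, 1) 1 = 1 := by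
  rw [ph_apply, map_mul, map_inv, pr_inr, pr_sg, mul_inv_cancel, map_one, inv_one, mul_one,
    mul_one]

theorem gen_rel : ∀ r ∈ rrels r₁ r₂, genH r₁ r₂ r = 1 := by
  have hc : ∀ p : D (ph r₁) × D (ph r₂), act2 (ph r₁) (ph r₂) p 1 = 1 →
      Commute (inX (act2 (ph r₁) (ph r₂)) (gx 1 (-1))) (inP _ p) := fun p hp =>
    (commute_stab (act2 (ph r₁) (ph r₂)) hp (-1)).symm
  apply rrels_one
  · intro s t
    rw [genH_g1, genH_g1, kh_of, kh_of]
    exact ((pair_left ((pair_comm (FreeGroup.of s) (FreeGroup.of t)).map (inP (ph r₁))))).map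
      (inP (act2 (ph r₁) (ph r₂)))
  · intro s t
    rw [genH_g2, genH_g2, kh_of, kh_of]
    exact ((pair_right ((pair_comm (FreeGroup.of s) (FreeGroup.of t)).map (inP (ph r₂))))).map
      (inP (act2 (ph r₁) (ph r₂)))
  · intro s t
    rw [genH_g1, genH_g2]
    exact (pair_comm _ _).map _
  · rw [genH_ga, ← map_mul, Prod.mk_mul_mk, ← map_mul, gx_sq, map_one, mul_one]
    exact map_one _
  · rw [genH_gc, ← map_mul, gx_sq, map_one]
  · rw [genH_gd, ← map_mul, Prod.mk_mul_mk, ← map_mul, gx_sq, map_one, mul_one]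
    exact map_one _
  · rw [genH_ga, genH_gd]
    exact (pair_comm _ _).map _
  · rw [genH_gc, genH_ga]
    apply hc
    rw [act2_apply, toP_inX, map_one, inv_one, mul_one, mul_one]
  · rw [genH_gc, genH_gd]
    apply hc
    rw [act2_apply, toP_inX, map_one, inv_one, mul_one, mul_one]
  · intro s
    rw [genH_ga, genH_g2]
    exact (pair_comm _ _).map _
  · intro s
    rw [genH_gd, genH_g1]
    exact (pair_comm _ _).symm.map _
  · intro s
    rw [genH_gc, genH_g1, genH_g2, ← map_mul]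
    apply hc
    rw [Prod.mk_mul_mk, mul_one, one_mul, act2_apply, toP_inP, toP_inP, mul_one, mul_inv_cancel]
  · intro x
    rw [genH_ga, genH_g1, genH_g1, ← map_mul, Prod.mk_mul_mk, mul_one, ← map_mul, kh_of, kh_of]
    refine (pair_left ?_).map (inP (act2 (ph r₁) (ph r₂)))
    have e : (kl (Sum.inl x) * kl (Sum.inr x) : KK T J) = (FreeGroup.of x, FreeGroup.of x) := by
      simp [kl]
    rw [e]
    exact (commute_stab (ph r₁) (ph_diag r₁ _) (-1)).symm
  · intro x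
    rw [genH_gd, genH_g2, genH_g2, ← map_mul, Prod.mk_mul_mk, mul_one, ← map_mul, kh_of, kh_of]
    refine (pair_right ?_).map (inP (act2 (ph r₁) (ph r₂)))
    have e : (kl (Sum.inl x) * kl (Sum.inr x) : KK T J) = (FreeGroup.of x, FreeGroup.of x) := by
      simp [kl]
    rw [e]
    exact (commute_stab (ph r₂) (ph_diag r₂ _) (-1)).symm
  · intro j
    rw [genH_ga, genH_g1, kh_inl]
    exact (pair_left (commute_stab (ph r₁) (ph_rel r₁ j) (-1)).symm).map
      (inP (act2 (ph r₁) (ph r₂)))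
  · intro j
    rw [genH_gd, genH_g2, kh_inl]
    exact (pair_right (commute_stab (ph r₂) (ph_rel r₂ j) (-1)).symm).map
      (inP (act2 (ph r₁) (ph r₂)))

/-- The homomorphism from the presented group. -/
def ofGR : GR r₁ r₂ →* GG (ph r₁) (ph r₂) := PresentedGroup.toGroup (gen_rel r₁ r₂)

theorem ofGR_mq (y : FreeGroup (Gn (SS T J))) : ofGR r₁ r₂ (mq r₁ r₂ y) = genH r₁ r₂ y := by
  have h : (ofGR r₁ r₂).comp (mq r₁ r₂) = genH r₁ r₂ := by
    apply FreeGroup.ext_hom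
    intro x
    rw [MonoidHom.comp_apply, genH, FreeGroup.lift_apply_of]
    exact PresentedGroup.toGroup.of _
  exact DFunLike.congr_fun h y

theorem ofGR_k1 (p : KK T J) : ofGR r₁ r₂ (k1 r₁ r₂ p) = inP _ (inP _ p, 1) := by
  have h : (ofGR r₁ r₂).comp (k1 r₁ r₂) = (inP _).comp ((MonoidHom.inl _ _).comp (inP _)) := by
    apply KK_ext'
    intro s
    rw [MonoidHom.comp_apply, k1_kl, ofGR_mq, genH_g1, kh_of]
    rfl
  exact DFunLike.congr_fun h p

theorem ofGR_k2 (p : KK T J) : ofGR r₁ r₂ (k2 r₁ r₂ p) = inP _ (1, inP _ p) := by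
  have h : (ofGR r₁ r₂).comp (k2 r₁ r₂) = (inP _).comp ((MonoidHom.inr _ _).comp (inP _)) := by
    apply KK_ext'
    intro s
    rw [MonoidHom.comp_apply, k2_kl, ofGR_mq, genH_g2, kh_of]
    rfl
  exact DFunLike.congr_fun h p

theorem of_toGR : (ofGR r₁ r₂).comp (toGR r₁ r₂) = MonoidHom.id _ := by
  apply D_ext' (act2 (ph r₁) (ph r₂)) 1 (trans_act2 _ _)
  · intro p
    have h1 : (((ofGR r₁ r₂).comp (toGR r₁ r₂)).comp (inP _)).comp (MonoidHom.inl _ _) =
        (inP (act2 (ph r₁) (ph r₂))).comp (MonoidHom.inl _ _) := by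
      apply D_ext' (ph r₁) 1 (ph_trans r₁)
      · intro q
        change ofGR r₁ r₂ (toGR r₁ r₂ (inP _ (inP _ q, 1))) = inP _ (inP _ q, 1)
        rw [toGR_inP, kUV_apply, map_one, mul_one, kU_inP, ofGR_k1]
      · intro u
        rcases Int.units_eq_one_or u with rfl | rfl
        · rw [map_one, map_one, map_one, map_one]
        · change ofGR r₁ r₂ (toGR r₁ r₂ (inP _ (inX _ (gx 1 (-1)), 1))) =
            inP _ (inX _ (gx 1 (-1)), 1)
          rw [toGR_inP, kUV_apply, map_one, mul_one, kU_one, xa, ofGR_mq, genH_ga]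
    have h2 : (((ofGR r₁ r₂).comp (toGR r₁ r₂)).comp (inP _)).comp (MonoidHom.inr _ _) =
        (inP (act2 (ph r₁) (ph r₂))).comp (MonoidHom.inr _ _) := by
      apply D_ext' (ph r₂) 1 (ph_trans r₂)
      · intro q
        change ofGR r₁ r₂ (toGR r₁ r₂ (inP _ (1, inP _ q))) = inP _ (1, inP _ q)
        rw [toGR_inP, kUV_apply, map_one, one_mul, kV_inP, ofGR_k2]
      · intro u
        rcases Int.units_eq_one_or u with rfl | rfl
        · rw [map_one, map_one, map_one, map_one]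
        · change ofGR r₁ r₂ (toGR r₁ r₂ (inP _ (1, inX _ (gx 1 (-1))))) =
            inP _ (1, inX _ (gx 1 (-1)))
          rw [toGR_inP, kUV_apply, map_one, one_mul, kV_one, xd, ofGR_mq, genH_gd]
    obtain ⟨u, v⟩ := p
    have e : ((u, v) : D (ph r₁) × D (ph r₂)) = (u, 1) * (1, v) := by simp
    have h3 : ((ofGR r₁ r₂).comp (toGR r₁ r₂)) (inP _ (u, 1)) = inP _ (u, 1) :=
      DFunLike.congr_fun h1 u
    have h4 : ((ofGR r₁ r₂).comp (toGR r₁ r₂)) (inP _ (1, v)) = inP _ (1, v) :=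
      DFunLike.congr_fun h2 v
    rw [e, map_mul, map_mul, h3, h4]
    rfl
  · intro u
    rcases Int.units_eq_one_or u with rfl | rfl
    · rw [map_one, map_one, map_one, map_one]
    · change ofGR r₁ r₂ (toGR r₁ r₂ (inX _ (gx 1 (-1)))) = inX _ (gx 1 (-1))
      rw [toGR_one, xc, ofGR_mq, genH_gc]

theorem to_ofGR : (toGR r₁ r₂).comp (ofGR r₁ r₂) = MonoidHom.id _ := by
  apply PresentedGroup.ext
  intro x
  change toGR r₁ r₂ (ofGR r₁ r₂ (mq r₁ r₂ (FreeGroup.of x))) = mq r₁ r₂ (FreeGroup.of x)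
  rcases x with (s | s) | i
  · change toGR r₁ r₂ (ofGR r₁ r₂ (mq r₁ r₂ (g1 (FreeGroup.of s)))) = mq r₁ r₂ (g1 (FreeGroup.of s))
    rw [← k1_kl, ofGR_k1, toGR_inP, kUV_apply, map_one, mul_one, kU_inP]
  · change toGR r₁ r₂ (ofGR r₁ r₂ (mq r₁ r₂ (g2 (FreeGroup.of s)))) = mq r₁ r₂ (g2 (FreeGroup.of s))
    rw [← k2_kl, ofGR_k2, toGR_inP, kUV_apply, map_one, one_mul, kV_inP]
  · fin_cases i
    · change toGR r₁ r₂ (ofGR r₁ r₂ (mq r₁ r₂ ga)) = mq r₁ r₂ ga
      rw [ofGR_mq, genH_ga, toGR_inP, kUV_apply, map_one, mul_one, kU_one]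
      rfl
    · change toGR r₁ r₂ (ofGR r₁ r₂ (mq r₁ r₂ gc)) = mq r₁ r₂ gc
      rw [ofGR_mq, genH_gc, toGR_one]
      rfl
    · change toGR r₁ r₂ (ofGR r₁ r₂ (mq r₁ r₂ gd)) = mq r₁ r₂ gd
      rw [ofGR_mq, genH_gd, toGR_inP, kUV_apply, map_one, one_mul, kV_one]
      rfl

/-- The presented group is the amalgamated product. -/
noncomputable def isoGR : GR r₁ r₂ ≃* GG (ph r₁) (ph r₂) :=
  MonoidHom.toMulEquiv (ofGR r₁ r₂) (toGR r₁ r₂) (to_ofGR r₁ r₂) (of_toGR r₁ r₂)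

theorem resFinite_GR : Group.ResiduallyFinite (GR r₁ r₂) := by
  have := resFinite_ph r₁ r₂
  exact resFinite_of_injective (isoGR r₁ r₂).toMonoidHom (isoGR r₁ r₂).injective

end homs

end Pool.Agent.RG
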