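import Pool.Agent.RG.Groups
import Pool.Agent.NR39.PFree

/-!
# Residual finiteness of the semidirect products
-/

namespace Pool.Agent.RG

open Pool.Agent.D4 Pool.Agent.FG

section walk

variable {Z : Type}

open Classical in
/-- One step of the walk: the letter `z` exchanges `i` and `i + 1` if the letter of the word at
position `i` is `z`. -/
noncomputable def stp (w : List Z) (z : Z) (i : ℕ) : ℕ :=
  if w[i]? = some z then i + 1 else if 0 < i ∧ w[i - 1]? = some z then i - 1 else i

theorem stp_up {w : List Z} {z : Z} {i : ℕ} (h : w[i]? = some z) : stp w z i = i + 1 := by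
  rw [stp, if_pos h]

theorem next_ne {w : List Z} (hw : w.IsChain (· ≠ ·)) {z : Z} {i : ℕ} (h : w[i]? = some z) :
    w[i + 1]? ≠ some z := by
  intro h2
  obtain ⟨h3, h4⟩ := List.getElem?_eq_some_iff.1 h
  obtain ⟨h5, h6⟩ := List.getElem?_eq_some_iff.1 h2
  have h7 := List.isChain_iff_getElem.1 hw i h5
  exact h7 (h4.trans h6.symm)

theorem stp_down {w : List Z} (hw : w.IsChain (· ≠ ·)) {z : Z} {i : ℕ} (h : w[i]? = some z) :
    stp w z (i + 1) = i := by
  rw [stp, if_neg (next_ne hw h), if_pos ⟨Nat.succ_pos i, by simpa using h⟩]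
  rfl

theorem stp_stp {w : List Z} (hw : w.IsChain (· ≠ ·)) (z : Z) (i : ℕ) :
    stp w z (stp w z i) = i := by
  by_cases h1 : w[i]? = some z
  · rw [stp_up h1, stp_down hw h1]
  · by_cases h2 : 0 < i ∧ w[i - 1]? = some z
    · have h3 : stp w z i = i - 1 := by rw [stp, if_neg h1, if_pos h2]
      rw [h3, stp_up h2.2]
      omega
    · have h3 : stp w z i = i := by rw [stp, if_neg h1, if_neg h2]
      rw [h3, h3]

theorem stp_le {w : List Z} {z : Z} {i : ℕ} (hi : i < w.length + 1) :
    stp w z i < w.length + 1 := by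
  unfold stp
  split_ifs with h1 h2
  · obtain ⟨h3, -⟩ := List.getElem?_eq_some_iff.1 h1
    omega
  · omega
  · exact hi

/-- The permutation. -/
noncomputable def prm (w : List Z) (hw : w.IsChain (· ≠ ·)) (z : Z) :
    Equiv.Perm (Fin (w.length + 1)) :=
  Function.Involutive.toPerm (fun i => ⟨stp w z i, stp_le i.2⟩) fun i => Fin.ext (stp_stp hw z i)

theorem prm_mul_self (w : List Z) (hw : w.IsChain (· ≠ ·)) (z : Z) :
    prm w hw z * prm w hw z = 1 := by
  ext i
  exact stp_stp hw z i

theorem prm_prod (w : List Z) (hw : w.IsChain (· ≠ ·)) (j k : ℕ) (hk : k + j = w.length) :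
    ((((w.drop k).map (prm w hw)).prod (Fin.last w.length) : Fin (w.length + 1)) : ℕ) = k := by
  induction j generalizing k with
  | zero =>
    have h1 : w.drop k = [] := List.drop_eq_nil_of_le (by omega)
    rw [h1, List.map_nil, List.prod_nil, Equiv.Perm.one_apply, Fin.val_last]
    omega
  | succ j ih =>
    have hk' : k < w.length := by omega
    have h1 : w.drop k = w[k] :: w.drop (k + 1) := (List.drop_eq_getElem_cons hk')
    rw [h1, List.map_cons, List.prod_cons, Equiv.Perm.mul_apply]
    have h2 := ih (k + 1) (by omega)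
    change stp w w[k] _ = k
    rw [h2]
    exact stp_down hw (List.getElem?_eq_getElem hk')

theorem prm_ne (w : List Z) (hw : w.IsChain (· ≠ ·)) (hne : w ≠ []) :
    (w.map (prm w hw)).prod (Fin.last w.length) ≠ Fin.last w.length := by
  intro h
  have h1 := prm_prod w hw w.length 0 (by omega)
  rw [List.drop_zero, h, Fin.val_last] at h1
  exact hne (List.eq_nil_of_length_eq_zero h1)

end walk

section word

variable {X : Type}

theorem exists_word (f : Fx X) (hf : f ≠ 1) :
    ∃ l : List X, l ≠ [] ∧ l.IsChain (· ≠ ·) ∧ f = (l.map fun x => gx x (-1)).prod := by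
  classical
  let w := Monoid.CoprodI.Word.equiv f
  have hw : w.prod = f := Monoid.CoprodI.Word.equiv.symm_apply_apply f
  refine ⟨w.toList.map Sigma.fst, ?_, ?_, ?_⟩
  · intro h
    apply hf
    rw [List.map_eq_nil_iff] at h
    rw [← hw, Monoid.CoprodI.Word.prod, h]
    rfl
  · rw [List.isChain_map]
    exact w.chain_ne
  · rw [← hw, Monoid.CoprodI.Word.prod, List.map_map]
    congr 1
    apply List.map_congr_left
    intro l hl
    have h1 : l.2 = -1 := (Int.units_eq_one_or l.2).resolve_left (w.ne_one l hl)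
    rw [h1]
    rfl

end word

section act

variable {X P : Type} [Group P]

/-- Any two different points can be separated by an equivariant map to a finite set. -/
def RFAct (φ : P →* Equiv.Perm X) : Prop :=
  ∀ x y, x ≠ y → ∃ (Z : Type) (_ : Finite Z) (ζ : P →* Equiv.Perm Z) (q : X → Z),
    (∀ p x, q (φ p x) = ζ p (q x)) ∧ q x ≠ q y

theorem RFAct.sep {φ : P →* Equiv.Perm X} (h : RFAct φ) (l : List (X × X))
    (hl : ∀ p ∈ l, p.1 ≠ p.2) : ∃ (Z : Type) (_ : Finite Z) (ζ : P →* Equiv.Perm Z) (q : X → Z),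
      (∀ p x, q (φ p x) = ζ p (q x)) ∧ ∀ p ∈ l, q p.1 ≠ q p.2 := by
  induction l with
  | nil => exact ⟨Unit, inferInstance, 1, fun _ => (), fun _ _ => rfl, by simp⟩
  | cons a l ih =>
    obtain ⟨Z, hZ, ζ, q, h1, h2⟩ := ih fun p hp => hl p (List.mem_cons_of_mem _ hp)
    obtain ⟨Z', hZ', ζ', q', h1', h2'⟩ := h a.1 a.2 (hl a List.mem_cons_self)
    let θ : P →* Equiv.Perm (Z × Z') :=
      { toFun := fun p => Equiv.prodCongr (ζ p) (ζ' p)
        map_one' := by
          ext z <;> simp
        map_mul' := by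
          intro a b
          ext z <;> simp }
    refine ⟨Z × Z', inferInstance, θ, fun x => (q x, q' x), ?_, ?_⟩
    · intro p x
      exact Prod.ext (h1 p x) (h1' p x)
    · intro p hp
      rcases List.mem_cons.1 hp with rfl | hp
      · intro h
        exact h2' (congrArg Prod.snd h)
      · intro h
        exact h2 p hp (congrArg Prod.fst h)

theorem RFAct.comp {φ : P →* Equiv.Perm X} (h : RFAct φ) {B : Type} [Group B] (f : B →* P) :
    RFAct (φ.comp f) := by
  intro x y hxy
  obtain ⟨Z, hZ, ζ, q, h1, h2⟩ := h x y hxy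
  exact ⟨Z, hZ, ζ.comp f, q, fun b x => h1 (f b) x, h2⟩

section rep

variable (φ : P →* Equiv.Perm X) {Z : Type} (ζ : P →* Equiv.Perm Z) (q : X → Z)
  (hq : ∀ p x, q (φ p x) = ζ p (q x)) {n : ℕ} (J : Z → Equiv.Perm (Fin n))
  (hJ : ∀ z, J z * J z = 1)

/-- The permutation of the factor with index `x`. -/
def pX (x : X) : Equiv.Perm (Equiv.Perm Z × Fin n) :=
  Equiv.prodShear (Equiv.refl _) fun τ => J (τ⁻¹ (q x))

theorem pX_apply (x : X) (τ : Equiv.Perm Z) (i : Fin n) :
    pX q J x (τ, i) = (τ, J (τ⁻¹ (q x)) i) := rfl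

include hJ in
theorem pX_sq (x : X) : pX q J x * pX q J x = 1 := by
  apply Equiv.ext
  rintro ⟨τ, i⟩
  rw [Equiv.Perm.mul_apply, pX_apply, pX_apply, ← Equiv.Perm.mul_apply, hJ]
  rfl

/-- The permutations of `P`. -/
def pP (n : ℕ) : P →* Equiv.Perm (Equiv.Perm Z × Fin n) where
  toFun p := Equiv.prodCongr (Equiv.mulLeft (ζ p)) (Equiv.refl _)
  map_one' := by
    apply Equiv.ext
    rintro ⟨τ, i⟩
    simp
  map_mul' a b := by
    apply Equiv.ext
    rintro ⟨τ, i⟩
    simp [mul_assoc]

theorem pP_apply (p : P) (τ : Equiv.Perm Z) (i : Fin n) : pP ζ n p (τ, i) = (ζ p * τ, i) := rfl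

include hq in
theorem pX_conj (p : P) (x : X) : pP ζ n p * pX q J x * (pP ζ n p)⁻¹ = pX q J (φ p x) := by
  rw [mul_inv_eq_iff_eq_mul]
  apply Equiv.ext
  rintro ⟨τ, i⟩
  have h1 : (ζ p)⁻¹ (ζ p (q x)) = q x := Equiv.symm_apply_apply (ζ p) (q x)
  rw [Equiv.Perm.mul_apply, Equiv.Perm.mul_apply, pX_apply, pP_apply, pP_apply, pX_apply, hq,
    mul_inv_rev, Equiv.Perm.mul_apply, h1]

/-- The homomorphism on `Fx X`. -/
def repX : Fx X →* Equiv.Perm (Equiv.Perm Z × Fin n) :=
  liftX fun x => D4.signHom (pX q J x) (pX_sq q J hJ x)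

theorem repX_gx (x : X) : repX q J hJ (gx x (-1)) = pX q J x := by
  rw [repX, liftX_gx]
  simp [D4.signHom]

include hq in
theorem repX_compat (p : P) : (repX q J hJ).comp (((ac X).comp φ) p).toMonoidHom =
    (MulAut.conj (pP ζ n p)).toMonoidHom.comp (repX q J hJ) := by
  apply Fx_ext
  intro x
  apply hom_ext'
  have h1 : ((repX q J hJ).comp (((ac X).comp φ) p).toMonoidHom).comp (gx x) (-1) =
      repX q J hJ (gx (φ p x) (-1)) := by
    rw [← mv_gx]
    rfl
  have h2 : ((MulAut.conj (pP ζ n p)).toMonoidHom.comp (repX q J hJ)).comp (gx x) (-1) =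
      pP ζ n p * repX q J hJ (gx x (-1)) * (pP ζ n p)⁻¹ := rfl
  rw [h1, h2, repX_gx, repX_gx, pX_conj φ ζ q hq]

/-- The homomorphism on `D φ`. -/
def rep : D φ →* Equiv.Perm (Equiv.Perm Z × Fin n) :=
  SemidirectProduct.lift (repX q J hJ) (pP ζ n) (repX_compat φ ζ q hq J hJ)

theorem rep_inX (f : Fx X) : rep φ ζ q hq J hJ (inX φ f) = repX q J hJ f :=
  SemidirectProduct.lift_inl _ _ _ _

theorem repX_word (l : List X) (i : Fin n) :
    repX q J hJ ((l.map fun x => gx x (-1)).prod) (1, i) =
      (1, ((l.map q).map J).prod i) := by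
  induction l generalizing i with
  | nil => simp
  | cons a l ih =>
    rw [List.map_cons, List.prod_cons, map_mul, Equiv.Perm.mul_apply, ih, repX_gx, pX_apply,
      List.map_cons, List.map_cons, List.prod_cons, Equiv.Perm.mul_apply]
    simp

end rep

theorem resFinite_D [Group.ResiduallyFinite P] (φ : P →* Equiv.Perm X) (hφ : RFAct φ) :
    Group.ResiduallyFinite (D φ) := by
  apply Group.residuallyFinite_of_forall_exists_finite_monoidHom.{0}
  intro d hd
  by_cases h : toP φ d = 1
  · have h1 : d = inX φ d.left := by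
      have h2 := eq_mul φ d
      have h3 : d.right = 1 := h
      rw [h3, map_one, mul_one] at h2
      exact h2
    have h4 : d.left ≠ 1 := by
      intro h5
      apply hd
      rw [h1, h5, map_one]
    obtain ⟨l, hl1, hl2, hl3⟩ := exists_word d.left h4
    classical
    obtain ⟨Z, hZ, ζ, q, h6, h7⟩ := hφ.sep ((l ×ˢ l).filter fun p => p.1 ≠ p.2) (by
      intro p hp
      simpa using (List.mem_filter.1 hp).2)
    have h8 : (l.map q).IsChain (· ≠ ·) := by
      rw [List.isChain_map]
      refine List.IsChain.imp_of_mem_imp ?_ hl2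
      intro a b ha hb hab
      exact h7 (a, b) (List.mem_filter.2 ⟨by simp [ha, hb], by simpa using hab⟩)
    refine ⟨Equiv.Perm (Equiv.Perm Z × Fin ((l.map q).length + 1)), inferInstance, inferInstance,
      rep φ ζ q h6 (prm (l.map q) h8) (prm_mul_self _ h8), ?_⟩
    intro h9
    rw [h1, rep_inX, hl3] at h9
    have h10 := repX_word q (prm (l.map q) h8) (prm_mul_self _ h8) l (Fin.last _)
    rw [h9, Equiv.Perm.one_apply] at h10
    exact prm_ne (l.map q) h8 (by simpa using hl1) (congrArg Prod.snd h10).symm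
  · obtain ⟨H, hH⟩ := Group.exists_finiteIndexNormalSubgroup_notMem (toP φ d) h
    refine ⟨P ⧸ H.toSubgroup, inferInstance, inferInstance,
      (QuotientGroup.mk' H.toSubgroup).comp (toP φ), ?_⟩
    intro h1
    apply hH
    exact (QuotientGroup.eq_one_iff _).1 h1

theorem resFinite_of_injective {G H : Type} [Group G] [Group H] [Group.ResiduallyFinite H]
    (f : G →* H) (hf : Function.Injective f) : Group.ResiduallyFinite G := by
  rw [Group.residuallyFinite_iff_forall_finiteIndexNormalSubgroup]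
  intro g hg
  apply hf
  rw [map_one]
  exact Group.eq_one_iff_forall_finiteIndexNormalSubroup (f g) fun K => hg (K.comap f)

instance resFinite_free (S : Type) : Group.ResiduallyFinite (FreeGroup S) := by
  apply Group.residuallyFinite_of_forall_exists_finite_monoidHom.{0}
  intro x hx
  have : Fact (Nat.Prime 2) := ⟨Nat.prime_two⟩
  obtain ⟨P, h1, h2, f, -, h3⟩ := Pool.Agent.NR39.free_residual_p 2 x hx
  exact ⟨P, h1, h2, f, h3⟩

theorem RFAct_tw (K : Type) [Group K] [Group.ResiduallyFinite K] : RFAct (tw K) := by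
  intro x y hxy
  obtain ⟨H, hH⟩ := Group.exists_finiteIndexNormalSubgroup_of_residuallyFinite x y hxy
  refine ⟨K ⧸ H.toSubgroup, inferInstance, (tw (K ⧸ H.toSubgroup)).comp
    ((QuotientGroup.mk' H.toSubgroup).prodMap (QuotientGroup.mk' H.toSubgroup)),
    QuotientGroup.mk' H.toSubgroup, ?_, hH⟩
  rintro ⟨a, b⟩ k
  change QuotientGroup.mk' H.toSubgroup (a * k * b⁻¹) = _
  rw [map_mul, map_mul, map_inv]
  rfl

theorem resFinite_GG {X Y K : Type} [Group K] [Group.ResiduallyFinite K]
    (φ : K →* Equiv.Perm X) (φ' : K →* Equiv.Perm Y) (h : RFAct φ) (h' : RFAct φ') :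
    Group.ResiduallyFinite (GG φ φ') := by
  have := resFinite_D φ h
  have := resFinite_D φ' h'
  exact resFinite_D _ ((RFAct_tw K).comp _)

end act

end Pool.Agent.RG
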